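import Pool.Agent.HLM26.Rough
import Pool.Agent.Lib.Maynard.BVInst
import Pool.Agent.HL26.SieveA

/-!
# Uniform error terms and small estimates
-/

open Filter

namespace Pool.Agent.HLM26

open Pool.Agent.Maynard

/-- The error term is negligible, uniformly in the modulus and the shift. -/
lemma ev_err' {θ : ℝ} (hBV : BVHyp θ) (k b : ℕ) :
    ∀ᶠ N : ℕ in atTop, ∀ W s : ℕ, 0 < W → s ≤ N → ∀ (P : Finset ℕ) (K0 R : ℕ), Setting P W K0 R →
      R ≤ N → W * (R * R) ≤ N → W * (R * R) ≤ ⌊((3 * N : ℕ):ℝ) ^ θ⌋₊ →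
      L0 P k ^ 2 * ∑ B : P → Bool, FB P N s W (R * R) B * pm (fun _ => (2 * (k:ℝ) + 1) ^ 2) B ≤
        N / (Real.log N) ^ b := by
  set c : ℕ := (2 * k + 1) ^ 2 with hc
  set a : ℕ := 20 * k + (10 * c ^ 2 + 1) + (b + 1) with ha
  set A : ℕ := a + 20 * k + (b + 1) with hA
  obtain ⟨C, hC, hsum⟩ := sum_EE_le hBV A
  filter_upwards [ev_LL_le, ev_log_ge (5 + 3 * C), ev_log_ge 2, eventually_ge_atTop 3]
    with N hLL hlog5 hlog2 hN3 W s hW hs P K0 R hS hRN hWN hWθ
  set x := Real.log N with hx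
  have hx0 : 0 < x := by linarith
  have hN0 : (0:ℝ) < N := by exact_mod_cast (show 0 < N by omega)
  have hlog3 : Real.log (3 * N : ℕ) ≤ 2 * x := by
    push_cast
    rw [Real.log_mul (by norm_num) hN0.ne']
    have : Real.log 3 ≤ x := Real.log_le_log (by norm_num) (by exact_mod_cast hN3)
    linarith
  have hlog3' : x ≤ Real.log (3 * N : ℕ) := by
    refine Real.log_le_log hN0 ?_
    push_cast
    linarith
  have hLLR : LL R ≤ x ^ 5 := (LL_mono hRN).trans hLL
  have hLL1 := LL_ge_one R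
  have hL0 : L0 P k ≤ x ^ (10 * k) := by
    refine (L0_le hS.prime hS.le).trans ?_
    refine (pow_le_pow_left₀ (by linarith) hLLR (2 * k)).trans (le_of_eq ?_)
    rw [← pow_mul]
    congr 1
    ring
  have hL00 := L0_ge_one (k := k) (P := P) (fun p hp => (hS.prime p hp).two_le)
  have hL02 : L0 P k ^ 2 ≤ x ^ (20 * k) := by
    refine (pow_le_pow_left₀ (by linarith) hL0 2).trans (le_of_eq ?_)
    rw [← pow_mul]
    congr 1
    ring
  have hcc : (2 * (k:ℝ) + 1) ^ 2 = (c:ℝ) := by rw [hc]; push_cast; ring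
  rw [hcc]
  have ht : 0 < x ^ a := by positivity
  have h1 := sum_split (P := P) (N := N) (s := s) (W := W) (Y := R * R) c ht
  have h2 := sum_FB_pm_le hS hW (N := N) (s := s) (Y := R * R) (by omega) hs hWN (c ^ 2)
  have h3 := sum_FB_le hS hW (N := N) (s := s) (Y := R * R) hWθ
  have h4 := hsum N s (by omega) hs
  have h5 : (2 * Real.log (3 * N : ℕ) + 1) * N * LL R ^ (2 * c ^ 2) ≤
      5 * N * x ^ (10 * c ^ 2 + 1) := by
    have e1 : LL R ^ (2 * c ^ 2) ≤ x ^ (10 * c ^ 2) := by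
      refine (pow_le_pow_left₀ (by linarith) hLLR _).trans (le_of_eq ?_)
      rw [← pow_mul]
      congr 1
      ring
    calc (2 * Real.log (3 * N : ℕ) + 1) * N * LL R ^ (2 * c ^ 2)
        ≤ (5 * x) * N * x ^ (10 * c ^ 2) := by
          have : 2 * Real.log (3 * N : ℕ) + 1 ≤ 5 * x := by linarith
          have h0 : (0:ℝ) ≤ Real.log (3 * N : ℕ) := Real.log_natCast_nonneg _
          gcongr
      _ = _ := by rw [pow_succ]; ring
  have h6 : ∑ B : P → Bool, FB P N s W (R * R) B ≤ 3 * C * N / x ^ A := by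
    refine (h3.trans h4).trans ?_
    push_cast
    have e1 : x ^ A ≤ Real.log (3 * (N:ℝ)) ^ A := by
      refine pow_le_pow_left₀ hx0.le ?_ A
      push_cast at hlog3'
      exact hlog3'
    have e2 : C * (3 * (N:ℝ)) = 3 * C * N := by ring
    rw [e2]
    exact div_le_div_of_nonneg_left (by positivity) (by positivity) e1
  have h7 : ∑ B : P → Bool, FB P N s W (R * R) B * pm (fun _ => (c:ℝ)) B ≤
      5 * N * x ^ (10 * c ^ 2 + 1) / x ^ a + x ^ a * (3 * C * N / x ^ A) := by
    refine h1.trans (add_le_add ?_ ?_)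
    · exact div_le_div_of_nonneg_right (h2.trans h5) ht.le
    · exact mul_le_mul_of_nonneg_left h6 ht.le
  have h8 : 0 ≤ ∑ B : P → Bool, FB P N s W (R * R) B * pm (fun _ => (c:ℝ)) B :=
    Finset.sum_nonneg fun B _ => mul_nonneg (FB_nonneg _ _ _ _ B)
      (pm_nonneg (fun _ _ => Nat.cast_nonneg c) B)
  calc L0 P k ^ 2 * ∑ B : P → Bool, FB P N s W (R * R) B * pm (fun _ => (c:ℝ)) B
      ≤ x ^ (20 * k) * (5 * N * x ^ (10 * c ^ 2 + 1) / x ^ a + x ^ a * (3 * C * N / x ^ A)) :=
        mul_le_mul hL02 h7 h8 (by positivity)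
    _ = (5 + 3 * C) * N / x ^ (b + 1) := by
        have e1 : x ^ a = x ^ (20 * k) * x ^ (10 * c ^ 2 + 1) * x ^ (b + 1) := by
          rw [ha, ← pow_add, ← pow_add]
        have e2 : x ^ A = x ^ a * x ^ (20 * k) * x ^ (b + 1) := by
          rw [hA, ← pow_add, ← pow_add]
        have e3 : x ^ (20 * k) * (5 * N * x ^ (10 * c ^ 2 + 1) / x ^ a) = 5 * N / x ^ (b + 1) := by
          rw [e1]
          field_simp
        have e4 : x ^ (20 * k) * (x ^ a * (3 * C * N / x ^ A)) = 3 * C * N / x ^ (b + 1) := by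
          rw [e2]
          field_simp
        rw [mul_add, e3, e4]
        ring
    _ ≤ x * N / x ^ (b + 1) := by gcongr
    _ = N / x ^ b := by
        rw [pow_succ]
        field_simp

lemma prod_ratio_le (S : Finset ℕ) (hS : ∀ p ∈ S, 2 ≤ p) :
    ∏ p ∈ S, ((p:ℝ) / ((p:ℝ) - 1)) ≤ S.card + 1 := by
  classical
  induction S using Finset.induction_on_max with
  | empty => simp
  | insert m s hm ih =>
    have hms : m ∉ s := fun h => lt_irrefl m (hm m h)
    rw [Finset.prod_insert hms, Finset.card_insert_of_notMem hms]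
    have ih' := ih fun p hp => hS p (Finset.mem_insert_of_mem hp)
    have hm2 : 2 ≤ m := hS m (Finset.mem_insert_self _ _)
    have hcard : s.card + 2 ≤ m := by
      have h1 : s ⊆ Finset.Ico 2 m := fun p hp => by
        rw [Finset.mem_Ico]
        exact ⟨hS p (Finset.mem_insert_of_mem hp), hm p hp⟩
      have := Finset.card_le_card h1
      rw [Nat.card_Ico] at this
      omega
    have hmr : (s.card : ℝ) + 2 ≤ m := by exact_mod_cast hcard
    have h1 : (m:ℝ) / ((m:ℝ) - 1) ≤ ((s.card : ℝ) + 2) / (s.card + 1) := by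
      rw [div_le_div_iff₀ (by linarith) (by positivity)]
      nlinarith
    calc (m:ℝ) / ((m:ℝ) - 1) * ∏ p ∈ s, ((p:ℝ) / ((p:ℝ) - 1))
        ≤ ((s.card : ℝ) + 2) / (s.card + 1) * (s.card + 1) := by
          refine mul_le_mul h1 ih' (Finset.prod_nonneg fun p hp => ?_) (by positivity)
          have : (2:ℝ) ≤ p := by exact_mod_cast hS p (Finset.mem_insert_of_mem hp)
          apply div_nonneg <;> linarith
      _ = ((s.card + 1 : ℕ) : ℝ) + 1 := by
          push_cast
          field_simp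
          ring

lemma inv_cW_le {W : ℕ} (hW : 0 < W) : (cW W)⁻¹ ≤ 1 + 2 * Real.log W := by
  have h1 : (W:ℝ) / W.totient = ∏ p ∈ W.primeFactors, ((p:ℝ) / ((p:ℝ) - 1)) := by
    have h2 := Nat.totient_eq_mul_prod_factors W
    have h3 : (W.totient : ℝ) = W * ∏ p ∈ W.primeFactors, (1 - ((p:ℝ))⁻¹) := by
      have := congrArg (fun q : ℚ => (q:ℝ)) h2
      push_cast at this
      exact this
    rw [h3]
    have hWr : (W:ℝ) ≠ 0 := by exact_mod_cast hW.ne'
    rw [div_mul_eq_div_div, div_self hWr, one_div, ← Finset.prod_inv_distrib]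
    refine Finset.prod_congr rfl fun p hp => ?_
    have hp2 : (2:ℝ) ≤ p := by exact_mod_cast (Nat.prime_of_mem_primeFactors hp).two_le
    have : (p:ℝ) - 1 ≠ 0 := by linarith
    have : (p:ℝ) ≠ 0 := by linarith
    field_simp
  have h2 : (cW W)⁻¹ = (W:ℝ) / W.totient := by unfold cW; rw [inv_div]
  rw [h2, h1]
  refine (prod_ratio_le _ fun p hp => (Nat.prime_of_mem_primeFactors hp).two_le).trans ?_
  have h3 : 2 ^ W.primeFactors.card ≤ W := by
    calc 2 ^ W.primeFactors.card = ∏ p ∈ W.primeFactors, 2 := by rw [Finset.prod_const]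
      _ ≤ ∏ p ∈ W.primeFactors, p :=
        Finset.prod_le_prod' (fun p hp => (Nat.prime_of_mem_primeFactors hp).two_le)
      _ ≤ W := Nat.le_of_dvd hW (Nat.prod_primeFactors_dvd W)
  have h4 : (W.primeFactors.card : ℝ) * Real.log 2 ≤ Real.log W := by
    rw [← Real.log_pow]
    refine Real.log_le_log (by positivity) ?_
    exact_mod_cast h3
  have h5 := Real.log_two_gt_d9
  have h6 : (0:ℝ) ≤ W.primeFactors.card := Nat.cast_nonneg _
  nlinarith

lemma tendsto_loglog_nat : Tendsto (fun N : ℕ => Real.log (Real.log N)) atTop atTop :=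
  Real.tendsto_log_atTop.comp tendsto_log_nat

/-- `a + b log log N ≤ (log N)^{1/4}` eventually -/
lemma ev_loglog_le (a b : ℝ) : ∀ᶠ N : ℕ in atTop,
    a + b * Real.log (Real.log N) ≤ (Real.log N) ^ (1/4 : ℝ) := by
  have h1 : Tendsto (fun y : ℝ => y ^ (1/4 : ℝ)) atTop atTop := tendsto_rpow_atTop (by norm_num)
  have h2 := isLittleO_log_rpow_atTop (r := (1/4 : ℝ)) (by norm_num)
  have h3 : ∀ᶠ y : ℝ in atTop, a + b * Real.log y ≤ y ^ (1/4 : ℝ) := by
    have hb : (0:ℝ) < 1 / (2 * (|b| + 1)) := by positivity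
    filter_upwards [h2.bound hb, h1.eventually_ge_atTop (2 * |a|), eventually_ge_atTop 1]
      with y hy1 hy2 hy3
    have hy4 : 0 ≤ y ^ (1/4 : ℝ) := by positivity
    rw [Real.norm_of_nonneg (Real.log_nonneg hy3), Real.norm_of_nonneg hy4] at hy1
    have e1 : a ≤ |a| := le_abs_self a
    have e2 : b * Real.log y ≤ (|b| + 1) * (1 / (2 * (|b| + 1)) * y ^ (1/4 : ℝ)) := by
      have hl := Real.log_nonneg hy3
      have hb1 : b ≤ |b| + 1 := by have := le_abs_self b; linarith
      calc b * Real.log y ≤ (|b| + 1) * Real.log y := mul_le_mul_of_nonneg_right hb1 hl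
        _ ≤ _ := mul_le_mul_of_nonneg_left hy1 (by positivity)
    have e3 : (|b| + 1) * (1 / (2 * (|b| + 1)) * y ^ (1/4 : ℝ)) = y ^ (1/4 : ℝ) / 2 := by
      field_simp
    linarith
  exact tendsto_log_nat.eventually h3

end Pool.Agent.HLM26
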