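import Pool.Agent.HLM26.Uniform2
import Pool.Agent.HL26.Sing

/-!
# Lower bounds in a residue class modulo a primorial
-/

open Filter

namespace Pool.Agent.HLM26

open Pool.Agent.Maynard
open Pool.Agent.HL26 (PPy PPy_prime nu SP SP_eq)

/-- the primorial -/
def Pr (y : ℕ) : ℕ := ∏ p ∈ PPy y, p

lemma Pr_pos (y : ℕ) : 0 < Pr y := Finset.prod_pos fun p hp => (PPy_prime y p hp).pos

lemma mem_PPy {y p : ℕ} : p ∈ PPy y ↔ p ≤ y ∧ p.Prime := by
  unfold PPy
  rw [Finset.mem_filter, Finset.mem_range, Nat.lt_succ_iff]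

lemma dvd_Pr {y p : ℕ} (hp : p.Prime) (h : p ≤ y) : p ∣ Pr y :=
  Finset.dvd_prod_of_mem _ (mem_PPy.2 ⟨h, hp⟩)

lemma le_of_dvd_Pr {y p : ℕ} (hp : p.Prime) (h : p ∣ Pr y) : p ≤ y := by
  unfold Pr at h
  rw [hp.prime.dvd_finsetProd_iff] at h
  obtain ⟨q, hq, hpq⟩ := h
  rw [(Nat.prime_dvd_prime_iff_eq hp (PPy_prime y q hq)).1 hpq]
  exact (mem_PPy.1 hq).1

/-- The good integers for a finite set. -/
def GoodE (m : ℕ) (z : ℝ) (E : Finset ℕ) (n : ℕ) : Prop :=
  m ≤ (E.filter (fun e => (n + e).Prime)).card ∧ ∀ e ∈ E, ∀ p : ℕ, p.Prime → p ∣ n + e → z < p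

lemma goodN_iff {K m : ℕ} {z : ℝ} {E : Finset ℕ} (hE : E.card = K) (n : ℕ) :
    GoodN m z (fun i => E.orderEmbOfFin hE i) n ↔ GoodE m z E n := by
  classical
  have himg : Finset.univ.map (E.orderEmbOfFin hE).toEmbedding = E := by
    rw [Finset.map_orderEmbOfFin_univ]
  unfold GoodN GoodE npr
  have h1 : (E.filter (fun e => (n + e).Prime)).card =
      (Finset.univ.filter (fun i : Fin K => (n + E.orderEmbOfFin hE i).Prime)).card := by
    conv_lhs => rw [← himg]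
    rw [Finset.filter_map, Finset.card_map]
    rfl
  rw [h1]
  refine and_congr Iff.rfl ⟨fun h e he => ?_, fun h i => ?_⟩
  · rw [← himg, Finset.mem_map] at he
    obtain ⟨i, _, rfl⟩ := he
    exact h i
  · exact h _ (Finset.orderEmbOfFin_mem E hE i)

/-- the product of the primes dividing some difference -/
lemma bad_prod_le {E : Finset ℕ} {H : ℕ} (hH : 1 ≤ H) (hE : ∀ e ∈ E, e ≤ H) {T : Finset ℕ}
    (hTp : ∀ p ∈ T, p.Prime) (hTb : ∀ p ∈ T, nu E p < E.card) :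
    ∏ p ∈ T, p ≤ H ^ (E.card ^ 2) := by
  classical
  set S := (E ×ˢ E).filter (fun q => q.1 < q.2) with hS
  have h1 : ∏ p ∈ T, p ∣ ∏ q ∈ S, (q.2 - q.1) := by
    refine Finset.prod_primes_dvd _ (fun p hp => (hTp p hp).prime) fun p hp => ?_
    obtain ⟨e, he, e', he', hlt, hdvd⟩ := HL26.exists_dvd_of_nu_lt E p (hTb p hp)
    have h2 : (e, e') ∈ S := by
      rw [hS, Finset.mem_filter, Finset.mem_product]
      exact ⟨⟨he, he'⟩, hlt⟩
    exact hdvd.trans (Finset.dvd_prod_of_mem (fun q : ℕ × ℕ => q.2 - q.1) h2)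
  have h2 : 0 < ∏ q ∈ S, (q.2 - q.1) := by
    refine Finset.prod_pos fun q hq => ?_
    have := (Finset.mem_filter.1 hq).2
    omega
  refine (Nat.le_of_dvd h2 h1).trans ?_
  have h3 : ∏ q ∈ S, (q.2 - q.1) ≤ ∏ q ∈ S, H := by
    refine Finset.prod_le_prod' fun q hq => ?_
    have := (Finset.mem_product.1 (Finset.mem_filter.1 hq).1).2
    exact (Nat.sub_le _ _).trans (hE _ this)
  refine h3.trans ?_
  rw [Finset.prod_const]
  refine Nat.pow_le_pow_right hH ?_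
  refine (Finset.card_filter_le _ _).trans ?_
  rw [Finset.card_product, sq]

lemma cW_mul {a b : ℕ} (h : a.Coprime b) : cW (a * b) = cW a * cW b := by
  unfold cW
  rw [Nat.totient_mul h]
  push_cast
  rw [mul_div_mul_comm]

open Classical in
/-- adding up the residue classes modulo the bad primes -/
lemma classes_add {K m : ℕ} {z : ℝ} {E Tb : Finset ℕ} (hE : E.card = K)
    (hTb : ∀ p ∈ Tb, p.Prime) {N P a : ℕ} (hcop : P.Coprime (∏ p ∈ Tb, p))
    (ha : ∀ e ∈ E, (a + e).Coprime P) {L : ℝ}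
    (hL : ∀ a' : ℕ, (∀ e ∈ E, (a' + e).Coprime (P * ∏ p ∈ Tb, p)) →
      L ≤ (((Finset.Ioc N (2 * N)).filter
        (fun n => n ≡ a' [MOD P * ∏ p ∈ Tb, p] ∧ GoodE m z E n)).card : ℝ)) :
    ((∏ p ∈ Tb, (p - nu E p) : ℕ) : ℝ) * L ≤ (((Finset.Ioc N (2 * N)).filter
        (fun n => n ≡ a [MOD P] ∧ GoodE m z E n)).card : ℝ) := by
  set Q := ∏ p ∈ Tb, p with hQ
  have hQ0 : 0 < Q := Finset.prod_pos fun p hp => (hTb p hp).pos
  have : NeZero Q := ⟨hQ0.ne'⟩
  rw [← HL26.card_units_eq Tb hTb E]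
  set R := Finset.univ.filter (fun c : ZMod Q => ∀ e ∈ E, IsUnit (c + (e : ZMod Q))) with hR
  set S := (Finset.Ioc N (2 * N)).filter (fun n => n ≡ a [MOD P] ∧ GoodE m z E n) with hS
  have h1 : ∀ r ∈ R, L ≤ ((S.filter (fun n : ℕ => (n : ZMod Q) = r)).card : ℝ) := by
    intro r hr
    have hr' := (Finset.mem_filter.1 hr).2
    set a' : ℕ := (Nat.chineseRemainder hcop a r.val).1 with ha'
    have e1 : a' ≡ a [MOD P] := (Nat.chineseRemainder hcop a r.val).2.1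
    have e2 : a' ≡ r.val [MOD Q] := (Nat.chineseRemainder hcop a r.val).2.2
    have e3 : ∀ e ∈ E, (a' + e).Coprime (P * Q) := by
      intro e he
      refine Nat.Coprime.mul_right ?_ ?_
      · rw [Nat.coprime_iff_gcd_eq_one, Nat.ModEq.gcd_eq (e1.add_right e)]
        exact ha e he
      · rw [← ZMod.isUnit_iff_coprime]
        have := hr' e he
        have e4 : ((a' + e : ℕ) : ZMod Q) = r + (e : ZMod Q) := by
          push_cast
          rw [(ZMod.natCast_eq_natCast_iff _ _ _).2 e2, ZMod.natCast_zmod_val]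
        rw [e4]
        exact this
    refine (hL a' e3).trans ?_
    refine Nat.cast_le.2 (Finset.card_le_card fun n hn => ?_)
    rw [Finset.mem_filter] at hn
    obtain ⟨hn1, hn2, hn3⟩ := hn
    rw [Finset.mem_filter, hS, Finset.mem_filter]
    refine ⟨⟨hn1, (hn2.of_mul_right Q).trans e1, hn3⟩, ?_⟩
    have e4 : n ≡ r.val [MOD Q] := (hn2.of_mul_left P).trans e2
    rw [(ZMod.natCast_eq_natCast_iff _ _ _).2 e4, ZMod.natCast_zmod_val]
  have h2 : (S.card : ℝ) = ∑ r : ZMod Q, ((S.filter (fun n : ℕ => (n : ZMod Q) = r)).card : ℝ) := by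
    rw [Finset.card_eq_sum_card_fiberwise (f := fun n : ℕ => (n : ZMod Q)) (t := Finset.univ)
      (fun _ _ => Finset.mem_coe.2 (Finset.mem_univ _))]
    push_cast
    rfl
  rw [h2]
  refine le_trans ?_ (Finset.sum_le_sum_of_subset_of_nonneg (Finset.subset_univ R)
    fun _ _ _ => Nat.cast_nonneg _)
  refine le_trans (le_of_eq ?_) (Finset.sum_le_sum h1)
  rw [Finset.sum_const, nsmul_eq_mul]

open Classical in
/-- Lower bound for the number of good integers in a residue class modulo a primorial. -/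
theorem class_lower (m : ℕ) : ∃ (K y0 : ℕ) (c ρ : ℝ), m ≤ K ∧ 2 ≤ K ∧ 0 < c ∧ 0 < ρ ∧ ρ ≤ 1 / 8 ∧
    ∀ A : ℕ, ∀ᶠ N : ℕ in atTop, ∀ y H : ℕ, y0 ≤ y → (Pr y : ℝ) ≤ (Real.log N) ^ A →
    (H : ℝ) ≤ (Real.log N) ^ A → ∀ E : Finset ℕ, E.card = K → (∀ e ∈ E, e ≤ H) →
    ∀ a : ℕ, (∀ e ∈ E, (a + e).Coprime (Pr y)) →
      c * ((N:ℝ) / Pr y) * (1 / (cW (Pr y) * Real.log N)) ^ K ≤
        (((Finset.Ioc N (2 * N)).filter
          (fun n => n ≡ a [MOD Pr y] ∧ GoodE m ((N:ℝ) ^ ρ) E n)).card : ℝ) := by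
  obtain ⟨K, K0, c, ρ, hmK, hK2, hc, hρ0, hρ8, hmu⟩ := maynard_uniform m
  refine ⟨K, K0 + 2 * K ^ 2 + 2, c / 2, ρ, hmK, hK2, by positivity, hρ0, hρ8, fun A => ?_⟩
  filter_upwards [hmu (A + A * K ^ 2), ev_log_ge 1, ev_log_pow_le (s := 1) (by norm_num) A]
    with N hN hlog1 hlogN y H hy hP hH E hE hEH a ha
  set P := Pr y with hPdef
  have hP0 : 0 < P := Pr_pos y
  set H' := max 1 H with hH'
  have hEH' : ∀ e ∈ E, e ≤ H' := fun e he => (hEH e he).trans (le_max_right _ _)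
  have hH'le : (H' : ℝ) ≤ (Real.log N) ^ A := by
    rw [hH', Nat.cast_max]
    exact max_le (by simpa using one_le_pow₀ hlog1) hH
  set Tb := (PPy H').filter (fun p => y < p ∧ nu E p < E.card) with hTb
  have hTbp : ∀ p ∈ Tb, p.Prime := fun p hp => PPy_prime _ _ (Finset.mem_filter.1 hp).1
  have hTby : ∀ p ∈ Tb, y < p := fun p hp => (Finset.mem_filter.1 hp).2.1
  have hTbn : ∀ p ∈ Tb, nu E p < E.card := fun p hp => (Finset.mem_filter.1 hp).2.2
  set Q := ∏ p ∈ Tb, p with hQ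
  have hQ0 : 0 < Q := Finset.prod_pos fun p hp => (hTbp p hp).pos
  have hcop : P.Coprime Q := by
    rw [hQ]
    refine Nat.Coprime.prod_right fun p hp => ?_
    rw [Nat.coprime_comm, (hTbp p hp).coprime_iff_not_dvd]
    intro hd
    have := le_of_dvd_Pr (hTbp p hp) hd
    have := hTby p hp
    omega
  have hQle : (Q : ℝ) ≤ (Real.log N) ^ (A * K ^ 2) := by
    have h1 : Q ≤ H' ^ (E.card ^ 2) := bad_prod_le (le_max_left _ _) hEH' hTbp hTbn
    rw [hE] at h1
    calc (Q : ℝ) ≤ ((H' ^ (K ^ 2) : ℕ) : ℝ) := by exact_mod_cast h1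
      _ = (H' : ℝ) ^ (K ^ 2) := by push_cast; rfl
      _ ≤ ((Real.log N) ^ A) ^ (K ^ 2) := pow_le_pow_left₀ (Nat.cast_nonneg _) hH'le _
      _ = _ := by rw [← pow_mul]
  have hWle : ((P * Q : ℕ) : ℝ) ≤ (Real.log N) ^ (A + A * K ^ 2) := by
    push_cast
    rw [pow_add]
    exact mul_le_mul hP hQle (Nat.cast_nonneg _) (by positivity)
  set h : Fin K → ℕ := fun i => E.orderEmbOfFin hE i with hh
  have hhE : ∀ i, h i ∈ E := fun i => Finset.orderEmbOfFin_mem E hE i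
  have hhN : ∀ i, h i ≤ N := by
    intro i
    have h1 : (h i : ℝ) ≤ N := by
      calc (h i : ℝ) ≤ H := by exact_mod_cast hEH _ (hhE i)
        _ ≤ (Real.log N) ^ A := hH
        _ ≤ (N:ℝ) ^ (1:ℝ) := hlogN
        _ = N := Real.rpow_one _
    exact_mod_cast h1
  have hsep : ∀ p, p.Prime → ¬ p ∣ P * Q → ∀ i j, i ≠ j → ¬ (h i ≡ h j [MOD p]) := by
    intro p hp hpPQ i j hij hcon
    have hne : h i ≠ h j := fun h1 => hij ((E.orderEmbOfFin hE).injective h1)
    have hnu : nu E p < E.card := by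
      refine lt_of_le_of_ne (HL26.nu_le_card E p) fun heq => ?_
      unfold nu at heq
      rw [Finset.card_image_iff] at heq
      exact hne (heq (hhE i) (hhE j) ((ZMod.natCast_eq_natCast_iff _ _ _).2 hcon))
    have hpy : y < p := by
      by_contra hc
      exact hpPQ (dvd_mul_of_dvd_left (dvd_Pr hp (by omega)) Q)
    have hpH : p ≤ H' := by
      by_contra hc
      push Not at hc
      have h1 := hEH' _ (hhE i)
      have h2 := hEH' _ (hhE j)
      have h3 := hcon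
      unfold Nat.ModEq at h3
      rw [Nat.mod_eq_of_lt (by omega), Nat.mod_eq_of_lt (by omega)] at h3
      exact hne h3
    have hpT : p ∈ Tb := by
      rw [hTb, Finset.mem_filter, mem_PPy]
      exact ⟨⟨hpH, hp⟩, hpy, hnu⟩
    exact hpPQ (dvd_mul_of_dvd_right (Finset.dvd_prod_of_mem _ hpT) P)
  have hkey := hN (P * Q) (Nat.mul_pos hP0 hQ0) hWle (fun p hp hpK =>
    dvd_mul_of_dvd_left (dvd_Pr hp (by omega)) Q) h hhN hsep
  have hadd := classes_add (m := m) (z := (N:ℝ) ^ ρ) (N := N) hE hTbp hcop ha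
    (L := c * ((N:ℝ) / ((P * Q : ℕ) : ℝ)) / (cW (P * Q) * Real.log N) ^ K) (by
      intro a' ha'
      refine (hkey a' fun i => ha' _ (hhE i)).trans (le_of_eq ?_)
      congr 2
      refine Finset.filter_congr fun n _ => ?_
      rw [goodN_iff hE])
  refine le_trans ?_ hadd
  -- the constant
  have hSP1 : (1:ℝ) / 2 ≤ SP Tb E := by
    have h1 := HL26.prod_tail_ge E y (by omega) Tb hTby hTbp
    rw [← HL26.SP_eq_prod_loc, hE] at h1
    refine le_trans ?_ h1
    have hy0 : (0:ℝ) < y := by exact_mod_cast (show 0 < y by omega)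
    have h2 : (K:ℝ) ^ 2 / y ≤ 1 / 2 := by
      rw [div_le_div_iff₀ hy0 (by norm_num)]
      have : (2 * (K:ℝ) ^ 2) ≤ y := by exact_mod_cast (show 2 * K ^ 2 ≤ y by omega)
      linarith
    linarith
  rw [SP_eq Tb hTbp E, hE, ← hQ] at hSP1
  have hcP := cW_pos hP0
  have hcQ := cW_pos hQ0
  have hQr : (0:ℝ) < Q := by exact_mod_cast hQ0
  have hPr : (0:ℝ) < P := by exact_mod_cast hP0
  have hφQ : (0:ℝ) < (Q.totient : ℝ) := by exact_mod_cast Nat.totient_pos.2 hQ0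
  have hinv : (Q:ℝ) / (Q.totient : ℝ) = 1 / cW Q := by
    unfold cW; rw [one_div_div]
  rw [hinv] at hSP1
  rw [cW_mul hcop]
  set ν : ℝ := ((∏ p ∈ Tb, (p - nu E p) : ℕ) : ℝ) with hν
  have hx : 0 < Real.log N := by linarith
  have e1 : ν * (c * ((N:ℝ) / ((P * Q : ℕ) : ℝ)) / (cW P * cW Q * Real.log N) ^ K) =
      (c * ((N:ℝ) / P) * (1 / (cW P * Real.log N)) ^ K) * ((1 / cW Q) ^ K * (ν / Q)) := by
    push_cast
    rw [mul_pow, mul_pow, div_pow, div_pow, mul_pow, one_pow]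
    field_simp
  rw [e1]
  have e2 : c / 2 * ((N:ℝ) / P) * (1 / (cW P * Real.log N)) ^ K =
      (c * ((N:ℝ) / P) * (1 / (cW P * Real.log N)) ^ K) * (1 / 2) := by ring
  rw [e2]
  exact mul_le_mul_of_nonneg_left hSP1 (by positivity)

end Pool.Agent.HLM26
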