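import Pool.Agent.HLM26.ClassUpper

/-!
# From the number of good tuples to the number of prime tuples, in a residue class
-/

open Filter

namespace Pool.Agent.HLM26

open Pool.Agent.Maynard

open Classical in
lemma card_good_le {K m : ℕ} (G R : Finset ℕ) :
    ((R.powersetCard K).filter (fun E => m ≤ (E.filter (fun e => e ∈ G)).card)).card ≤
      G.card.choose m * R.card.choose (K - m) := by
  have h1 : (R.powersetCard K).filter (fun E => m ≤ (E.filter (fun e => e ∈ G)).card) ⊆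
      ((G.powersetCard m) ×ˢ (R.powersetCard (K - m))).image (fun q => q.1 ∪ q.2) := by
    intro E hE
    rw [Finset.mem_filter, Finset.mem_powersetCard] at hE
    obtain ⟨⟨hER, hEK⟩, hm⟩ := hE
    obtain ⟨F, hF, hFm⟩ := Finset.exists_subset_card_eq hm
    have hFE : F ⊆ E := hF.trans (Finset.filter_subset _ _)
    have hFG : F ⊆ G := fun e he => (Finset.mem_filter.1 (hF he)).2
    rw [Finset.mem_image]
    refine ⟨(F, E \ F), ?_, Finset.union_sdiff_of_subset hFE⟩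
    rw [Finset.mem_product, Finset.mem_powersetCard, Finset.mem_powersetCard]
    refine ⟨⟨hFG, hFm⟩, (Finset.sdiff_subset).trans hER, ?_⟩
    rw [Finset.card_sdiff_of_subset hFE, hEK, hFm]
  refine (Finset.card_le_card h1).trans (Finset.card_image_le.trans (le_of_eq ?_))
  rw [Finset.card_product, Finset.card_powersetCard, Finset.card_powersetCard]

lemma pow_le_choose {R K J : ℕ} (hRK : K ≤ R) :
    (R:ℝ) ^ J ≤ (2 * (J:ℝ)) ^ J * (R.choose K : ℝ) + 2 ^ J * (J.factorial : ℝ) * (R.choose J : ℝ) := by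
  rcases Nat.lt_or_ge R (2 * J) with h | h
  · have h1 : (1:ℝ) ≤ R.choose K := by exact_mod_cast Nat.choose_pos hRK
    have h2 : (R:ℝ) ^ J ≤ (2 * (J:ℝ)) ^ J :=
      pow_le_pow_left₀ (Nat.cast_nonneg _) (by exact_mod_cast h.le) J
    have h3 : (2 * (J:ℝ)) ^ J ≤ (2 * (J:ℝ)) ^ J * (R.choose K : ℝ) :=
      le_mul_of_one_le_right (by positivity) h1
    have h4 : 0 ≤ 2 ^ J * (J.factorial : ℝ) * (R.choose J : ℝ) := by positivity
    linarith
  · have h1 := Nat.pow_sub_le_descFactorial R J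
    rw [Nat.descFactorial_eq_factorial_mul_choose] at h1
    have h2 : (R:ℝ) ≤ 2 * ((R + 1 - J : ℕ) : ℝ) := by exact_mod_cast (by omega : R ≤ 2 * (R + 1 - J))
    have h3 : (((R + 1 - J : ℕ) : ℝ)) ^ J ≤ (J.factorial : ℝ) * (R.choose J : ℝ) := by
      exact_mod_cast h1
    have h4 : 0 ≤ (2 * (J:ℝ)) ^ J * (R.choose K : ℝ) := by positivity
    calc (R:ℝ) ^ J ≤ (2 * ((R + 1 - J : ℕ) : ℝ)) ^ J := pow_le_pow_left₀ (Nat.cast_nonneg _) h2 J
      _ = 2 ^ J * ((R + 1 - J : ℕ) : ℝ) ^ J := mul_pow _ _ _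
      _ ≤ 2 ^ J * ((J.factorial : ℝ) * (R.choose J : ℝ)) := by gcongr
      _ ≤ _ := by linarith

lemma choose_ge {v K : ℕ} (hv : 2 * K ≤ v) :
    (v:ℝ) ^ K / (2 ^ K * (K.factorial : ℝ)) ≤ (v.choose K : ℝ) := by
  have h1 := Nat.pow_sub_le_descFactorial v K
  rw [Nat.descFactorial_eq_factorial_mul_choose] at h1
  have h2 : (v:ℝ) ≤ 2 * ((v + 1 - K : ℕ) : ℝ) := by exact_mod_cast (by omega : v ≤ 2 * (v + 1 - K))
  have h3 : (((v + 1 - K : ℕ) : ℝ)) ^ K ≤ (K.factorial : ℝ) * (v.choose K : ℝ) := by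
    exact_mod_cast h1
  rw [div_le_iff₀ (by positivity)]
  calc (v:ℝ) ^ K ≤ (2 * ((v + 1 - K : ℕ) : ℝ)) ^ K := pow_le_pow_left₀ (Nat.cast_nonneg _) h2 K
    _ = 2 ^ K * ((v + 1 - K : ℕ) : ℝ) ^ K := mul_pow _ _ _
    _ ≤ 2 ^ K * ((K.factorial : ℝ) * (v.choose K : ℝ)) := by gcongr
    _ = _ := by ring

open Classical in
/-- the abstract second moment argument -/
lemma moment_abstract {K m J : ℕ} (hmK : m ≤ K) (hJ : J = 2 * K - m) (S0 V : Finset ℕ)
    (Pq Rg : ℕ → ℕ → Prop) (hPR : ∀ n ∈ S0, ∀ e ∈ V, Pq n e → Rg n e) {L UK UJ : ℝ} (hL0 : 0 ≤ L)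
    (hL : ∀ E ∈ V.powersetCard K,
      L ≤ ((S0.filter (fun n => m ≤ (E.filter (Pq n)).card ∧ ∀ e ∈ E, Rg n e)).card : ℝ))
    (hUK : ∀ E ∈ V.powersetCard K, ((S0.filter (fun n => ∀ e ∈ E, Rg n e)).card : ℝ) ≤ UK)
    (hUJ : ∀ E ∈ V.powersetCard J, ((S0.filter (fun n => ∀ e ∈ E, Rg n e)).card : ℝ) ≤ UJ) :
    ((V.card.choose K : ℝ) * L) ^ 2 ≤ (∑ n ∈ S0, ((V.filter (Pq n)).card.choose m : ℝ)) *
      ((2 * (J:ℝ)) ^ J * ((V.card.choose K : ℝ) * UK) +
        2 ^ J * (J.factorial : ℝ) * ((V.card.choose J : ℝ) * UJ)) := by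
  set Gm : ℕ → Finset ℕ := fun n => V.filter (Pq n) with hGm
  set Rm : ℕ → Finset ℕ := fun n => V.filter (Rg n) with hRm
  set good : ℕ → ℕ := fun n =>
    ((V.powersetCard K).filter (fun E => m ≤ (E.filter (Pq n)).card ∧ ∀ e ∈ E, Rg n e)).card with hgood
  -- first moment
  have hfirst : (V.card.choose K : ℝ) * L ≤ ∑ n ∈ S0, (good n : ℝ) := by
    have h1 : ∑ n ∈ S0, (good n : ℝ) = ∑ E ∈ V.powersetCard K,
        ((S0.filter (fun n => m ≤ (E.filter (Pq n)).card ∧ ∀ e ∈ E, Rg n e)).card : ℝ) := by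
      have h2 : ∑ n ∈ S0, good n = ∑ E ∈ V.powersetCard K,
        (S0.filter (fun n => m ≤ (E.filter (Pq n)).card ∧ ∀ e ∈ E, Rg n e)).card := by
        simp only [hgood, Finset.card_filter]
        rw [Finset.sum_comm]
      exact_mod_cast h2
    rw [h1]
    refine le_trans (le_of_eq ?_) (Finset.sum_le_sum hL)
    rw [Finset.sum_const, Finset.card_powersetCard, nsmul_eq_mul]
  -- pointwise
  have hGR : ∀ n ∈ S0, Gm n ⊆ Rm n := by
    intro n hn e he
    rw [hGm, Finset.mem_filter] at he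
    rw [hRm, Finset.mem_filter]
    exact ⟨he.1, hPR n hn e he.1 he.2⟩
  have hpt : ∀ n ∈ S0, (good n : ℝ) ≤
      ((Gm n).card.choose m : ℝ) * (if K ≤ (Rm n).card then ((Rm n).card.choose (K - m) : ℝ) else 0) := by
    intro n hn
    have hsub : (V.powersetCard K).filter (fun E => m ≤ (E.filter (Pq n)).card ∧ ∀ e ∈ E, Rg n e) ⊆
        ((Rm n).powersetCard K).filter (fun E => m ≤ (E.filter (fun e => e ∈ Gm n)).card) := by
      intro E hE
      rw [Finset.mem_filter, Finset.mem_powersetCard] at hE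
      obtain ⟨⟨hEV, hEK⟩, hm, hR⟩ := hE
      rw [Finset.mem_filter, Finset.mem_powersetCard]
      refine ⟨⟨fun e he => ?_, hEK⟩, ?_⟩
      · rw [hRm, Finset.mem_filter]
        exact ⟨hEV he, hR e he⟩
      · refine hm.trans (Finset.card_le_card fun e he => ?_)
        rw [Finset.mem_filter] at he ⊢
        refine ⟨he.1, ?_⟩
        rw [hGm, Finset.mem_filter]
        exact ⟨hEV he.1, he.2⟩
    have h1 : good n ≤ (Gm n).card.choose m * (Rm n).card.choose (K - m) :=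
      (Finset.card_le_card hsub).trans (card_good_le (Gm n) (Rm n))
    split_ifs with hK
    · exact_mod_cast h1
    · rw [mul_zero]
      have h2 : good n = 0 := by
        have h3 : good n ≤ _ := Finset.card_le_card hsub
        have h4 : ((Rm n).powersetCard K) = ∅ := by
          rw [Finset.powersetCard_eq_empty]
          omega
        rw [h4, Finset.filter_empty, Finset.card_empty] at h3
        omega
      rw [h2]
      simp
  set f : ℕ → ℝ := fun n => ((Gm n).card.choose m : ℝ) with hf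
  set g : ℕ → ℝ := fun n => if K ≤ (Rm n).card then ((Rm n).card.choose (K - m) : ℝ) else 0 with hg
  have hf0 : ∀ n, 0 ≤ f n := fun n => Nat.cast_nonneg _
  have hg0 : ∀ n, 0 ≤ g n := fun n => by simp only [hg]; split_ifs <;> positivity
  have hCS : (∑ n ∈ S0, f n * g n) ^ 2 ≤ (∑ n ∈ S0, f n) * ∑ n ∈ S0, f n * g n ^ 2 := by
    have h1 := Finset.sum_mul_sq_le_sq_mul_sq S0 (fun n => Real.sqrt (f n))
      (fun n => Real.sqrt (f n) * g n)
    have e1 : ∀ n ∈ S0, Real.sqrt (f n) * (Real.sqrt (f n) * g n) = f n * g n := by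
      intro n _
      rw [← mul_assoc, Real.mul_self_sqrt (hf0 n)]
    have e2 : ∀ n ∈ S0, Real.sqrt (f n) ^ 2 = f n := fun n _ => Real.sq_sqrt (hf0 n)
    have e3 : ∀ n ∈ S0, (Real.sqrt (f n) * g n) ^ 2 = f n * g n ^ 2 := by
      intro n _
      rw [mul_pow, Real.sq_sqrt (hf0 n)]
    rw [Finset.sum_congr rfl e1, Finset.sum_congr rfl e2, Finset.sum_congr rfl e3] at h1
    exact h1
  have hsecond : ∑ n ∈ S0, f n * g n ^ 2 ≤
      (2 * (J:ℝ)) ^ J * ((V.card.choose K : ℝ) * UK) +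
        2 ^ J * (J.factorial : ℝ) * ((V.card.choose J : ℝ) * UJ) := by
    have h1 : ∀ n ∈ S0, f n * g n ^ 2 ≤ (2 * (J:ℝ)) ^ J * ((Rm n).card.choose K : ℝ) +
        2 ^ J * (J.factorial : ℝ) * ((Rm n).card.choose J : ℝ) := by
      intro n hn
      simp only [hg, hf]
      split_ifs with hK
      · have h2 := pow_le_choose (J := J) hK
        refine le_trans ?_ h2
        have h3 : ((Gm n).card.choose m : ℝ) ≤ ((Rm n).card : ℝ) ^ m := by
          have h4 : (Gm n).card.choose m ≤ (Rm n).card.choose m :=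
            Nat.choose_le_choose m (Finset.card_le_card (hGR n hn))
          have h5 : (Rm n).card.choose m ≤ (Rm n).card ^ m := Nat.choose_le_pow _ _
          exact_mod_cast h4.trans h5
        have h4 : ((Rm n).card.choose (K - m) : ℝ) ≤ ((Rm n).card : ℝ) ^ (K - m) := by
          exact_mod_cast Nat.choose_le_pow _ _
        calc ((Gm n).card.choose m : ℝ) * ((Rm n).card.choose (K - m) : ℝ) ^ 2
            ≤ ((Rm n).card : ℝ) ^ m * (((Rm n).card : ℝ) ^ (K - m)) ^ 2 := by gcongr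
          _ = ((Rm n).card : ℝ) ^ J := by
              rw [← pow_mul, ← pow_add]
              congr 1
              omega
      · simp only [ne_eq, OfNat.ofNat_ne_zero, not_false_eq_true, zero_pow, mul_zero]
        positivity
    have h2 : ∀ j : ℕ, ∀ U : ℝ, (∀ E ∈ V.powersetCard j,
        ((S0.filter (fun n => ∀ e ∈ E, Rg n e)).card : ℝ) ≤ U) →
        ∑ n ∈ S0, ((Rm n).card.choose j : ℝ) ≤ (V.card.choose j : ℝ) * U := by
      intro j U hU
      have h3 := HL26.sum_choose_eq S0 V Rg j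
      have h4 : ∑ n ∈ S0, ((Rm n).card.choose j : ℝ) =
          ∑ E ∈ V.powersetCard j, ((S0.filter (fun n => ∀ e ∈ E, Rg n e)).card : ℝ) := by
        exact_mod_cast h3
      rw [h4]
      refine (Finset.sum_le_sum hU).trans (le_of_eq ?_)
      rw [Finset.sum_const, Finset.card_powersetCard, nsmul_eq_mul]
    refine (Finset.sum_le_sum h1).trans ?_
    rw [Finset.sum_add_distrib, ← Finset.mul_sum, ← Finset.mul_sum]
    exact add_le_add (mul_le_mul_of_nonneg_left (h2 K UK hUK) (by positivity))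
      (mul_le_mul_of_nonneg_left (h2 J UJ hUJ) (by positivity))
  have h0 : 0 ≤ (V.card.choose K : ℝ) * L := by positivity
  calc ((V.card.choose K : ℝ) * L) ^ 2 ≤ (∑ n ∈ S0, f n * g n) ^ 2 :=
        pow_le_pow_left₀ h0 (hfirst.trans (Finset.sum_le_sum hpt)) 2
    _ ≤ (∑ n ∈ S0, f n) * ∑ n ∈ S0, f n * g n ^ 2 := hCS
    _ ≤ _ := mul_le_mul_of_nonneg_left hsecond (Finset.sum_nonneg fun n _ => hf0 n)

lemma min_pow_le {μ : ℝ} (hμ : 0 < μ) {K m J : ℕ} (hmK : m ≤ K) (hJ : J = 2 * K - m) :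
    μ ^ m * (min μ 1) ^ (K - m) * (μ ^ K + μ ^ J) ≤ 2 * μ ^ (2 * K) := by
  have h0 : 0 < min μ 1 := lt_min hμ one_pos
  have h1 : (min μ 1) ^ (K - m) ≤ μ ^ (K - m) := pow_le_pow_left₀ h0.le (min_le_left _ _) _
  have h2 : (min μ 1) ^ (K - m) ≤ 1 := pow_le_one₀ h0.le (min_le_right _ _)
  have e1 : μ ^ m * μ ^ (K - m) * μ ^ K = μ ^ (2 * K) := by
    rw [← pow_add, ← pow_add]; congr 1; omega
  have e2 : μ ^ m * 1 * μ ^ J = μ ^ (2 * K) := by
    rw [mul_one, ← pow_add]; congr 1; omega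
  have h3 : μ ^ m * (min μ 1) ^ (K - m) * μ ^ K ≤ μ ^ (2 * K) := by
    rw [← e1]
    gcongr
  have h4 : μ ^ m * (min μ 1) ^ (K - m) * μ ^ J ≤ μ ^ (2 * K) := by
    rw [← e2]
    gcongr
  rw [mul_add]
  linarith

open Classical in
/-- Lower bound for the number of `m`-tuples of primes in a residue class modulo a primorial. -/
theorem class_moment (m : ℕ) (hm : 1 ≤ m) : ∃ (K y0 : ℕ) (c : ℝ), m ≤ K ∧ 0 < c ∧
    ∀ A : ℕ, ∀ᶠ N : ℕ in atTop, ∀ y H : ℕ, y0 ≤ y → (y:ℝ) ≤ Real.log N →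
    (Pr y : ℝ) ≤ (Real.log N) ^ A → 1 ≤ H → (H : ℝ) ≤ (Real.log N) ^ A →
    (2 * (K:ℝ)) ^ 3 * Real.log H / (y * Real.log y) ≤ 1 →
    ∀ V : Finset ℕ, 2 * K ≤ V.card → (∀ b ∈ V, b ≤ H) →
    ∀ a : ℕ, (∀ b ∈ V, (a + b).Coprime (Pr y)) →
      c * ((N:ℝ) / Pr y) * (V.card * (1 / (cW (Pr y) * Real.log N))) ^ m *
        (min (V.card * (1 / (cW (Pr y) * Real.log N))) 1) ^ (K - m) ≤
        ∑ n ∈ (Finset.Ioc N (2 * N)).filter (fun n => n ≡ a [MOD Pr y]),
          ((V.filter (fun b => (n + b).Prime)).card.choose m : ℝ) := by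
  obtain ⟨K, y0, c, ρ, hmK, hK2, hc, hρ0, hρ8, hlow⟩ := class_lower m
  set J := 2 * K - m with hJ
  have hJ1 : 1 ≤ J := by omega
  obtain ⟨CK, hCK, hupK⟩ := class_upper K (by omega) hρ0
  obtain ⟨CJ, hCJ, hupJ⟩ := class_upper J hJ1 hρ0
  set D : ℝ := (2 * (J:ℝ)) ^ J * CK + 2 ^ J * (J.factorial : ℝ) * CJ with hD
  have hJr : (0:ℝ) < J := by exact_mod_cast hJ1
  have hD0 : 0 < D := by positivity
  set c1 : ℝ := c / (2 ^ K * (K.factorial : ℝ)) with hc1
  have hc10 : 0 < c1 := by positivity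
  refine ⟨K, max y0 (2 * K + 1), c1 ^ 2 / (2 * D), hmK, by positivity, fun A => ?_⟩
  filter_upwards [hlow A, hupK A, hupJ A, ev_log_ge 1, eventually_ge_atTop 3]
    with N hlowN hupKN hupJN hlog1 hN3 y H hy hyN hP hH1 hH htail V hV hVH a ha
  set P := Pr y with hPdef
  have hP0 : 0 < P := Pr_pos y
  have hPr : (0:ℝ) < P := by exact_mod_cast hP0
  have hcP := cW_pos hP0
  have hN0 : (0:ℝ) < N := by exact_mod_cast (show 0 < N by omega)
  have hN1 : (1:ℝ) ≤ N := by exact_mod_cast (show 1 ≤ N by omega)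
  have hlog0 : 0 < Real.log N := by linarith
  have hyK : 2 * K + 1 ≤ y := (le_max_right _ _).trans hy
  have hlogH : 0 ≤ Real.log H := Real.log_nonneg (by exact_mod_cast hH1)
  have hylog : 0 < (y:ℝ) * Real.log y := by
    have h1 : (1:ℝ) < y := by exact_mod_cast (by omega : 1 < y)
    have := Real.log_pos h1
    positivity
  have htail' : ∀ j : ℕ, j ≤ 2 * K → (j:ℝ) ^ 3 * Real.log H / (y * Real.log y) ≤ 1 := by
    intro j hj
    refine le_trans ?_ htail
    refine div_le_div_of_nonneg_right ?_ hylog.le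
    refine mul_le_mul_of_nonneg_right ?_ hlogH
    refine pow_le_pow_left₀ (Nat.cast_nonneg _) ?_ 3
    exact_mod_cast hj
  set U : ℝ := 1 / (cW P * Real.log N) with hU
  have hU0 : 0 < U := by positivity
  set X0 : ℝ := (N:ℝ) / P with hX0
  have hX00 : 0 < X0 := by positivity
  set S0 := (Finset.Ioc N (2 * N)).filter (fun n => n ≡ a [MOD P]) with hS0
  set Rg : ℕ → ℕ → Prop := fun n e => ∀ p : ℕ, p.Prime → p ∣ n + e → (N:ℝ) ^ ρ < p with hRg
  have hz : (N:ℝ) ^ ρ ≤ N := by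
    calc (N:ℝ) ^ ρ ≤ (N:ℝ) ^ (1:ℝ) := Real.rpow_le_rpow_of_exponent_le hN1 (by linarith)
      _ = N := Real.rpow_one _
  have hmom := moment_abstract hmK hJ S0 V (fun n e => (n + e).Prime) Rg (by
      intro n hn e _ hpr p hp hpn
      have h1 : p = n + e := (Nat.prime_dvd_prime_iff_eq hp hpr).1 hpn
      have h2 := (Finset.mem_Ioc.1 (Finset.mem_filter.1 hn).1).1
      refine lt_of_le_of_lt hz ?_
      rw [h1]
      exact_mod_cast (by omega : N < n + e)) (L := c * X0 * U ^ K) (UK := CK * X0 * U ^ K)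
    (UJ := CJ * X0 * U ^ J) (by positivity) (by
      intro E hE
      rw [Finset.mem_powersetCard] at hE
      refine (hlowN y H ((le_max_left _ _).trans hy) hP hH E hE.2 (fun e he => hVH e (hE.1 he)) a
        (fun e he => ha e (hE.1 he))).trans (le_of_eq ?_)
      rw [hS0, Finset.filter_filter]
      congr 2
      refine Finset.filter_congr fun n _ => ?_
      unfold GoodE
      refine and_congr Iff.rfl (and_congr ?_ Iff.rfl)
      have h1 : (E.filter (fun e => (n + e).Prime)).card =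
          (@Finset.filter ℕ (fun e => (n + e).Prime) (fun _ => Classical.propDecidable _) E).card := by
        congr!
      rw [h1]) (by
      intro E hE
      rw [Finset.mem_powersetCard] at hE
      refine le_trans (le_of_eq ?_) (hupKN y H (by omega) hyN hP hH1 (htail' K (by omega)) E hE.2
        (fun e he => hVH e (hE.1 he)) a)
      rw [hS0, Finset.filter_filter]) (by
      intro E hE
      rw [Finset.mem_powersetCard] at hE
      refine le_trans (le_of_eq ?_) (hupJN y H (by omega) hyN hP hH1 (htail' J (by omega)) E hE.2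
        (fun e he => hVH e (hE.1 he)) a)
      rw [hS0, Finset.filter_filter])
  set T1 := ∑ n ∈ S0, ((V.filter (fun e => (n + e).Prime)).card.choose m : ℝ) with hT1
  set v : ℝ := (V.card : ℝ) with hv
  have hv0 : 0 < v := by
    rw [hv]; exact_mod_cast (by omega : 0 < V.card)
  set μ : ℝ := v * U with hμ
  have hμ0 : 0 < μ := by positivity
  have hlhs : (c1 * X0 * μ ^ K) ^ 2 ≤ ((V.card.choose K : ℝ) * (c * X0 * U ^ K)) ^ 2 := by
    refine pow_le_pow_left₀ (by positivity) ?_ 2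
    have h1 := choose_ge (K := K) hV
    have e1 : c1 * X0 * μ ^ K = (v ^ K / (2 ^ K * (K.factorial : ℝ))) * (c * X0 * U ^ K) := by
      rw [hc1, hμ, mul_pow]
      ring
    rw [e1]
    exact mul_le_mul_of_nonneg_right h1 (by positivity)
  have hch : ∀ j : ℕ, (V.card.choose j : ℝ) ≤ v ^ j := by
    intro j
    rw [hv]
    exact_mod_cast Nat.choose_le_pow _ _
  have hT10 : 0 ≤ T1 := Finset.sum_nonneg fun n _ => Nat.cast_nonneg _
  have hrhs : (2 * (J:ℝ)) ^ J * ((V.card.choose K : ℝ) * (CK * X0 * U ^ K)) +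
        2 ^ J * (J.factorial : ℝ) * ((V.card.choose J : ℝ) * (CJ * X0 * U ^ J)) ≤
      D * X0 * (μ ^ K + μ ^ J) := by
    have h1 : (V.card.choose K : ℝ) * (CK * X0 * U ^ K) ≤ CK * X0 * μ ^ K := by
      rw [hμ, mul_pow]
      calc (V.card.choose K : ℝ) * (CK * X0 * U ^ K) ≤ v ^ K * (CK * X0 * U ^ K) :=
            mul_le_mul_of_nonneg_right (hch K) (by positivity)
        _ = _ := by ring
    have h2 : (V.card.choose J : ℝ) * (CJ * X0 * U ^ J) ≤ CJ * X0 * μ ^ J := by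
      rw [hμ, mul_pow]
      calc (V.card.choose J : ℝ) * (CJ * X0 * U ^ J) ≤ v ^ J * (CJ * X0 * U ^ J) :=
            mul_le_mul_of_nonneg_right (hch J) (by positivity)
        _ = _ := by ring
    have h3 := mul_le_mul_of_nonneg_left h1 (show 0 ≤ (2 * (J:ℝ)) ^ J by positivity)
    have h4 := mul_le_mul_of_nonneg_left h2 (show 0 ≤ 2 ^ J * (J.factorial : ℝ) by positivity)
    have h5 : 0 ≤ (2 * (J:ℝ)) ^ J * CK * X0 * μ ^ J := by positivity
    have h6 : 0 ≤ 2 ^ J * (J.factorial : ℝ) * CJ * X0 * μ ^ K := by positivity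
    rw [hD]
    linarith only [h3, h4, h5, h6]
  have hmom' : ((V.card.choose K : ℝ) * (c * X0 * U ^ K)) ^ 2 ≤ T1 *
      ((2 * (J:ℝ)) ^ J * ((V.card.choose K : ℝ) * (CK * X0 * U ^ K)) +
        2 ^ J * (J.factorial : ℝ) * ((V.card.choose J : ℝ) * (CJ * X0 * U ^ J))) := by
    refine hmom.trans (le_of_eq ?_)
    congr 1
    refine Finset.sum_congr rfl fun n _ => ?_
    congr!
  have hchain : (c1 * X0 * μ ^ K) ^ 2 ≤ T1 * (D * X0 * (μ ^ K + μ ^ J)) :=
    hlhs.trans (hmom'.trans (mul_le_mul_of_nonneg_left hrhs hT10))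
  have hmin := min_pow_le hμ0 hmK hJ
  set Y := μ ^ m * (min μ 1) ^ (K - m) with hY
  have hs0 : 0 < μ ^ K + μ ^ J := by positivity
  have hfin : (c1 ^ 2 / 2 * X0 * Y) * (X0 * (μ ^ K + μ ^ J)) ≤ (T1 * D) * (X0 * (μ ^ K + μ ^ J)) := by
    calc (c1 ^ 2 / 2 * X0 * Y) * (X0 * (μ ^ K + μ ^ J)) = c1 ^ 2 / 2 * X0 ^ 2 * (Y * (μ ^ K + μ ^ J)) := by ring
      _ ≤ c1 ^ 2 / 2 * X0 ^ 2 * (2 * μ ^ (2 * K)) := mul_le_mul_of_nonneg_left hmin (by positivity)
      _ = (c1 * X0 * μ ^ K) ^ 2 := by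
          rw [mul_pow, mul_pow, ← pow_mul, mul_comm K 2]
          ring
      _ ≤ _ := hchain
      _ = _ := by ring
  have hfin2 := le_of_mul_le_mul_right hfin (by positivity)
  have e2 : c1 ^ 2 / (2 * D) * X0 * μ ^ m * (min μ 1) ^ (K - m) = (c1 ^ 2 / 2 * X0 * Y) / D := by
    rw [hY]
    field_simp
  rw [e2, div_le_iff₀ hD0]
  exact hfin2

end Pool.Agent.HLM26
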