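import Pool.Agent.HLM26.SieveClass

/-!
# Upper bound for rough tuples in a residue class modulo a primorial
-/

open Filter

namespace Pool.Agent.HLM26

open Pool.Agent.Maynard

open Classical in
theorem class_upper (J : ℕ) (hJ : 1 ≤ J) {ρ : ℝ} (hρ0 : 0 < ρ) : ∃ C : ℝ, 0 < C ∧ ∀ A : ℕ,
    ∀ᶠ N : ℕ in atTop, ∀ y H : ℕ, J < y → (y:ℝ) ≤ Real.log N → (Pr y : ℝ) ≤ (Real.log N) ^ A →
      1 ≤ H → (J:ℝ) ^ 3 * Real.log H / (y * Real.log y) ≤ 1 →
      ∀ E : Finset ℕ, E.card = J → (∀ e ∈ E, e ≤ H) → ∀ a : ℕ,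
      (((Finset.Ioc N (2 * N)).filter (fun n => n ≡ a [MOD Pr y] ∧
        ∀ e ∈ E, ∀ p : ℕ, p.Prime → p ∣ n + e → (N:ℝ) ^ ρ < p)).card : ℝ) ≤
      C * ((N:ℝ) / Pr y) * (1 / (cW (Pr y) * Real.log N)) ^ J := by
  set t : ℕ := (8 * J + 2) * (2 * J + 1) with ht
  have ht1 : 1 ≤ t := by rw [ht]; nlinarith
  have htr : (1:ℝ) ≤ t := by exact_mod_cast ht1
  set θ : ℝ := min ρ (1 / (2 * t)) with hθ
  have hθ0 : 0 < θ := by
    rw [hθ]; exact lt_min hρ0 (by positivity)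
  have hθρ : θ ≤ ρ := min_le_left _ _
  have hθt : θ * t ≤ 1 / 2 := by
    have h1 : θ ≤ 1 / (2 * t) := min_le_right _ _
    calc θ * t ≤ 1 / (2 * t) * t := mul_le_mul_of_nonneg_right h1 (by linarith)
      _ = 1 / 2 := by field_simp
  refine ⟨6 * Real.exp 1 * (2 / θ) ^ J + 1, by positivity, fun A => ?_⟩
  filter_upwards [ev_rpow_ge (s := θ) hθ0 8, ev_log_pow_le (s := θ / 2) (by positivity) 1,
    ev_rpow_ge (s := θ / 2) (by positivity) 2, ev_log_ge (2 * Real.log 2 / θ), ev_log_ge 1,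
    ev_log_pow_le (s := 1 / 2) (by norm_num) (A + J), ev_log_pow_le (s := 1) (by norm_num) A,
    eventually_ge_atTop 3]
    with N h8 hlogθ hθ2 hlog2 hlog1 hAJ hA1 hN3 y H hJy hyN hP hH htail E hE hEH a
  set P := Pr y with hPdef
  have hP0 : 0 < P := Pr_pos y
  have hPr : (0:ℝ) < P := by exact_mod_cast hP0
  have hcP := cW_pos hP0
  have hcP1 := cW_le_one P
  have hN0 : (0:ℝ) < N := by exact_mod_cast (show 0 < N by omega)
  have hN1 : (1:ℝ) ≤ N := by exact_mod_cast (show 1 ≤ N by omega)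
  set x := Real.log N with hx
  have hx0 : 0 < x := by linarith
  set w := ⌊(N:ℝ) ^ θ⌋₊ with hw
  have hwle : (w : ℝ) ≤ (N:ℝ) ^ θ := Nat.floor_le (by positivity)
  have hwge : (N:ℝ) ^ θ / 2 ≤ w := by
    have := Nat.lt_floor_add_one ((N:ℝ) ^ θ)
    rw [← hw] at this
    linarith
  have hw4 : 4 ≤ w := by
    have : (4:ℝ) ≤ w := by linarith
    exact_mod_cast this
  have hw0 : (0:ℝ) < w := by exact_mod_cast (show 0 < w by omega)
  have hyw : y ≤ w := by
    have h1 : x ≤ (N:ℝ) ^ θ / 2 := by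
      rw [pow_one] at hlogθ
      have h2 : (N:ℝ) ^ θ = (N:ℝ) ^ (θ / 2) * (N:ℝ) ^ (θ / 2) := by
        rw [← Real.rpow_add hN0]
        congr 1
        ring
      rw [h2]
      nlinarith
    have : (y:ℝ) ≤ w := by linarith
    exact_mod_cast this
  have hlogw : θ / 2 * x ≤ Real.log w := by
    have e1 : Real.log ((N:ℝ) ^ θ / 2) ≤ Real.log w := Real.log_le_log (by positivity) hwge
    rw [Real.log_div (by positivity) (by norm_num), Real.log_rpow hN0] at e1
    rw [div_le_iff₀ hθ0] at hlog2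
    linarith
  have hsieve := sieve_class J hJ w y hw4 hJy hyw N H a E hE hH hEH
  have hsub : (((Finset.Ioc N (2 * N)).filter (fun n => n ≡ a [MOD P] ∧
        ∀ e ∈ E, ∀ p : ℕ, p.Prime → p ∣ n + e → (N:ℝ) ^ ρ < p)).card : ℝ) ≤
      (((Finset.Ioc N (2 * N)).filter (fun n => n ≡ a [MOD P] ∧
        ∀ e ∈ E, ∀ p : ℕ, p.Prime → p ∣ n + e → w < p)).card : ℝ) := by
    refine Nat.cast_le.2 (Finset.card_le_card fun n hn => ?_)
    rw [Finset.mem_filter] at hn ⊢
    refine ⟨hn.1, hn.2.1, fun e he p hp hpn => ?_⟩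
    have h1 := hn.2.2 e he p hp hpn
    have h2 : (w:ℝ) < p := by
      refine lt_of_le_of_lt (hwle.trans ?_) h1
      exact Real.rpow_le_rpow_of_exponent_le hN1 hθρ
    exact_mod_cast h2
  refine hsub.trans (hsieve.trans ?_)
  have hNP : 1 ≤ (N:ℝ) / P := by
    rw [le_div_iff₀ hPr, one_mul]
    rw [Real.rpow_one] at hA1
    exact hP.trans hA1
  have hlx : 0 < θ / 2 * x := by positivity
  have e1 : (1 / (cW P * Real.log w)) ^ J ≤ (2 / θ) ^ J * (1 / (cW P * x)) ^ J := by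
    rw [← mul_pow]
    refine pow_le_pow_left₀ (by have : 0 < Real.log w := by linarith
                                positivity) ?_ J
    have e2 : 2 / θ * (1 / (cW P * x)) = 1 / (cW P * (θ / 2 * x)) := by field_simp
    rw [e2]
    refine one_div_le_one_div_of_le (by positivity) ?_
    exact mul_le_mul_of_nonneg_left hlogw hcP.le
  have e3 : Real.exp ((J:ℝ) ^ 3 * Real.log H / (y * Real.log y)) ≤ Real.exp 1 :=
    Real.exp_le_exp.2 htail
  have e4 : ((w : ℝ) ^ (8 * J + 2)) ^ (2 * J + 1) ≤ (N:ℝ) ^ ((1:ℝ) / 2) := by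
    rw [← pow_mul, ← ht]
    calc (w : ℝ) ^ t ≤ ((N:ℝ) ^ θ) ^ t := pow_le_pow_left₀ hw0.le hwle t
      _ = (N:ℝ) ^ (θ * t) := by rw [← Real.rpow_natCast, ← Real.rpow_mul hN0.le]
      _ ≤ _ := Real.rpow_le_rpow_of_exponent_le hN1 hθt
  have e5 : (N:ℝ) ^ ((1:ℝ) / 2) ≤ (N:ℝ) / P * (1 / (cW P * x)) ^ J := by
    have h1 : (N:ℝ) / x ^ (A + J) ≤ (N:ℝ) / P * (1 / (cW P * x)) ^ J := by
      rw [pow_add, ← div_div, div_eq_mul_one_div ((N:ℝ) / x ^ A) (x ^ J)]
      refine mul_le_mul ?_ ?_ (by positivity) (by positivity)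
      · exact div_le_div_of_nonneg_left hN0.le hPr hP
      · rw [one_div_pow]
        refine one_div_le_one_div_of_le (by positivity) ?_
        refine pow_le_pow_left₀ (by positivity) ?_ J
        exact mul_le_of_le_one_left hx0.le hcP1
    refine le_trans ?_ h1
    rw [le_div_iff₀ (by positivity)]
    calc (N:ℝ) ^ ((1:ℝ) / 2) * x ^ (A + J) ≤ (N:ℝ) ^ ((1:ℝ) / 2) * (N:ℝ) ^ ((1:ℝ) / 2) :=
          mul_le_mul_of_nonneg_left hAJ (by positivity)
      _ = N := by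
          rw [← Real.rpow_add hN0]
          norm_num
  set U := (1 / (cW P * x)) ^ J with hU
  have hU0 : 0 < U := by positivity
  calc 2 * Real.exp ((J:ℝ) ^ 3 * Real.log H / (y * Real.log y)) * ((N:ℝ) / P + 2) *
        (1 / (cW P * Real.log w)) ^ J + ((w : ℝ) ^ (8 * J + 2)) ^ (2 * J + 1)
      ≤ 2 * Real.exp 1 * (3 * ((N:ℝ) / P)) * ((2 / θ) ^ J * U) + (N:ℝ) / P * U := by
        refine add_le_add ?_ (e4.trans e5)
        have h0 : 0 ≤ (1 / (cW P * Real.log w)) ^ J := by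
          have : 0 < Real.log w := by linarith
          positivity
        refine mul_le_mul ?_ e1 h0 (by positivity)
        refine mul_le_mul ?_ (by linarith) (by positivity) (by positivity)
        linarith
    _ = (6 * Real.exp 1 * (2 / θ) ^ J + 1) * ((N:ℝ) / P) * U := by ring

end Pool.Agent.HLM26
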