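import Pool.Agent.HLM26.Local

/-!
# Numerical form of the bound for the integers with a small prime factor
-/


namespace Pool.Agent.HLM26

open Pool.Agent.Maynard

variable {P : Finset ℕ} {k W K0 R Z T : ℕ}

lemma prod_up (hS : Setting P W K0 R) (hK0 : 16 ≤ K0) :
    ∏ p ∈ P, (1 + (2 * (p:ℝ) - 1) / ((p:ℝ) * ((p:ℝ) - 1) ^ 2)) ≤ 1 + 32 / (K0:ℝ) := by
  have hK : (16:ℝ) ≤ K0 := by exact_mod_cast hK0
  have := prod_le_of_sq (P := P) (K0 := K0) (by omega) hS.ge
      (fun p => (2 * (p:ℝ) - 1) / ((p:ℝ) * ((p:ℝ) - 1) ^ 2)) (C := 8) (by norm_num)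
      (fun p hp => ?_) (fun p hp => ?_) ?_
  · refine this.trans (le_of_eq ?_)
    ring
  · have : (2:ℝ) ≤ p := by exact_mod_cast (hS.prime p hp).two_le
    apply div_nonneg
    · linarith
    · positivity
  · have h2 : (2:ℝ) ≤ p := by exact_mod_cast (hS.prime p hp).two_le
    have h3 : 0 < (p:ℝ) - 1 := by linarith
    rw [div_le_div_iff₀ (by positivity) (by positivity)]
    nlinarith [mul_pos (show (0:ℝ) < p by linarith) h3, sq_nonneg ((p:ℝ) - 2)]
  · rw [div_le_one (by linarith)]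
    linarith

lemma Ac_le (hS : Setting P W K0 R) (hW : 0 < W) (hK0 : 16 ≤ K0) (hZ : 2 ≤ Z) {p0 : ℕ}
    (hp0 : 2 ≤ p0) (hp0Z : p0 ≤ Z) :
    Ac P Z T p0 ≤ gT2 T * ((cW W * (2 * Real.log p0) + KV W) * (1 + 32 / K0)) := by
  classical
  have hP0 : ∀ p ∈ P, 0 < p := fun p hp => (hS.prime p hp).pos
  have h1 : Ac P Z T p0 ≤ ∑ j ∈ Finset.range T, (1 / ((j:ℝ) + 1)) ^ 2 *
      ∑ B : P → Bool, (if Z ^ (j + 1) / p0 ≤ val B ∧ val B < Z ^ (j + 1) then pm aup B else 0) := by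
    unfold Ac
    simp_rw [Finset.mul_sum]
    rw [Finset.sum_comm]
    refine Finset.sum_le_sum fun B _ => ?_
    have hpm : 0 ≤ pm (P := P) aup B := pm_nonneg (fun p _ => aup_nonneg p) B
    have hR : 0 ≤ ∑ j ∈ Finset.range T, (1 / ((j:ℝ) + 1)) ^ 2 *
        (if Z ^ (j + 1) / p0 ≤ val B ∧ val B < Z ^ (j + 1) then pm aup B else 0) := by
      refine Finset.sum_nonneg fun j _ => mul_nonneg (by positivity) ?_
      split_ifs
      · exact hpm
      · exact le_rfl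
    by_cases hT : Nat.log Z (val B) < T
    · by_cases hc : Nat.log Z (val B * p0) = Nat.log Z (val B)
      · unfold cr
        rw [if_pos hc, mul_zero, zero_mul]
        exact hR
      · have hv : 0 < val B := val_pos hP0 B
        have h2 : Nat.log Z (val B) ≤ Nat.log Z (val B * p0) :=
          Nat.log_mono_right (Nat.le_mul_of_pos_right _ (by omega))
        have h3 : Nat.log Z (val B) + 1 ≤ Nat.log Z (val B * p0) := by omega
        have h4 : Z ^ (Nat.log Z (val B) + 1) ≤ val B * p0 := by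
          refine (Nat.pow_le_pow_right (by omega) h3).trans ?_
          exact Nat.pow_log_le_self Z (by positivity)
        have h5 : Z ^ (Nat.log Z (val B) + 1) / p0 ≤ val B :=
          Nat.div_le_of_le_mul (by rw [mul_comm]; exact h4)
        have h6 : val B < Z ^ (Nat.log Z (val B) + 1) := Nat.lt_pow_succ_log_self (by omega) _
        have h7 := Finset.single_le_sum (f := fun j : ℕ => (1 / ((j:ℝ) + 1)) ^ 2 *
          (if Z ^ (j + 1) / p0 ≤ val B ∧ val B < Z ^ (j + 1) then pm (P := P) aup B else 0))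
          (fun j _ => by
            refine mul_nonneg (by positivity) ?_
            split_ifs
            · exact hpm
            · exact le_rfl) (Finset.mem_range.2 hT)
        refine le_trans (le_of_eq ?_) h7
        rw [if_pos ⟨h5, h6⟩]
        unfold cr
        rw [if_neg hc, mul_one, gz_eq_ite, if_pos hT]
    · have : gz Z T (val B) = 0 := by rw [gz_eq_ite, if_neg hT]
      rw [this]
      simp only [ne_eq, OfNat.ofNat_ne_zero, not_false_eq_true, zero_pow, zero_mul]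
      exact hR
  refine h1.trans ?_
  unfold gT2
  rw [Finset.sum_mul]
  refine Finset.sum_le_sum fun j _ => mul_le_mul_of_nonneg_left ?_ (by positivity)
  have hb : Z ≤ Z ^ (j + 1) := Nat.le_self_pow (by omega) Z
  have ha : 0 < Z ^ (j + 1) / p0 := Nat.div_pos (hp0Z.trans hb) (by omega)
  have hab : Z ^ (j + 1) / p0 < Z ^ (j + 1) := Nat.div_lt_self (by omega) (by omega)
  have h2 := cell_upper (P := P) hW hS.prime hS.ndvd ha hab
  refine h2.trans ?_
  have hlog : Real.log (((Z ^ (j + 1) : ℕ) : ℝ) / ((Z ^ (j + 1) / p0 : ℕ) : ℝ)) ≤ 2 * Real.log p0 := by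
    have hp0r : (2:ℝ) ≤ p0 := by exact_mod_cast hp0
    have har : (1:ℝ) ≤ ((Z ^ (j + 1) / p0 : ℕ) : ℝ) := by exact_mod_cast ha
    have hbr : (0:ℝ) < ((Z ^ (j + 1) : ℕ) : ℝ) := by
      have : 0 < Z ^ (j + 1) := by omega
      exact_mod_cast this
    have h3 : ((Z ^ (j + 1) : ℕ) : ℝ) ≤ 2 * p0 * ((Z ^ (j + 1) / p0 : ℕ) : ℝ) := by
      have h4 := Nat.lt_succ_iff.1 (Nat.lt_succ_of_lt (Nat.lt_mul_div_succ (Z ^ (j + 1)) (show 0 < p0 by omega)))
      have h5 : ((Z ^ (j + 1) : ℕ) : ℝ) ≤ p0 * (((Z ^ (j + 1) / p0 : ℕ) : ℝ) + 1) := by exact_mod_cast h4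
      nlinarith
    have h4 : ((Z ^ (j + 1) : ℕ) : ℝ) / ((Z ^ (j + 1) / p0 : ℕ) : ℝ) ≤ (p0:ℝ) ^ 2 := by
      rw [div_le_iff₀ (by linarith)]
      nlinarith
    refine (Real.log_le_log (by positivity) h4).trans (le_of_eq ?_)
    rw [Real.log_pow]
    norm_num
  have hcW := cW_nonneg W
  have hKV := KV_pos hW
  have hp0l : 0 ≤ Real.log p0 := Real.log_natCast_nonneg _
  have h5 := prod_up hS hK0
  have h6 : cW W * Real.log (((Z ^ (j + 1) : ℕ) : ℝ) / ((Z ^ (j + 1) / p0 : ℕ) : ℝ)) + KV W ≤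
      cW W * (2 * Real.log p0) + KV W := by
    have := mul_le_mul_of_nonneg_left hlog hcW
    linarith
  have h7 : 0 ≤ ∏ p ∈ P, (1 + (2 * (p:ℝ) - 1) / ((p:ℝ) * ((p:ℝ) - 1) ^ 2)) := by
    refine Finset.prod_nonneg fun p hp => ?_
    have : (2:ℝ) ≤ p := by exact_mod_cast (hS.prime p hp).two_le
    have : 0 ≤ (2 * (p:ℝ) - 1) / ((p:ℝ) * ((p:ℝ) - 1) ^ 2) := by
      apply div_nonneg
      · linarith
      · positivity
    linarith
  calc (cW W * Real.log (((Z ^ (j + 1) : ℕ) : ℝ) / ((Z ^ (j + 1) / p0 : ℕ) : ℝ)) + KV W) *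
        ∏ p ∈ P, (1 + (2 * (p:ℝ) - 1) / ((p:ℝ) * ((p:ℝ) - 1) ^ 2))
      ≤ (cW W * (2 * Real.log p0) + KV W) *
        ∏ p ∈ P, (1 + (2 * (p:ℝ) - 1) / ((p:ℝ) * ((p:ℝ) - 1) ^ 2)) :=
        mul_le_mul_of_nonneg_right h6 h7
    _ ≤ _ := mul_le_mul_of_nonneg_left h5 (by positivity)

/-- The numerical form. -/
theorem EG_point_num (hS : Setting P W K0 R) (hW : 0 < W) (hk : 2 ≤ k) (hT1 : 1 ≤ T)
    (hK0 : 2 ^ (k + 10) * k ≤ K0) (hZ : 2 ≤ Z)
    (hZK : 64 * (k:ℝ) * KV W ≤ cW W * Real.log Z) (M : ℕ) (j : Col P k) (p0 : P) (i : Fin k)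
    (hj : j p0 = some i) (hp0Z : (p0:ℕ) ≤ Z) :
    EG (wq (p0:ℕ) j) (cc Z T M) ≤ 16 * ((k:ℝ) + 1) *
      (Real.log (p0:ℕ) / Real.log Z + KV W / (cW W * Real.log Z) + (k / ((p0:ℝ) - 1)) ^ 2) *
        SS k W Z T := by
  have hk' : (2:ℝ) ≤ k := by exact_mod_cast hk
  have hkpos : (0:ℝ) < k := by linarith
  have h2k : k + 1 ≤ 2 ^ k := Nat.lt_two_pow_self
  have hK1 : 1024 * (2 ^ k * k) ≤ K0 := by
    have : 2 ^ (k + 10) * k = 1024 * (2 ^ k * k) := by rw [pow_add]; ring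
    omega
  have hK0r : (1024:ℝ) * (2 ^ k * k) ≤ K0 := by exact_mod_cast hK1
  have hK0pos : (0:ℝ) < K0 := lt_of_lt_of_le (by positivity) hK0r
  have hkP : ∀ p ∈ P, k ≤ p := by
    intro p hp
    have h1 := hS.ge p hp
    have : k ≤ 1024 * (2 ^ k * k) := by nlinarith
    omega
  have hK16 : 16 ≤ K0 := by nlinarith
  have h2kr : (k:ℝ) + 1 ≤ 2 ^ k := by exact_mod_cast h2k
  set D := cW W * Real.log Z with hD
  have hKVpos := KV_pos hW
  have hDpos : 0 < D := lt_of_lt_of_le (by positivity) hZK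
  have hlogZ : 0 < Real.log Z := Real.log_pos (by exact_mod_cast (show 1 < Z by omega))
  have hcW : 0 < cW W := cW_pos hW
  set η : ℝ := 1 / (16 * k) with hη
  have hηpos : 0 < η := by positivity
  have hKV1 : KV W ≤ D * (1 / (64 * k)) := by
    rw [mul_one_div, le_div_iff₀ (by positivity)]
    linarith
  have hU : cellU W K0 Z ≤ (1 + η) * D := by
    unfold cellU
    rw [← hD]
    have e1 : 32 / (K0:ℝ) ≤ 1 / (64 * k) := by
      rw [div_le_div_iff₀ hK0pos (by positivity)]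
      nlinarith
    have e0 : (1:ℝ) / (64 * k) ≤ 1 / 128 :=
      one_div_le_one_div_of_le (by norm_num) (by linarith)
    have e3 : D * (1 / (64 * k)) * 4 = η * D := by
      rw [hη]; field_simp; norm_num
    have e4 : 0 < (1:ℝ) / (64 * k) := by positivity
    calc (D + KV W) * (1 + 32 / K0) ≤ (D + D * (1 / (64 * k))) * (1 + 1 / (64 * k)) := by
          gcongr
      _ ≤ D + D * (1 / (64 * k)) * 4 := by nlinarith [mul_pos hDpos e4]
      _ = (1 + η) * D := by rw [e3]; ring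
  have hG := gT2_ge_one hT1
  have hG0 : 0 < gT2 T := by linarith
  have hA2 : A2 P Z T ≤ (1 + η) * (D * gT2 T) := by
    refine (A2_le hS hW hK16 hZ).trans ?_
    calc gT2 T * cellU W K0 Z ≤ gT2 T * ((1 + η) * D) := by gcongr
      _ = _ := by ring
  have hA20 := A2_nonneg P Z T
  have hp2 : 2 ≤ (p0:ℕ) := (hS.prime p0 p0.2).two_le
  have hp2r : (2:ℝ) ≤ (p0:ℕ) := by exact_mod_cast hp2
  have hp0l : 0 ≤ Real.log (p0:ℕ) := Real.log_natCast_nonneg _
  have hAc := Ac_le (T := T) hS hW hK16 hZ hp2 hp0Z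
  refine (EG_point hS.prime hkP j Z T M p0 i hj).trans ?_
  set κ : ℝ := (k / ((p0:ℝ) - 1)) ^ 2 with hκ
  have hκ0 : 0 ≤ κ := sq_nonneg _
  have e1 : A2 P Z T ^ (k - 1) ≤ (9 / 8) * (D * gT2 T) ^ (k - 1) := by
    have e1 : A2 P Z T ^ (k - 1) ≤ ((1 + η) * (D * gT2 T)) ^ (k - 1) := pow_le_pow_left₀ hA20 hA2 _
    rw [mul_pow] at e1
    have e2 := pow_eta (k := k) (n := k - 1) hηpos (by rw [hη]; field_simp) (by omega)
    exact e1.trans (mul_le_mul_of_nonneg_right e2 (by positivity))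
  have e32 : (1:ℝ) + 32 / K0 ≤ 2 := by
    have : 32 / (K0:ℝ) ≤ 1 := by
      rw [div_le_one hK0pos]
      have h4r : (2:ℝ) ≤ 2 ^ k := by linarith
      have h16 : (2:ℝ) * 2 ≤ 2 ^ k * k := mul_le_mul h4r hk' (by norm_num) (by positivity)
      linarith
    linarith
  have e2 : Ac P Z T p0 + κ * A2 P Z T ≤
      4 * (D * gT2 T) * (Real.log (p0:ℕ) / Real.log Z + KV W / D + κ) := by
    have f1 : Ac P Z T p0 ≤ gT2 T * ((cW W * (2 * Real.log (p0:ℕ)) + KV W) * 2) := by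
      refine hAc.trans (mul_le_mul_of_nonneg_left ?_ hG0.le)
      exact mul_le_mul_of_nonneg_left e32 (by positivity)
    have f2 : A2 P Z T ≤ 2 * (D * gT2 T) := by
      refine hA2.trans (mul_le_mul_of_nonneg_right ?_ (by positivity))
      have : η ≤ 1 := by
        rw [hη, div_le_one (by positivity)]
        linarith
      linarith
    have f3 : cW W * Real.log (p0:ℕ) = D * (Real.log (p0:ℕ) / Real.log Z) := by
      rw [hD]; field_simp
    have f4 : KV W = D * (KV W / D) := by field_simp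
    have f5 : gT2 T * ((cW W * (2 * Real.log (p0:ℕ)) + KV W) * 2) =
        (D * gT2 T) * (4 * (Real.log (p0:ℕ) / Real.log Z) + 2 * (KV W / D)) := by
      have : cW W * (2 * Real.log (p0:ℕ)) = 2 * (D * (Real.log (p0:ℕ) / Real.log Z)) := by
        rw [← f3]; ring
      rw [this]
      nth_rewrite 1 [f4]
      ring
    rw [f5] at f1
    have f6 := mul_le_mul_of_nonneg_left f2 hκ0
    have f7 : 0 ≤ (D * gT2 T) * (KV W / D) := by positivity
    have f8 : 0 ≤ (D * gT2 T) * κ := by positivity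
    nlinarith
  have hSSeq : SS k W Z T = (D * gT2 T) ^ (k - 1) * (D * gT2 T) := by
    unfold SS
    rw [← hD, ← pow_succ]
    congr 1
    omega
  have e3 : 0 ≤ Real.log (p0:ℕ) / Real.log Z + KV W / D + κ := by positivity
  have hAc0 : 0 ≤ Ac P Z T p0 + κ * A2 P Z T := by
    refine add_nonneg ?_ (mul_nonneg hκ0 hA20)
    unfold Ac
    refine Finset.sum_nonneg fun B _ => ?_
    exact mul_nonneg (mul_nonneg (sq_nonneg _) (cr_nonneg _ _ _)) (pm_nonneg (fun p _ => aup_nonneg p) B)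
  have e4 : A2 P Z T ^ (k - 1) * (Ac P Z T p0 + κ * A2 P Z T) ≤
      ((9 / 8) * (D * gT2 T) ^ (k - 1)) *
        (4 * (D * gT2 T) * (Real.log (p0:ℕ) / Real.log Z + KV W / D + κ)) :=
    mul_le_mul e1 e2 hAc0 (by positivity)
  calc 2 * ((k:ℝ) + 1) * (A2 P Z T ^ (k - 1) * (Ac P Z T p0 + κ * A2 P Z T))
      ≤ 2 * ((k:ℝ) + 1) * (((9 / 8) * (D * gT2 T) ^ (k - 1)) *
        (4 * (D * gT2 T) * (Real.log (p0:ℕ) / Real.log Z + KV W / D + κ))) :=
        mul_le_mul_of_nonneg_left e4 (by positivity)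
    _ = 9 * (((k:ℝ) + 1) * (Real.log (p0:ℕ) / Real.log Z + KV W / D + κ) *
          ((D * gT2 T) ^ (k - 1) * (D * gT2 T))) := by ring
    _ ≤ 16 * (((k:ℝ) + 1) * (Real.log (p0:ℕ) / Real.log Z + KV W / D + κ) *
          ((D * gT2 T) ^ (k - 1) * (D * gT2 T))) :=
        mul_le_mul_of_nonneg_right (by norm_num) (by positivity)
    _ = _ := by rw [hSSeq]; ring

end Pool.Agent.HLM26
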