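import Pool.Agent.HLM26.Total
import Pool.Agent.HL26.Combine

/-!
# Primes in translates of arbitrary sparse sets
-/

open Filter

namespace Pool.Agent.HLM26

open Pool.Agent.Maynard
open Pool.Agent.HL26

lemma tendsto_third : Tendsto (fun x : ℝ => ⌊x / 3⌋₊) atTop atTop :=
  tendsto_nat_floor_atTop.comp (tendsto_id.atTop_div_const (by norm_num))

lemma ev_sq_ge (a : ℝ) : ∀ᶠ x : ℝ in atTop,
    a * (1 + 3 * Real.log (Real.log x)) ≤ (Real.log (Real.log x)) ^ 2 := by
  filter_upwards [tendsto_loglog.eventually_ge_atTop (4 * |a| + 1)] with x hx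
  have h1 : a ≤ |a| := le_abs_self a
  have h2 : 0 ≤ |a| := abs_nonneg a
  have h3 : 1 ≤ Real.log (Real.log x) := by linarith
  nlinarith

open Classical in
theorem sparse_sets (k : ℕ) : ∃ (c : ℝ) (D : ℕ), 0 < c ∧ ∀ A : ℕ, ∀ ε : ℝ, 0 < ε →
    ∀ᶠ x : ℝ in atTop, ∀ B : Finset ℕ, (∀ b ∈ B, (b : ℝ) ≤ (Real.log x) ^ A) →
    (Real.log (Real.log x)) ^ 2 ≤ B.card →
      ((1 - ε) * (B.card.choose (k + 1) : ℝ) ≤
        ∑ E ∈ B.powersetCard (k + 1), singularSeries (translate0 E)) ∧
      (c * (min (B.card / Real.log x) 1) ^ D * (x / (Real.log x) ^ (k + 1)) *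
          ∑ E ∈ B.powersetCard (k + 1), singularSeries (translate0 E) ≤
        ∑ E ∈ B.powersetCard (k + 1), (tupleCount x (translate0 E) : ℝ)) ∧
      (c * (min (B.card / Real.log x) 1) ^ D *
          ∑ E ∈ B.powersetCard (k + 1), singularSeries (translate0 E) ≤
        ∑ E ∈ (B.powersetCard (k + 1)).filter (fun E => 0 < singularSeries (translate0 E) ∧
            c * (min (B.card / Real.log x) 1) ^ D *
              (singularSeries (translate0 E) * (x / (Real.log x) ^ (k + 1))) ≤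
              (tupleCount x (translate0 E) : ℝ)),
          singularSeries (translate0 E)) := by
  obtain ⟨K, D, y0, c1, hkK, hc1, htot⟩ := total_lower k
  obtain ⟨C, hC, hsieve⟩ := exists_sieve_bound (k + 1) (by omega)
  set c2 : ℝ := min (c1 / 12) 1 with hc2
  have hc20 : 0 < c2 := lt_min (by positivity) one_pos
  have hc21 : c2 ≤ 1 := min_le_right _ _
  have hc212 : c2 ≤ c1 / 12 := min_le_left _ _
  refine ⟨min (c2 / 2) (c2 / (4 * C)), D, lt_min (by positivity) (by positivity), fun A ε hε => ?_⟩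
  set c := min (c2 / 2) (c2 / (4 * C)) with hc
  have hc0 : 0 < c := lt_min (by positivity) (by positivity)
  set ε' : ℝ := min ε (1 / 2) with hε'
  have hε'0 : 0 < ε' := lt_min hε (by norm_num)
  have hε'1 : ε' ≤ 1 / 2 := min_le_right _ _
  have hε'2 : ε' ≤ ε := min_le_left _ _
  have hcast : Tendsto (fun N : ℕ => (N:ℝ)) atTop atTop := tendsto_natCast_atTop_atTop
  have evN : ∀ᶠ N : ℕ in atTop,
      (∀ y H : ℕ, y0 ≤ y → (y:ℝ) ≤ Real.log N →
      (Pr y : ℝ) ≤ (Real.log N) ^ (A + 2) → 1 ≤ H → (H : ℝ) ≤ (Real.log N) ^ (A + 2) →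
      (2 * (K:ℝ)) ^ 3 * Real.log H / (y * Real.log y) ≤ 1 →
      ∀ B : Finset ℕ, 4 * (K:ℝ) ≤ B.card * cW (Pr y) → (∀ b ∈ B, b ≤ H) →
        c1 * (min (B.card / Real.log N) 1) ^ D * ((N:ℝ) / (Real.log N) ^ (k + 1)) *
          ∑ E ∈ B.powersetCard (k + 1), SP (PPy y) E ≤
        ∑ E ∈ B.powersetCard (k + 1),
          (((Finset.Ioc N (2 * N)).filter (fun n => ∀ e ∈ E, Nat.Prime (n + e))).card : ℝ)) ∧
      ((((2 * K : ℕ) : ℝ)) ^ 3 * Real.log ((max 1 ⌊(Real.log (N:ℝ)) ^ (A + 2)⌋₊ : ℕ) : ℝ) /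
        ((⌊Real.log (Real.log (N:ℝ))⌋₊ : ℝ) * Real.log (⌊Real.log (Real.log (N:ℝ))⌋₊ : ℝ)) ≤ 1) ∧
      (max (y0 + 2) ⌈2 * ((k:ℝ) + 1) ^ 2 / ε'⌉₊ ≤ ⌊Real.log (Real.log (N:ℝ))⌋₊) ∧
      (0 ≤ Real.log (Real.log (N:ℝ))) ∧
      (1 ≤ Real.log (N:ℝ)) ∧ ((2:ℝ) ^ A ≤ Real.log (N:ℝ)) ∧
      ((Real.log (N:ℝ)) ^ (A + 2) ≤ (1 / 4) * N) ∧ (4 ≤ N) := by
    filter_upwards [htot (A + 2), hcast.eventually (ev_tail (2 * K) (A + 2) 1 one_pos),
      (tendsto_y.comp hcast).eventually_ge_atTop (max (y0 + 2) ⌈2 * ((k:ℝ) + 1) ^ 2 / ε'⌉₊),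
      (tendsto_loglog.comp hcast).eventually_ge_atTop 0, ev_log_ge 1, ev_log_ge ((2:ℝ) ^ A),
      hcast.eventually (ev_pow_le (A + 2) (1 / 4) (by norm_num)), eventually_ge_atTop 4]
      with N h1 h2 h3 h4 h5 h6 h7 h8
    exact ⟨h1, h2, h3, h4, h5, h6, h7, h8⟩
  filter_upwards [tendsto_third.eventually evN, hsieve, ev_X_ge (k + D) (8 * (k + 1) / c2),
    ev_sq_ge (max (4 * (K:ℝ)) (2 * ((k:ℝ) + 1) * k / ε')), eventually_ge_atTop 16,
    Real.tendsto_log_atTop.eventually_ge_atTop 1, tendsto_loglog.eventually_ge_atTop 1]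
    with x hN hsv hXge hsq hx16 hlogx hllx B hB hBcard
  set N := ⌊x / 3⌋₊ with hNdef
  obtain ⟨htN, htail, hyge, hll0, hlog1, h2A, hlogN4, hN4⟩ := hN
  have hx0 : 0 < x := by linarith
  have hN0 : (0:ℝ) < N := by exact_mod_cast (show 0 < N by omega)
  have hNle : (N:ℝ) ≤ x / 3 := Nat.floor_le (by positivity)
  have hNge : x / 4 ≤ N := by
    have h1 : x / 3 < (N:ℝ) + 1 := Nat.lt_floor_add_one _
    have h2 : (4:ℝ) ≤ N := by exact_mod_cast hN4
    linarith
  set ℓ := Real.log x with hℓ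
  set n0 := Real.log (N:ℝ) with hn0
  have hℓ0 : 0 < ℓ := by linarith
  have hn00 : 0 < n0 := by linarith
  have hn0le : n0 ≤ ℓ := Real.log_le_log hN0 (by linarith)
  have hn0ge : ℓ ≤ 2 * n0 := by
    have h1 : x ≤ (N:ℝ) ^ 2 := by
      have : x / 4 * (x / 4) ≤ (N:ℝ) * N := mul_le_mul hNge hNge (by positivity) hN0.le
      nlinarith
    have h2 := Real.log_le_log hx0 h1
    rw [Real.log_pow] at h2
    push_cast at h2
    exact h2
  set y := ⌊Real.log n0⌋₊ with hy
  set H := max 1 ⌊n0 ^ (A + 2)⌋₊ with hH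
  have hy2 : y0 + 2 ≤ y := (le_max_left _ _).trans hyge
  have hyε : 2 * ((k:ℝ) + 1) ^ 2 / ε' ≤ y := by
    refine (Nat.le_ceil _).trans ?_
    exact_mod_cast (le_max_right _ _).trans hyge
  have hyle : (y:ℝ) ≤ Real.log n0 := Nat.floor_le hll0
  have hyn0 : (y:ℝ) ≤ n0 := hyle.trans (by have := Real.log_le_sub_one_of_pos hn00; linarith)
  have hyr : (0:ℝ) < y := by exact_mod_cast (by omega : 0 < y)
  set P := Pr y with hP
  have hP0 : 0 < P := Pr_pos y
  have hPr : (0:ℝ) < P := by exact_mod_cast hP0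
  have hcP := cW_pos hP0
  have hP4 : (P:ℝ) ≤ (4:ℝ) ^ y := by exact_mod_cast prod_PPy_le y
  have hPle : (P:ℝ) ≤ n0 ^ (A + 2) := by
    refine hP4.trans ((four_pow_le (N:ℝ) hlog1 hll0).trans ?_)
    exact pow_le_pow_right₀ hlog1 (by omega)
  have hH1 : 1 ≤ H := le_max_left _ _
  have hn1 : (1:ℝ) ≤ n0 ^ (A + 2) := one_le_pow₀ hlog1
  have hHle : (H:ℝ) ≤ n0 ^ (A + 2) := by
    rw [hH, Nat.cast_max]
    exact max_le (by simpa using hn1) (Nat.floor_le (by positivity))
  have hBH : ∀ b ∈ B, b ≤ H := by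
    intro b hb
    refine le_max_of_le_right (Nat.le_floor ((hB b hb).trans ?_))
    calc ℓ ^ A ≤ (2 * n0) ^ A := pow_le_pow_left₀ hℓ0.le hn0ge A
      _ = 2 ^ A * n0 ^ A := mul_pow _ _ _
      _ ≤ n0 * n0 ^ A := mul_le_mul_of_nonneg_right h2A (by positivity)
      _ = n0 ^ (A + 1) := by rw [pow_succ]; ring
      _ ≤ n0 ^ (A + 2) := pow_le_pow_right₀ hlog1 (by omega)
  have htail' : (2 * (K:ℝ)) ^ 3 * Real.log H / (y * Real.log y) ≤ 1 := by
    have := htail
    push_cast at this
    exact this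
  -- the size of `B`
  have hw : ∀ t : ℝ, t ≤ max (4 * (K:ℝ)) (2 * ((k:ℝ) + 1) * k / ε') → t ≤ B.card * cW P := by
    intro t ht
    have h1 : (cW P)⁻¹ ≤ 1 + 3 * Real.log ℓ := by
      refine (inv_cW_le hP0).trans ?_
      have h2 : Real.log P ≤ y * Real.log 4 := by
        have := Real.log_le_log hPr hP4
        rwa [Real.log_pow] at this
      have h3 : Real.log 4 ≤ 1.5 := by
        have h : Real.log 4 = 2 * Real.log 2 := by
          rw [show (4:ℝ) = 2 ^ 2 by norm_num, Real.log_pow]; norm_num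
        have := Real.log_two_lt_d9
        linarith
      have h4 : Real.log n0 ≤ Real.log ℓ := Real.log_le_log hn00 hn0le
      have h5 : (y:ℝ) * Real.log 4 ≤ y * 1.5 := mul_le_mul_of_nonneg_left h3 hyr.le
      linarith
    have h2 : max (4 * (K:ℝ)) (2 * ((k:ℝ) + 1) * k / ε') * (cW P)⁻¹ ≤ B.card := by
      refine (mul_le_mul_of_nonneg_left h1 ?_).trans (hsq.trans hBcard)
      exact le_max_of_le_left (by positivity)
    rw [mul_inv_le_iff₀ hcP] at h2
    exact ht.trans h2
  have hBK := hw (4 * (K:ℝ)) (le_max_left _ _)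
  have hmain := htN y H (by omega) hyn0 hPle hH1 hHle htail' B hBK hBH
  -- nonemptiness of `B`
  have hBpos : (1:ℝ) ≤ B.card := by
    exact (one_le_pow₀ hllx).trans hBcard
  set κ : ℝ := (min (B.card / ℓ) 1) ^ D with hκ
  have hmin0 : 0 < min ((B.card : ℝ) / ℓ) 1 := lt_min (by positivity) one_pos
  have hκ0 : 0 < κ := by positivity
  have hκ1 : κ ≤ 1 := pow_le_one₀ hmin0.le (min_le_right _ _)
  have hκge : 1 / ℓ ^ D ≤ κ := by
    rw [hκ, ← one_div_pow]
    refine pow_le_pow_left₀ (by positivity) (le_min ?_ ?_) D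
    · exact div_le_div_of_nonneg_right hBpos hℓ0.le
    · rw [div_le_one hℓ0]; exact hlogx
  have hEprop : ∀ E ∈ B.powersetCard (k + 1), E.Nonempty ∧ (∀ e ∈ E, e ≤ H) ∧ E.card = k + 1 := by
    intro E hE
    rw [Finset.mem_powersetCard] at hE
    refine ⟨?_, fun e he => hBH e (hE.1 he), hE.2⟩
    rw [← Finset.card_pos]; omega
  have hylog : 0 < (y:ℝ) * Real.log y := by
    have h1 : (1:ℝ) < y := by exact_mod_cast (by omega : 1 < y)
    have := Real.log_pos h1
    positivity
  have hlogH : 0 ≤ Real.log H := Real.log_nonneg (by exact_mod_cast hH1)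
  have hSle : ∀ E ∈ B.powersetCard (k + 1), singularSeries E ≤ 3 * SP (PPy y) E := by
    intro E hE
    obtain ⟨hne, hle, hcard⟩ := hEprop E hE
    have h1 := singularSeries_le E hne y H (by omega) hH1 hle
    refine h1.trans ?_
    rw [mul_comm]
    apply mul_le_mul_of_nonneg_right _ (SP_nonneg _ (PPy_prime y) E)
    have h2 : (E.card : ℝ) ^ 3 * Real.log H / (y * Real.log y) ≤ 1 := by
      refine le_trans ?_ htail'
      refine div_le_div_of_nonneg_right (mul_le_mul_of_nonneg_right ?_ hlogH) hylog.le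
      refine pow_le_pow_left₀ (Nat.cast_nonneg _) ?_ 3
      rw [hcard]
      exact_mod_cast (by omega : k + 1 ≤ 2 * K)
    refine (Real.exp_le_exp.2 h2).trans ?_
    have := Real.exp_one_lt_d9
    linarith
  have hSge : ∀ E ∈ B.powersetCard (k + 1), (1 - ε' / 2) * SP (PPy y) E ≤ singularSeries E := by
    intro E hE
    obtain ⟨hne, hle, hcard⟩ := hEprop E hE
    have h1 := singularSeries_ge E y (by omega)
    refine le_trans ?_ h1
    apply mul_le_mul_of_nonneg_right _ (SP_nonneg _ (PPy_prime y) E)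
    rw [hcard]
    have h2 : (((k + 1 : ℕ) : ℝ)) ^ 2 / y ≤ ε' / 2 := by
      rw [div_le_iff₀ hyr]
      rw [div_le_iff₀ hε'0] at hyε
      push_cast
      linarith
    linarith
  set S1 := ∑ E ∈ B.powersetCard (k + 1), SP (PPy y) E with hS1
  have hS1nn : 0 ≤ S1 := Finset.sum_nonneg (fun E _ => SP_nonneg _ (PPy_prime y) E)
  have hSS : ∑ E ∈ B.powersetCard (k + 1), singularSeries (translate0 E)
      = ∑ E ∈ B.powersetCard (k + 1), singularSeries E :=
    Finset.sum_congr rfl (fun E _ => singularSeries_translate0 E)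
  set S2 := ∑ E ∈ B.powersetCard (k + 1), singularSeries (translate0 E) with hS2
  have hS2le : S2 ≤ 3 * S1 := by
    rw [hSS, hS1, Finset.mul_sum]
    exact Finset.sum_le_sum hSle
  have hS2ge : (1 - ε' / 2) * S1 ≤ S2 := by
    rw [hSS, hS1, Finset.mul_sum]
    exact Finset.sum_le_sum hSge
  have hS20 : 0 ≤ S2 := Finset.sum_nonneg fun E _ => singularSeries_nonneg _
  -- the mean value of the singular series
  set CB : ℝ := (B.card.choose (k + 1) : ℝ) with hCB
  have hCB0 : 0 ≤ CB := Nat.cast_nonneg _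
  have hmean : (1 - ε') * CB ≤ S2 := by
    rcases Nat.eq_zero_or_pos k with hk0 | hk0
    · have h1 := sum_SP_ge (PPy y) (PPy_prime y) B k (B.card * cW P) (by positivity) (by
        rw [mul_div_assoc]; rfl)
      rw [← hS1, hk0] at h1
      simp only [Nat.cast_zero, zero_add, mul_zero, zero_div, sub_zero, one_mul] at h1
      have h2 : CB ≤ S1 := by rw [hCB, hk0]; simpa using h1
      have h3 := mul_le_mul_of_nonneg_right (show 1 - ε' ≤ 1 - ε' / 2 by linarith) hCB0
      have h4 := mul_le_mul_of_nonneg_left h2 (show 0 ≤ 1 - ε' / 2 by linarith)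
      exact h3.trans (h4.trans hS2ge)
    · have hkr : (1:ℝ) ≤ k := by exact_mod_cast hk0
      have h2 := hw (2 * ((k:ℝ) + 1) * k / ε') (le_max_right _ _)
      have hwpos : 0 < B.card * cW P := lt_of_lt_of_le (by positivity) h2
      have h1 := sum_SP_ge (PPy y) (PPy_prime y) B k (B.card * cW P) hwpos (by
        rw [mul_div_assoc]; rfl)
      have h3 : ((k:ℝ) + 1) * k / (B.card * cW P) ≤ ε' / 2 := by
        rw [div_le_iff₀ hwpos]
        rw [div_le_iff₀ hε'0] at h2
        linarith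
      have h4 : (1 - ε' / 2) * CB ≤ S1 := by
        refine le_trans (mul_le_mul_of_nonneg_right ?_ hCB0) h1
        linarith
      have h5 := mul_le_mul_of_nonneg_left h4 (show 0 ≤ 1 - ε' / 2 by linarith)
      have e : (1 - ε' / 2) * ((1 - ε' / 2) * CB) = (1 - ε') * CB + ε' ^ 2 / 4 * CB := by ring
      have h6 : 0 ≤ ε' ^ 2 / 4 * CB := by positivity
      linarith
  -- the lower bound for the number of tuples
  set X := x / ℓ ^ (k + 1) with hX
  have hXpos : 0 < X := by positivity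
  set TC := ∑ E ∈ B.powersetCard (k + 1), (tupleCount x (translate0 E) : ℝ) with hTC
  have hcnt : ∑ E ∈ B.powersetCard (k + 1),
        (((Finset.Ioc N (2 * N)).filter (fun n => ∀ e ∈ E, Nat.Prime (n + e))).card : ℝ) ≤ TC := by
    rw [hTC]
    apply Finset.sum_le_sum
    intro E hE
    obtain ⟨hne, hle, hcard⟩ := hEprop E hE
    have hfl : 2 * N + H ≤ ⌊x⌋₊ := by
      apply Nat.le_floor
      push_cast
      linarith
    have h1 := count_le_tupleCount E H (2 * N) x hne hle hfl
    have h2 : ((Finset.Ioc N (2 * N)).filter (fun n => ∀ e ∈ E, Nat.Prime (n + e))).card ≤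
        ((Finset.Icc 1 (2 * N)).filter (fun n => ∀ e ∈ E, Nat.Prime (n + e))).card := by
      refine Finset.card_le_card fun n hn => ?_
      rw [Finset.mem_filter, Finset.mem_Ioc] at hn
      rw [Finset.mem_filter, Finset.mem_Icc]
      exact ⟨⟨by omega, hn.1.2⟩, hn.2⟩
    exact_mod_cast h2.trans h1
  have hlow : c2 * κ * X * S2 ≤ TC := by
    refine le_trans ?_ (hmain.trans hcnt)
    have h1 : κ ≤ (min (B.card / n0) 1) ^ D := by
      refine pow_le_pow_left₀ hmin0.le (min_le_min_right _ ?_) D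
      exact div_le_div_of_nonneg_left (by positivity) hn00 hn0le
    have h2 : X / 4 ≤ (N:ℝ) / n0 ^ (k + 1) := by
      rw [hX, div_right_comm]
      exact div_le_div₀ hN0.le hNge (by positivity) (pow_le_pow_left₀ hn00.le hn0le _)
    calc c2 * κ * X * S2 ≤ (c1 / 12) * κ * X * (3 * S1) :=
          mul_le_mul (mul_le_mul_of_nonneg_right (mul_le_mul_of_nonneg_right (min_le_left _ _)
            hκ0.le) hXpos.le) hS2le hS20 (by positivity)
      _ = c1 * κ * (X / 4) * S1 := by ring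
      _ ≤ _ := by gcongr
  have hc2κ : c2 * κ ≤ 1 := mul_le_one₀ hc21 hκ0.le hκ1
  refine ⟨?_, ?_, ?_⟩
  · refine le_trans ?_ hmean
    apply mul_le_mul_of_nonneg_right _ hCB0
    linarith
  · refine le_trans ?_ hlow
    have h1 : c ≤ c2 := (min_le_left _ _).trans (by linarith)
    gcongr
  · have hup : ∀ E ∈ B.powersetCard (k + 1), 0 < singularSeries (translate0 E) →
        (tupleCount x (translate0 E) : ℝ) ≤ C * (singularSeries (translate0 E) * X) := by
      intro E hE hpos
      exact hsv (translate0 E) (by rw [card_translate0, (Finset.mem_powersetCard.mp hE).2])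
        (fun p hp => admissible_of_pos _ hpos p hp)
    have h0 : ∀ E ∈ B.powersetCard (k + 1), singularSeries (translate0 E) = 0 →
        (tupleCount x (translate0 E) : ℝ) ≤ ((k + 1 : ℕ) : ℝ) := by
      intro E hE hz
      have h4 := tupleCount_le_of_zero _ hz x
      rw [card_translate0, (Finset.mem_powersetCard.mp hE).2] at h4
      exact_mod_cast h4
    have hgm := good_mass (B.powersetCard (k + 1)) (fun E => singularSeries (translate0 E))
      (fun E => (tupleCount x (translate0 E) : ℝ)) X C ((k + 1 : ℕ) : ℝ) (1 - c2 * κ / 2) (1 - c2 * κ)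
      hXpos (fun E _ => singularSeries_nonneg _) h0 hC.le hup (by positivity)
      (by have : 0 ≤ c2 * κ / 2 := by positivity
          linarith) (by
        have e1 : (1 - (1 - c2 * κ)) = c2 * κ := by ring
        rw [e1]
        exact hlow)
    rw [Finset.card_powersetCard] at hgm
    have hCBS : CB ≤ 2 * S2 := by
      have h1 : (1 / 2) * CB ≤ S2 := le_trans (mul_le_mul_of_nonneg_right (by linarith) hCB0) hmean
      linarith
    -- the error term
    have hXr : ((k + 1 : ℕ) : ℝ) / X * CB ≤ c2 * κ / 4 * S2 := by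
      have h1 : 8 * ((k:ℝ) + 1) / c2 ≤ X / ℓ ^ D := by
        refine hXge.trans (le_of_eq ?_)
        rw [hX, div_div, ← pow_add]
        congr 2
        omega
      have h2 : ((k + 1 : ℕ) : ℝ) / X * 2 ≤ c2 * κ / 4 := by
        rw [div_mul_eq_mul_div, div_le_iff₀ hXpos]
        rw [div_le_iff₀ hc20] at h1
        have h3 : X / ℓ ^ D ≤ κ * X := by
          rw [div_eq_mul_one_div, mul_comm X]
          exact mul_le_mul_of_nonneg_right hκge hXpos.le
        have h4 : X / ℓ ^ D * c2 ≤ κ * X * c2 := mul_le_mul_of_nonneg_right h3 hc20.le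
        push_cast
        linarith
      calc ((k + 1 : ℕ) : ℝ) / X * CB ≤ ((k + 1 : ℕ) : ℝ) / X * (2 * S2) :=
            mul_le_mul_of_nonneg_left hCBS (by positivity)
        _ = (((k + 1 : ℕ) : ℝ) / X * 2) * S2 := by ring
        _ ≤ _ := mul_le_mul_of_nonneg_right h2 hS20
    have h4 : (c2 * κ / 4) * S2 ≤ C * ∑ E ∈ (B.powersetCard (k + 1)).filter
        (fun E => 0 < singularSeries (translate0 E) ∧
            (1 - (1 - c2 * κ / 2)) * (singularSeries (translate0 E) * X) ≤
              (tupleCount x (translate0 E) : ℝ)), singularSeries (translate0 E) := by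
      refine le_trans ?_ hgm
      have e1 : 1 - c2 * κ / 2 - (1 - c2 * κ) = c2 * κ / 2 := by ring
      rw [e1]
      linarith
    have hcc : c * κ ≤ c2 * κ / 2 := by
      have : c ≤ c2 / 2 := min_le_left _ _
      calc c * κ ≤ c2 / 2 * κ := mul_le_mul_of_nonneg_right this hκ0.le
        _ = _ := by ring
    have h5 : ∑ E ∈ (B.powersetCard (k + 1)).filter
        (fun E => 0 < singularSeries (translate0 E) ∧
            (1 - (1 - c2 * κ / 2)) * (singularSeries (translate0 E) * X) ≤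
              (tupleCount x (translate0 E) : ℝ)), singularSeries (translate0 E) ≤
        ∑ E ∈ (B.powersetCard (k + 1)).filter (fun E => 0 < singularSeries (translate0 E) ∧
            c * κ * (singularSeries (translate0 E) * X) ≤
              (tupleCount x (translate0 E) : ℝ)), singularSeries (translate0 E) := by
      apply Finset.sum_le_sum_of_subset_of_nonneg
      · intro E hE
        rw [Finset.mem_filter] at hE ⊢
        refine ⟨hE.1, hE.2.1, le_trans ?_ hE.2.2⟩
        apply mul_le_mul_of_nonneg_right (by linarith)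
        exact mul_nonneg hE.2.1.le hXpos.le
      · intro E _ _
        exact singularSeries_nonneg _
    refine le_trans ?_ h5
    have h6 : c ≤ c2 / (4 * C) := min_le_right _ _
    have h7 : c * κ * S2 ≤ c2 / (4 * C) * κ * S2 :=
      mul_le_mul_of_nonneg_right (mul_le_mul_of_nonneg_right h6 hκ0.le) hS20
    refine h7.trans ?_
    have h8 : c2 / (4 * C) * κ * S2 = (c2 * κ / 4 * S2) / C := by field_simp
    rw [h8, div_le_iff₀ hC, mul_comm _ C]
    exact h4

end Pool.Agent.HLM26
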