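import Pool.Agent.Lib.Maynard.Output

/-!
# The Maynard weights at the integers with a given small prime factor
-/


namespace Pool.Agent.HLM26

open Pool.Agent.Maynard

variable {P : Finset ℕ} {k : ℕ}

lemma sum_update (p0 : P) (F : Col P k → ℝ) :
    ∑ χ : Col P k, F χ =
      ∑ χ : Col P k, (if χ p0 = none then ∑ x, F (Function.update χ p0 x) else 0) := by
  classical
  rw [← Finset.sum_filter, Finset.sum_sigma']
  refine Finset.sum_bij' (fun χ _ => ⟨Function.update χ p0 none, χ p0⟩)
    (fun q _ => Function.update q.1 p0 q.2) ?_ ?_ ?_ ?_ ?_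
  · intro χ _
    simp
  · intro q _
    simp
  · intro χ _
    simp
  · rintro ⟨χ, x⟩ hq
    simp only [Finset.mem_sigma, Finset.mem_filter, Finset.mem_univ, true_and, and_true] at hq
    simp only [Function.update_idem, Function.update_self, Sigma.mk.injEq, heq_eq_eq, and_true]
    rw [← hq, Function.update_eq_self]
  · intro χ _
    simp

/-- the coefficients seen from the integers with `y_{p0} = some i` -/
noncomputable def fix (c : Col P k → ℝ) (p0 : P) (i : Fin k) (χ : Col P k) : ℝ :=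
  if χ p0 = none then ∑ x, c (Function.update χ p0 x) * ps (p0:ℕ) x (some i) else 0

lemma GG_fix (c : Col P k → ℝ) (p0 : P) (i : Fin k) (y : Col P k) (hy : y p0 = some i) :
    GG c y = GG (fix c p0 i) y := by
  classical
  unfold GG
  rw [sum_update p0]
  refine Finset.sum_congr rfl fun χ _ => ?_
  unfold fix
  split_ifs with h
  · rw [Finset.sum_mul]
    refine Finset.sum_congr rfl fun x _ => ?_
    rw [← Finset.mul_prod_erase _ _ (Finset.mem_univ p0),
      ← Finset.mul_prod_erase _ (fun p : P => ps (p:ℕ) (χ p) (y p)) (Finset.mem_univ p0), h, ps_none,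
      one_mul, hy, Function.update_self, mul_assoc]
    congr 2
    refine Finset.prod_congr rfl fun p hp => ?_
    rw [Function.update_of_ne (Finset.ne_of_mem_erase hp)]
  · rw [zero_mul]

lemma EG_fix (q : ℕ) (j : Col P k) (c : Col P k → ℝ) (p0 : P) (hpq : (p0:ℕ) ∣ q) (i : Fin k)
    (hj : j p0 = some i) : EG (wq q j) c = EG (wq q j) (fix c p0 i) := by
  classical
  unfold EG
  refine Finset.sum_congr rfl fun y _ => ?_
  by_cases hy : y p0 = some i
  · rw [GG_fix c p0 i y hy]
  · have : ∏ p, wq q j p (y p) = 0 := by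
      refine Finset.prod_eq_zero (Finset.mem_univ p0) ?_
      unfold wq wpt
      rw [if_pos hpq, hj, if_neg hy]
    rw [this, zero_mul, zero_mul]

lemma val_update (i l : Fin k) (χ : Col P k) (p0 : P) (h : χ p0 = none) :
    cp (Function.update χ p0 (some i)) l = if l = i then cp χ l * p0 else cp χ l := by
  classical
  unfold cp val
  rw [← Finset.mul_prod_erase _ _ (Finset.mem_univ p0),
    ← Finset.mul_prod_erase (Finset.univ : Finset P) (fun p : P => if cl l (χ p) = true then (p:ℕ) else 1) (Finset.mem_univ p0)]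
  have e1 : ∏ p ∈ Finset.univ.erase p0, (if cl l (Function.update χ p0 (some i) p) = true then (p:ℕ) else 1) =
      ∏ p ∈ Finset.univ.erase p0, (if cl l (χ p) = true then (p:ℕ) else 1) := by
    refine Finset.prod_congr rfl fun p hp => ?_
    rw [Function.update_of_ne (Finset.ne_of_mem_erase hp)]
  rw [e1, h]
  beta_reduce
  rw [Function.update_self]
  have e2 : cl l (none : Option (Fin k)) = false := by simp [cl]
  rw [e2]
  by_cases hl : l = i
  · subst hl
    simp [cl]
    ring
  · have : cl l (some i) = false := by simp [cl, Ne.symm hl]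
    simp [this, hl]

lemma pc_update (a : ℕ → ℝ) (i : Fin k) (χ : Col P k) (p0 : P) (h : χ p0 = none) :
    pc a (Function.update χ p0 (some i)) = a p0 * pc a χ := by
  classical
  unfold pc
  rw [← Finset.mul_prod_erase _ _ (Finset.mem_univ p0),
    ← Finset.mul_prod_erase (Finset.univ : Finset P) (fun p : P => if χ p = none then (1:ℝ) else a p) (Finset.mem_univ p0)]
  have e1 : ∏ p ∈ Finset.univ.erase p0, (if Function.update χ p0 (some i) p = none then (1:ℝ) else a p) =
      ∏ p ∈ Finset.univ.erase p0, (if χ p = none then (1:ℝ) else a p) := by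
    refine Finset.prod_congr rfl fun p hp => ?_
    rw [Function.update_of_ne (Finset.ne_of_mem_erase hp)]
  rw [e1, Function.update_self]
  simp [h]

lemma yy_update_eq (Z T M : ℕ) (i : Fin k) (χ : Col P k) (p0 : P) (h : χ p0 = none)
    (hl : Nat.log Z (cp χ i * p0) = Nat.log Z (cp χ i)) :
    yy Z T M (Function.update χ p0 (some i)) = yy Z T M χ := by
  have e : ∀ l, Nat.log Z (cp (Function.update χ p0 (some i)) l) = Nat.log Z (cp χ l) := by
    intro l
    rw [val_update i l χ p0 h]
    split_ifs with hli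
    · subst hli; exact hl
    · rfl
  unfold yy gz lev
  simp_rw [e]

/-- the indicator that multiplication by `p0` changes the cell -/
noncomputable def cr (Z p0 n : ℕ) : ℝ := if Nat.log Z (n * p0) = Nat.log Z n then 0 else 1

lemma cr_nonneg (Z p0 n : ℕ) : 0 ≤ cr Z p0 n := by unfold cr; split_ifs <;> norm_num

lemma cr_sq (Z p0 n : ℕ) : cr Z p0 n ^ 2 = cr Z p0 n := by unfold cr; split_ifs <;> norm_num

lemma abs_fix_le (hP : ∀ p ∈ P, p.Prime) (Z T M : ℕ) (p0 : P) (i : Fin k) (χ : Col P k)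
    (h : χ p0 = none) :
    |fix (cc Z T M) p0 i χ| ≤ (∏ l, gz Z T (cp χ l)) * (cr Z p0 (cp χ i) + k / ((p0:ℝ) - 1)) /
      pc (fun p => (p:ℝ) - 1) χ := by
  classical
  have hP2 : ∀ p ∈ P, 2 ≤ p := fun p hp => (hP p hp).two_le
  have hP0 : ∀ p ∈ P, 0 < p := fun p hp => (hP p hp).pos
  have hp1 : (0:ℝ) < (p0:ℝ) - 1 := phi_pos hP2 p0 p0.2
  have hpc : 0 < pc (fun p => (p:ℝ) - 1) χ := pc_pos (phi_pos hP2) χ
  rw [le_div_iff₀ hpc]
  have e1 : fix (cc Z T M) p0 i χ * pc (fun p => (p:ℝ) - 1) χ =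
      yy Z T M χ + ∑ l : Fin k, yy Z T M (Function.update χ p0 (some l)) *
        (if l = i then -1 else 1 / ((p0:ℝ) - 1)) := by
    unfold fix
    rw [if_pos h, Fintype.sum_option, add_mul, Finset.sum_mul]
    congr 1
    · have : Function.update χ p0 none = χ := by rw [← h, Function.update_eq_self]
      rw [this, ps_none, mul_one]
      unfold cc
      rw [div_mul_cancel₀ _ hpc.ne']
    · refine Finset.sum_congr rfl fun l _ => ?_
      unfold cc
      rw [pc_update _ l χ p0 h, ps_some]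
      by_cases hl : l = i
      · subst hl
        simp only [if_true]
        field_simp
        ring
      · have : ¬ (some l = some i) := fun h => hl (Option.some.inj h)
        simp only [this, hl, if_false]
        field_simp
  have e2 : |fix (cc Z T M) p0 i χ| * pc (fun p => (p:ℝ) - 1) χ =
      |fix (cc Z T M) p0 i χ * pc (fun p => (p:ℝ) - 1) χ| := by
    rw [abs_mul, abs_of_pos hpc]
  rw [e2, e1]
  have hsplit : ∑ l : Fin k, yy Z T M (Function.update χ p0 (some l)) *
        (if l = i then -1 else 1 / ((p0:ℝ) - 1)) =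
      - yy Z T M (Function.update χ p0 (some i)) + ∑ l ∈ Finset.univ.erase i,
        yy Z T M (Function.update χ p0 (some l)) * (1 / ((p0:ℝ) - 1)) := by
    rw [← Finset.add_sum_erase _ _ (Finset.mem_univ i)]
    simp only [if_true]
    congr 1
    · ring
    · refine Finset.sum_congr rfl fun l hl => ?_
      rw [if_neg (Finset.ne_of_mem_erase hl)]
  rw [hsplit]
  have hanti : ∀ l, yy Z T M (Function.update χ p0 (some l)) ≤ yy Z T M χ := by
    intro l
    refine yy_anti hP0 Z T M fun p => ?_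
    by_cases hp : p = p0
    · subst hp; exact Or.inl h
    · right; rw [Function.update_of_ne hp]
  have hyy := yy_le Z T M χ
  have hyy0 := yy_nonneg Z T M χ
  set G := ∏ l, gz Z T (cp χ l) with hG
  have hG0 : 0 ≤ G := Finset.prod_nonneg fun _ _ => gz_nonneg _ _ _
  have hA : 0 ≤ yy Z T M χ - yy Z T M (Function.update χ p0 (some i)) := by
    have := hanti i
    linarith
  have hA2 : yy Z T M χ - yy Z T M (Function.update χ p0 (some i)) ≤ G * cr Z p0 (cp χ i) := by
    unfold cr
    split_ifs with hc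
    · rw [yy_update_eq Z T M i χ p0 h hc]; simp
    · have := yy_nonneg Z T M (Function.update χ p0 (some i))
      linarith
  have hB : 0 ≤ ∑ l ∈ Finset.univ.erase i,
        yy Z T M (Function.update χ p0 (some l)) * (1 / ((p0:ℝ) - 1)) :=
    Finset.sum_nonneg fun l _ => mul_nonneg (yy_nonneg _ _ _ _) (by positivity)
  have hB2 : ∑ l ∈ Finset.univ.erase i,
        yy Z T M (Function.update χ p0 (some l)) * (1 / ((p0:ℝ) - 1)) ≤ G * (k / ((p0:ℝ) - 1)) := by
    calc _ ≤ ∑ _l ∈ Finset.univ.erase i, G * (1 / ((p0:ℝ) - 1)) :=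
          Finset.sum_le_sum fun l _ => mul_le_mul_of_nonneg_right ((hanti l).trans hyy) (by positivity)
      _ ≤ ∑ _l : Fin k, G * (1 / ((p0:ℝ) - 1)) :=
          Finset.sum_le_sum_of_subset_of_nonneg (Finset.erase_subset _ _) fun _ _ _ => by positivity
      _ = _ := by
          rw [Finset.sum_const, Finset.card_univ, Fintype.card_fin, nsmul_eq_mul]
          ring
  rw [abs_of_nonneg (by linarith)]
  linarith

/-- crossing sum -/
noncomputable def Ac (P : Finset ℕ) (Z T p0 : ℕ) : ℝ :=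
  ∑ B : P → Bool, gz Z T (val B) ^ 2 * cr Z p0 (val B) * pm aup B

/-- the second moment over the integers with `p0 ∣ n + h_i` -/
theorem EG_point (hP : ∀ p ∈ P, p.Prime) (hk : ∀ p ∈ P, k ≤ p) (j : Col P k) (Z T M : ℕ)
    (p0 : P) (i : Fin k) (hj : j p0 = some i) :
    EG (wq (p0:ℕ) j) (cc Z T M) ≤
      2 * ((k:ℝ) + 1) * ((A2 P Z T) ^ (k - 1) * (Ac P Z T p0 + (k / ((p0:ℝ) - 1)) ^ 2 * A2 P Z T)) := by
  classical
  have hP2 : ∀ p ∈ P, 2 ≤ p := fun p hp => (hP p hp).two_le
  rw [EG_fix (p0:ℕ) j (cc Z T M) p0 dvd_rfl i hj]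
  refine (EG_upper hP hk _ j _).trans ?_
  set κ : ℝ := k / ((p0:ℝ) - 1) with hκ
  have hp1 : (0:ℝ) < (p0:ℝ) - 1 := phi_pos hP2 p0 p0.2
  have hκ0 : 0 ≤ κ := by positivity
  set f : Fin k → (P → Bool) → ℝ := fun l B => gz Z T (val B) ^ 2 *
    (if l = i then cr Z p0 (val B) + κ ^ 2 else 1) with hf
  have hf0 : ∀ l B, 0 ≤ f l B := by
    intro l B
    simp only [hf]
    refine mul_nonneg (sq_nonneg _) ?_
    split_ifs
    · have := cr_nonneg Z p0 (val B); positivity
    · exact zero_le_one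
  have h1 := col_le_tuple f hf0 aup (fun p _ => aup_nonneg p) (P := P) (k := k)
  have h2 : ∏ l, ∑ B : P → Bool, f l B * pm aup B = A2 P Z T ^ (k - 1) * (Ac P Z T p0 + κ ^ 2 * A2 P Z T) := by
    rw [← Finset.mul_prod_erase _ _ (Finset.mem_univ i), mul_comm]
    congr 1
    · have : ∀ l ∈ Finset.univ.erase i, ∑ B : P → Bool, f l B * pm aup B = A2 P Z T := by
        intro l hl
        unfold A2
        refine Finset.sum_congr rfl fun B _ => ?_
        simp only [hf, if_neg (Finset.ne_of_mem_erase hl), mul_one]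
      rw [Finset.prod_congr rfl this, Finset.prod_const, Finset.card_erase_of_mem (Finset.mem_univ i),
        Finset.card_univ, Fintype.card_fin]
    · unfold Ac A2
      rw [Finset.mul_sum, ← Finset.sum_add_distrib]
      refine Finset.sum_congr rfl fun B _ => ?_
      simp only [hf, if_true]
      ring
  rw [h2] at h1
  refine le_trans ?_ (mul_le_mul_of_nonneg_left h1 (by positivity : (0:ℝ) ≤ 2 * ((k:ℝ) + 1)))
  rw [Finset.mul_sum]
  refine Finset.sum_le_sum fun χ _ => ?_
  have haup0 : 0 ≤ pc aup χ := pc_nonneg (fun p _ => aup_nonneg p) χ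
  by_cases hχ : χ p0 = none
  · have hpc : 0 < pc (fun p => (p:ℝ) - 1) χ := pc_pos (phi_pos hP2) χ
    have h3 := abs_fix_le hP Z T M p0 i χ hχ
    have h4 : fix (cc Z T M) p0 i χ ^ 2 ≤ (∏ l, gz Z T (cp χ l)) ^ 2 *
        (2 * (cr Z p0 (cp χ i) + κ ^ 2)) / (pc (fun p => (p:ℝ) - 1) χ) ^ 2 := by
      rw [← sq_abs]
      refine (pow_le_pow_left₀ (abs_nonneg _) h3 2).trans ?_
      rw [div_pow, mul_pow]
      have hc := cr_sq Z p0 (cp χ i)
      have : (cr Z p0 (cp χ i) + κ) ^ 2 ≤ 2 * (cr Z p0 (cp χ i) + κ ^ 2) := by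
        nlinarith [sq_nonneg (cr Z p0 (cp χ i) - κ)]
      gcongr
    have h5 : ∏ p : P, kq k (p0:ℕ) p (χ p) / (pc (fun p => (p:ℝ) - 1) χ) ^ 2 = 0 ∨ True := Or.inr trivial
    have h6 : (∏ p : P, kq k (p0:ℕ) p (χ p)) / (pc (fun p => (p:ℝ) - 1) χ) ^ 2 =
        ((k:ℝ) + 1) * pc aup χ := by
      unfold pc
      rw [← Finset.prod_pow, ← Finset.prod_div_distrib,
        ← Finset.mul_prod_erase _ _ (Finset.mem_univ p0),
        ← Finset.mul_prod_erase (Finset.univ : Finset P) (fun p : P => if χ p = none then (1:ℝ) else aup p)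
          (Finset.mem_univ p0)]
      have e1 : kq k (p0:ℕ) p0 (χ p0) / (if χ p0 = none then (1:ℝ) else (p0:ℝ) - 1) ^ 2 = (k:ℝ) + 1 := by
        simp [kq, hχ]
      rw [e1]
      rw [hχ]
      simp only [if_true, one_mul]
      congr 1
      refine Finset.prod_congr rfl fun p hp => ?_
      have hne : ¬ (p:ℕ) ∣ (p0:ℕ) := by
        intro hd
        exact Finset.ne_of_mem_erase hp (Subtype.ext ((Nat.prime_dvd_prime_iff_eq (hP p p.2) (hP p0 p0.2)).1 hd))
      unfold kq aup
      rw [if_neg hne]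
      split_ifs <;> simp
    have h7 : 0 ≤ ∏ p : P, kq k (p0:ℕ) p (χ p) := Finset.prod_nonneg fun p _ => by
      unfold kq
      split_ifs <;> positivity
    calc (∏ p : P, kq k (p0:ℕ) p (χ p)) * fix (cc Z T M) p0 i χ ^ 2
        ≤ (∏ p : P, kq k (p0:ℕ) p (χ p)) * ((∏ l, gz Z T (cp χ l)) ^ 2 *
        (2 * (cr Z p0 (cp χ i) + κ ^ 2)) / (pc (fun p => (p:ℝ) - 1) χ) ^ 2) :=
          mul_le_mul_of_nonneg_left h4 h7
      _ = ((∏ p : P, kq k (p0:ℕ) p (χ p)) / (pc (fun p => (p:ℝ) - 1) χ) ^ 2) *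
          ((∏ l, gz Z T (cp χ l)) ^ 2 * (2 * (cr Z p0 (cp χ i) + κ ^ 2))) := by ring
      _ = (((k:ℝ) + 1) * pc aup χ) *
          ((∏ l, gz Z T (cp χ l)) ^ 2 * (2 * (cr Z p0 (cp χ i) + κ ^ 2))) := by rw [h6]
      _ = 2 * ((k:ℝ) + 1) * ((∏ l, f l (fun p => cl l (χ p))) * pc aup χ) := by
          have e1 : ∏ l, f l (fun p => cl l (χ p)) = (∏ l, gz Z T (cp χ l)) ^ 2 *
              (cr Z p0 (cp χ i) + κ ^ 2) := by
            simp only [hf]
            rw [Finset.prod_mul_distrib, Finset.prod_pow]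
            congr 1
            rw [Finset.prod_ite_eq' Finset.univ i]
            simp [cp]
          rw [e1]
          ring
      _ ≤ _ := le_rfl
  · have : fix (cc Z T M) p0 i χ = 0 := by unfold fix; rw [if_neg hχ]
    rw [this]
    have : 0 ≤ ∏ l, f l (fun p => cl l (χ p)) := Finset.prod_nonneg fun l _ => hf0 _ _
    simp only [ne_eq, OfNat.ofNat_ne_zero, not_false_eq_true, zero_pow, mul_zero]
    positivity

end Pool.Agent.HLM26
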