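import Pool.Agent.HLM26.Cross

/-!
# The weights on integers with and without small prime factors
-/

namespace Pool.Agent.HLM26

open Pool.Agent.Maynard

variable {P : Finset ℕ} {k W K0 R Z T M : ℕ}

theorem sum_GG_le' (hS : Setting P W K0 R) (hZ : 2 ≤ Z) {h : Fin k → ℕ} (hsep : Sep P h) {q : ℕ}
    (hW : 0 < W) (hq : 0 < q) (N a : ℕ) {B : ℝ}
    (hB : EG (wq q (JJ (P := P) h a)) (cc Z T M) ≤ B) :
    ∑ n ∈ (Finset.Ioc N (2 * N)).filter (fun n => n ≡ a [MOD (W * q)]),
        GG (cc Z T M) (JJ (P := P) h n) ^ 2 ≤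
      (N:ℝ) / (W * q : ℕ) * B + ((Z:ℝ) ^ M * LL R ^ (4 * k)) ^ 2 := by
  have h1 := compare (wq q (JJ (P := P) h a)) (cc Z T M)
    ((Finset.Ioc N (2 * N)).filter (fun n => n ≡ a [MOD (W * q)])) (fun _ => (1:ℝ))
    (fun n => JJ h n) ((N:ℝ) / (W * q : ℕ)) (fun _ _ => 1) (fun z z' _ _ => by
      refine compare_hyp _ _ _ _ _ (fun _ => 1) (fun _ => zero_le_one) z z' (fun _ => ?_)
      exact count_model hS.prime hsep hW hq hS.ndvd N a _)
  have h2 : ∑ z : Col P k, ∑ z' : Col P k, |lam (cc Z T M) z| * |lam (cc Z T M) z'| * 1 =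
      (∑ z : Col P k, |lam (cc Z T M) z|) ^ 2 := by
    rw [sq, Finset.sum_mul_sum]
    simp
  rw [h2] at h1
  have h3 := sum_abs_lam_le (k := k) (T := T) (M := M) hS.prime hS.le hZ
  have h4 : (∑ z : Col P k, |lam (cc Z T M) z|) ^ 2 ≤ ((Z:ℝ) ^ M * LL R ^ (4 * k)) ^ 2 :=
    pow_le_pow_left₀ (Finset.sum_nonneg fun _ _ => abs_nonneg _) h3 2
  have h5 := (abs_le.1 h1).2
  have h6 : (N:ℝ) / (W * q : ℕ) * EG (wq q (JJ (P := P) h a)) (cc Z T M) ≤
      (N:ℝ) / (W * q : ℕ) * B := mul_le_mul_of_nonneg_left hB (by positivity)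
  simp_rw [one_mul] at h5
  linarith

/-- the sum over the integers with `p0 ∣ n + h_i` -/
lemma sum_GG_dvd (hS : Setting P W K0 R) (hW : 0 < W) (hk : 2 ≤ k) (hT1 : 1 ≤ T)
    (hK0 : 2 ^ (k + 10) * k ≤ K0) (hZ : 2 ≤ Z)
    (hZK : 64 * (k:ℝ) * KV W ≤ cW W * Real.log Z) {h : Fin k → ℕ} (hsep : Sep P h) (N a : ℕ)
    (i : Fin k) {p0 : ℕ} (hp0 : p0 ∈ P) (hp0Z : p0 ≤ Z) :
    ∑ n ∈ (Finset.Ioc N (2 * N)).filter (fun n => n ≡ a [MOD W]),
        (if p0 ∣ n + h i then GG (cc Z T M) (JJ (P := P) h n) ^ 2 else 0) ≤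
      (N:ℝ) / W * (16 * ((k:ℝ) + 1) * SS k W Z T) *
        (1 / Real.log Z * (Real.log p0 / p0) + KV W / (cW W * Real.log Z) * (1 / p0) +
          4 * (k:ℝ) ^ 2 / K0 * (1 / (p0:ℝ) ^ 2)) +
        ((Z:ℝ) ^ M * LL R ^ (4 * k)) ^ 2 := by
  have hpp := hS.prime p0 hp0
  have hcop : W.Coprime p0 := ((hpp.coprime_iff_not_dvd).2 (hS.ndvd p0 hp0)).symm
  obtain ⟨a', ha1, ha2⟩ := Nat.chineseRemainder hcop a (p0 * h i - h i)
  have hle : h i ≤ p0 * h i := Nat.le_mul_of_pos_left _ hpp.pos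
  have hda' : p0 ∣ a' + h i := by
    rw [← Nat.modEq_zero_iff_dvd]
    have h3 : (p0 * h i - h i) + h i ≡ 0 [MOD p0] := by
      rw [Nat.sub_add_cancel hle]
      exact Nat.modEq_zero_iff_dvd.2 (dvd_mul_right _ _)
    exact (ha2.add_right (h i)).trans h3
  have hj : JJ h a' ⟨p0, hp0⟩ = some i := ((JJ_eq_some hsep a' ⟨p0, hp0⟩ i).2 hda').symm
  have h1 := EG_point_num (T := T) hS hW hk hT1 hK0 hZ hZK M (JJ (P := P) h a') ⟨p0, hp0⟩ i hj hp0Z
  have h2 := sum_GG_le' (T := T) (M := M) hS hZ hsep (q := p0) hW hpp.pos N a' h1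
  have heq : ∑ n ∈ (Finset.Ioc N (2 * N)).filter (fun n => n ≡ a [MOD W]),
        (if p0 ∣ n + h i then GG (cc Z T M) (JJ (P := P) h n) ^ 2 else 0) =
      ∑ n ∈ (Finset.Ioc N (2 * N)).filter (fun n => n ≡ a' [MOD (W * p0)]),
        GG (cc Z T M) (JJ (P := P) h n) ^ 2 := by
    rw [← Finset.sum_filter, Finset.filter_filter]
    refine Finset.sum_congr ?_ fun _ _ => rfl
    refine Finset.filter_congr fun n _ => ?_
    rw [← Nat.modEq_and_modEq_iff_modEq_mul hcop]
    constructor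
    · rintro ⟨h3, h4⟩
      refine ⟨h3.trans ha1.symm, ?_⟩
      have h5 : n + h i ≡ a' + h i [MOD p0] :=
        (Nat.modEq_zero_iff_dvd.2 h4).trans (Nat.modEq_zero_iff_dvd.2 hda').symm
      exact Nat.ModEq.add_right_cancel' _ h5
    · rintro ⟨h3, h4⟩
      refine ⟨h3.trans ha1, ?_⟩
      exact (Nat.ModEq.dvd_iff (h4.add_right (h i)) dvd_rfl).2 hda'
  rw [heq]
  refine h2.trans (add_le_add ?_ le_rfl)
  have hWr : (0:ℝ) < W := by exact_mod_cast hW
  have hp0r : (2:ℝ) ≤ p0 := by exact_mod_cast hpp.two_le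
  have hK0r : (K0:ℝ) ≤ p0 := by exact_mod_cast hS.ge p0 hp0
  have hK0pos : (0:ℝ) < K0 := by
    have : 0 < K0 := lt_of_lt_of_le (by positivity) hK0
    exact_mod_cast this
  have hSS0 : 0 ≤ SS k W Z T := by
    unfold SS
    have h1 := cW_nonneg W
    have h2 : 0 ≤ Real.log Z := Real.log_natCast_nonneg Z
    have h3 := gT2_ge_one hT1
    positivity
  have e1 : (k / ((p0:ℝ) - 1)) ^ 2 * (1 / p0) ≤ 4 * (k:ℝ) ^ 2 / K0 * (1 / (p0:ℝ) ^ 2) := by
    have f1 : (k / ((p0:ℝ) - 1)) ^ 2 ≤ 4 * (k:ℝ) ^ 2 / (p0:ℝ) ^ 2 := by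
      rw [div_pow, div_le_div_iff₀ (by have : (0:ℝ) < (p0:ℝ) - 1 := by linarith
                                       positivity) (by positivity)]
      have := sq_aux hp0r
      have hk2 : (0:ℝ) ≤ (k:ℝ) ^ 2 := by positivity
      nlinarith
    have f2 : (1:ℝ) / p0 ≤ 1 / K0 := one_div_le_one_div_of_le hK0pos hK0r
    calc (k / ((p0:ℝ) - 1)) ^ 2 * (1 / p0) ≤ (4 * (k:ℝ) ^ 2 / (p0:ℝ) ^ 2) * (1 / K0) :=
          mul_le_mul f1 f2 (by positivity) (by positivity)
      _ = _ := by ring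
  have e2 : (N:ℝ) / (W * p0 : ℕ) * (16 * ((k:ℝ) + 1) *
      (Real.log (p0:ℕ) / Real.log Z + KV W / (cW W * Real.log Z) + (k / ((p0:ℝ) - 1)) ^ 2) *
        SS k W Z T) = (N:ℝ) / W * (16 * ((k:ℝ) + 1) * SS k W Z T) *
        (1 / Real.log Z * (Real.log p0 / p0) + KV W / (cW W * Real.log Z) * (1 / p0) +
          (k / ((p0:ℝ) - 1)) ^ 2 * (1 / p0)) := by
    push_cast
    field_simp
  rw [e2]
  refine mul_le_mul_of_nonneg_left ?_ (by positivity)
  linarith

/-- the sum over the integers for which some `n + h_i` has a prime factor at most `z` -/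
theorem sum_GG_bad (hS : Setting P W K0 R) (hW : 0 < W) (hk : 2 ≤ k) (hT1 : 1 ≤ T)
    (hK0 : 2 ^ (k + 10) * k ≤ K0) (hZ : 2 ≤ Z)
    (hZK : 64 * (k:ℝ) * KV W ≤ cW W * Real.log Z) {h : Fin k → ℕ} (hsep : Sep P h) (N a z : ℕ)
    (hzZ : z ≤ Z) {S1 S2 : ℝ}
    (hS1 : ∑ p ∈ P.filter (· ≤ z), Real.log p / p ≤ S1)
    (hS2 : ∑ p ∈ P.filter (· ≤ z), 1 / (p:ℝ) ≤ S2) :
    ∑ n ∈ (Finset.Ioc N (2 * N)).filter (fun n => n ≡ a [MOD W]),
        (if ∃ p ∈ P, p ≤ z ∧ ∃ i, p ∣ n + h i then GG (cc Z T M) (JJ (P := P) h n) ^ 2 else 0) ≤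
      (N:ℝ) / W * (16 * (k:ℝ) * ((k:ℝ) + 1) * SS k W Z T) *
        (S1 / Real.log Z + KV W / (cW W * Real.log Z) * S2 + 8 * (k:ℝ) ^ 2 / (K0:ℝ) ^ 2) +
        k * z * ((Z:ℝ) ^ M * LL R ^ (4 * k)) ^ 2 := by
  classical
  set A := (Finset.Ioc N (2 * N)).filter (fun n => n ≡ a [MOD W]) with hA
  set g : ℕ → ℝ := fun n => GG (cc Z T M) (JJ (P := P) h n) ^ 2 with hg
  have hg0 : ∀ n, 0 ≤ g n := fun n => sq_nonneg _
  set Pz := P.filter (· ≤ z) with hPz
  have h1 : ∀ n ∈ A, (if ∃ p ∈ P, p ≤ z ∧ ∃ i, p ∣ n + h i then g n else 0) ≤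
      ∑ i : Fin k, ∑ p ∈ Pz, (if p ∣ n + h i then g n else 0) := by
    intro n _
    have hnn : ∀ i : Fin k, 0 ≤ ∑ p ∈ Pz, (if p ∣ n + h i then g n else 0) := fun i =>
      Finset.sum_nonneg fun p _ => by split_ifs; exacts [hg0 n, le_rfl]
    split_ifs with hc
    · obtain ⟨p, hp, hpz, i, hi⟩ := hc
      have h2 := Finset.single_le_sum (f := fun i : Fin k => ∑ p ∈ Pz, (if p ∣ n + h i then g n else 0))
        (fun i _ => hnn i) (Finset.mem_univ i)
      refine le_trans ?_ h2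
      have h3 := Finset.single_le_sum (f := fun p => (if p ∣ n + h i then g n else 0))
        (fun p _ => by split_ifs; exacts [hg0 n, le_rfl])
        (show p ∈ Pz from Finset.mem_filter.2 ⟨hp, hpz⟩)
      refine le_trans ?_ h3
      simp only [hi, if_true]
      exact le_rfl
    · exact Finset.sum_nonneg fun i _ => hnn i
  refine (Finset.sum_le_sum h1).trans ?_
  rw [Finset.sum_comm]
  have h2 : ∀ i : Fin k, ∑ n ∈ A, ∑ p ∈ Pz, (if p ∣ n + h i then g n else 0) ≤
      ∑ p ∈ Pz, ((N:ℝ) / W * (16 * ((k:ℝ) + 1) * SS k W Z T) *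
        (1 / Real.log Z * (Real.log p / p) + KV W / (cW W * Real.log Z) * (1 / p) +
          4 * (k:ℝ) ^ 2 / K0 * (1 / (p:ℝ) ^ 2)) +
        ((Z:ℝ) ^ M * LL R ^ (4 * k)) ^ 2) := by
    intro i
    rw [Finset.sum_comm]
    refine Finset.sum_le_sum fun p hp => ?_
    obtain ⟨hp1, hp2⟩ := Finset.mem_filter.1 hp
    exact sum_GG_dvd hS hW hk hT1 hK0 hZ hZK hsep N a i hp1 (hp2.trans hzZ)
  refine (Finset.sum_le_sum fun i _ => h2 i).trans ?_
  rw [Finset.sum_const, Finset.card_univ, Fintype.card_fin, nsmul_eq_mul]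
  have hSS0 : 0 ≤ SS k W Z T := by
    unfold SS
    have h1 := cW_nonneg W
    have h2 : 0 ≤ Real.log Z := Real.log_natCast_nonneg Z
    have h3 := gT2_ge_one hT1
    positivity
  have hlogZ : 0 < Real.log Z := Real.log_pos (by exact_mod_cast (show 1 < Z by omega))
  have hcW : 0 < cW W := cW_pos hW
  have hKV := KV_pos hW
  have hK0pos : (0:ℝ) < K0 := by
    have : 0 < K0 := lt_of_lt_of_le (by positivity) hK0
    exact_mod_cast this
  have hK2 : 2 ≤ K0 := by
    have : 2 ≤ 2 ^ (k + 10) * k := by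
      have h1 : 1 ≤ 2 ^ (k + 10) := Nat.one_le_two_pow
      nlinarith
    omega
  have hcard : (Pz.card : ℝ) ≤ z := by
    have h3 : Pz ⊆ Finset.Icc 1 z := by
      intro p hp
      obtain ⟨hp1, hp2⟩ := Finset.mem_filter.1 hp
      exact Finset.mem_Icc.2 ⟨(hS.prime p hp1).one_lt.le, hp2⟩
    have := Finset.card_le_card h3
    rw [Nat.card_Icc, Nat.add_sub_cancel] at this
    exact_mod_cast this
  have hsq : ∑ p ∈ Pz, 1 / (p:ℝ) ^ 2 ≤ 2 / (K0:ℝ) :=
    sum_inv_sq_le hK2 fun p hp => hS.ge p (Finset.mem_filter.1 hp).1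
  have h3 : ∑ p ∈ Pz, ((N:ℝ) / W * (16 * ((k:ℝ) + 1) * SS k W Z T) *
        (1 / Real.log Z * (Real.log p / p) + KV W / (cW W * Real.log Z) * (1 / p) +
          4 * (k:ℝ) ^ 2 / K0 * (1 / (p:ℝ) ^ 2)) +
        ((Z:ℝ) ^ M * LL R ^ (4 * k)) ^ 2) =
      (N:ℝ) / W * (16 * ((k:ℝ) + 1) * SS k W Z T) *
        (1 / Real.log Z * (∑ p ∈ Pz, Real.log p / p) + KV W / (cW W * Real.log Z) *
          (∑ p ∈ Pz, 1 / (p:ℝ)) +
          4 * (k:ℝ) ^ 2 / K0 * (∑ p ∈ Pz, 1 / (p:ℝ) ^ 2)) +
        Pz.card * ((Z:ℝ) ^ M * LL R ^ (4 * k)) ^ 2 := by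
    rw [Finset.sum_add_distrib, ← Finset.mul_sum, Finset.sum_add_distrib, Finset.sum_add_distrib,
      ← Finset.mul_sum, ← Finset.mul_sum, ← Finset.mul_sum, Finset.sum_const, nsmul_eq_mul]
  rw [h3]
  have h4 : 1 / Real.log Z * (∑ p ∈ Pz, Real.log p / p) + KV W / (cW W * Real.log Z) *
          (∑ p ∈ Pz, 1 / (p:ℝ)) +
          4 * (k:ℝ) ^ 2 / K0 * (∑ p ∈ Pz, 1 / (p:ℝ) ^ 2) ≤
      S1 / Real.log Z + KV W / (cW W * Real.log Z) * S2 + 8 * (k:ℝ) ^ 2 / (K0:ℝ) ^ 2 := by
    have f1 : 1 / Real.log Z * (∑ p ∈ Pz, Real.log p / p) ≤ 1 / Real.log Z * S1 :=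
      mul_le_mul_of_nonneg_left hS1 (by positivity)
    have f2 : KV W / (cW W * Real.log Z) * (∑ p ∈ Pz, 1 / (p:ℝ)) ≤
        KV W / (cW W * Real.log Z) * S2 := mul_le_mul_of_nonneg_left hS2 (by positivity)
    have f3 : 4 * (k:ℝ) ^ 2 / K0 * (∑ p ∈ Pz, 1 / (p:ℝ) ^ 2) ≤ 4 * (k:ℝ) ^ 2 / K0 * (2 / K0) :=
      mul_le_mul_of_nonneg_left hsq (by positivity)
    have f4 : 4 * (k:ℝ) ^ 2 / K0 * (2 / K0) = 8 * (k:ℝ) ^ 2 / (K0:ℝ) ^ 2 := by
      field_simp
      ring
    have f5 : 1 / Real.log Z * S1 = S1 / Real.log Z := by ring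
    linarith
  have h5 := mul_le_mul_of_nonneg_left h4
    (show 0 ≤ (N:ℝ) / W * (16 * ((k:ℝ) + 1) * SS k W Z T) by positivity)
  have h6 : (Pz.card : ℝ) * ((Z:ℝ) ^ M * LL R ^ (4 * k)) ^ 2 ≤
      z * ((Z:ℝ) ^ M * LL R ^ (4 * k)) ^ 2 := mul_le_mul_of_nonneg_right hcard (sq_nonneg _)
  have h7 := mul_le_mul_of_nonneg_left (add_le_add h5 h6) (Nat.cast_nonneg (α := ℝ) k)
  refine h7.trans (le_of_eq ?_)
  ring

lemma gz_sq_mul (Z T n : ℕ) : gz Z T n ^ 2 * ((Nat.log Z n : ℝ) + 1) = gz Z T n := by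
  rw [gz_eq_ite]
  split_ifs
  · field_simp
  · simp

lemma A2h_eq (P : Finset ℕ) (Z T : ℕ) : A2h P Z T = ∑ B : P → Bool, gz Z T (val B) * pm aup B := by
  unfold A2h
  refine Finset.sum_congr rfl fun B _ => ?_
  rw [gz_sq_mul]

/-- pointwise bound in terms of the number of coloured primes -/
theorem abs_GG_le_two (hP : ∀ p ∈ P, p.Prime) (y : Col P k) :
    |GG (cc Z T M) y| ≤ 2 ^ (Finset.univ.filter (fun p : P => y p ≠ none)).card * (A2h P Z T) ^ k := by
  classical
  have hP2 : ∀ p ∈ P, 2 ≤ p := fun p hp => (hP p hp).two_le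
  have hP0 : ∀ p ∈ P, 0 < p := fun p hp => (hP p hp).pos
  set t : ↥P → Option (Fin k) → ℝ := fun p x =>
    |ps (p:ℕ) x (y p)| / (if x = none then 1 else ((p:ℕ):ℝ) - 1) with ht
  have ht0 : ∀ p x, 0 ≤ t p x := by
    intro p x
    simp only [ht]
    refine div_nonneg (abs_nonneg _) ?_
    have := phi_pos hP2 p p.2
    split_ifs <;> linarith
  have h1 : |GG (cc Z T M) y| ≤ ∑ χ : Col P k, yy Z T M χ * ∏ p : P, t p (χ p) := by
    unfold GG
    refine (Finset.abs_sum_le_sum_abs _ _).trans (Finset.sum_le_sum fun χ _ => ?_)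
    rw [abs_mul, abs_of_nonneg (cc_nonneg hP2 Z T M χ), Finset.abs_prod,
      cc_mul_prod Z T M χ (fun p x => |ps (p:ℕ) x (y p)|)]
  refine h1.trans ?_
  have key := push' (ι := P) (X := Option (Fin k)) (Z := Fin k → Bool)
    (fun p x => if y p ≠ none ∧ x = y p then (fun _ => false) else (fun i => cl i x)) t ht0
    (fun χ => yy Z T M χ) (fun z => ∏ i, gz Z T (val (fun p => z p i))) ?_ ?_
    (fun p z => (if y p ≠ none then 2 else 1) * ∏ i, (if z i then aup p else 1)) ?_
  · refine key.trans (le_of_eq ?_)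
    have e1 : ∀ z : P → (Fin k → Bool), (∏ i, gz Z T (val (fun p => z p i))) *
        ∏ p : P, ((if y p ≠ none then 2 else 1) * ∏ i, (if z p i then aup p else 1)) =
        2 ^ (Finset.univ.filter (fun p : P => y p ≠ none)).card *
        ((∏ i, gz Z T (val (fun p => z p i))) * ∏ p : P, ∏ i, (if z p i then aup p else 1)) := by
      intro z
      rw [Finset.prod_mul_distrib]
      have : ∏ p : P, (if y p ≠ none then (2:ℝ) else 1) =
          2 ^ (Finset.univ.filter (fun p : P => y p ≠ none)).card := by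
        rw [← Finset.prod_filter, Finset.prod_const]
      rw [this]
      ring
    simp_rw [e1]
    rw [← Finset.mul_sum, tuple_prod (fun _ B => gz Z T (val B)) aup]
    congr 1
    rw [Finset.prod_const, Finset.card_univ, Fintype.card_fin, A2h_eq]
  · intro χ
    refine (yy_le _ _ _ _).trans ?_
    refine Finset.prod_le_prod (fun i _ => gz_nonneg _ _ _) fun i _ => ?_
    refine gz_anti Z T ?_
    unfold cp
    refine val_le hP0 fun p hp => ?_
    by_cases hpq : y p ≠ none ∧ χ p = y p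
    · simp [hpq] at hp
    · simpa [hpq] using hp
  · intro z
    exact Finset.prod_nonneg fun i _ => gz_nonneg _ _ _
  · intro p z
    have hp2 : (2:ℝ) ≤ p := by exact_mod_cast hP2 p p.2
    have hp1 : (0:ℝ) < (p:ℝ) - 1 := by linarith
    have hprod : 0 ≤ ∏ i, (if z i then aup (p:ℕ) else 1) := by
      refine Finset.prod_nonneg fun i _ => ?_
      split_ifs
      · exact aup_nonneg _
      · exact zero_le_one
    have hsplit := Fintype.sum_option (fun x : Option (Fin k) =>
      if (if y p ≠ none ∧ x = y p then (fun _ => false) else (fun i => cl i x)) = z then t p x else 0)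
    rw [hsplit]
    have htn : t p none = 1 := by simp [ht, ps_none]
    have hnone : (if y p ≠ none ∧ (none : Option (Fin k)) = y p then (fun _ => false) else
        (fun i : Fin k => cl i (none : Option (Fin k)))) = fun _ => false := by
      split_ifs
      · rfl
      · funext i; simp [cl]
    rw [hnone, htn]
    have hinv : 1 / ((p:ℝ) - 1) ≤ aup p := by
      unfold aup
      rw [div_le_div_iff₀ hp1 (by positivity)]
      nlinarith
    -- the value at `some i`
    have hti : ∀ i : Fin k, some i ≠ y p → t p (some i) = 1 / ((p:ℝ) - 1) := by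
      intro i hi
      simp only [ht, reduceCtorEq, if_false]
      rw [ps_some, if_neg hi, abs_one]
    have hty : ∀ i : Fin k, some i = y p → t p (some i) = 1 := by
      intro i hi
      simp only [ht, reduceCtorEq, if_false]
      rw [ps_some, if_pos hi, abs_of_neg (by linarith)]
      field_simp
      ring
    have hne : ∀ i : Fin k, (fun j => cl j (some i)) ≠ (fun _ => false : Fin k → Bool) := by
      intro i hi
      have := congrFun hi i
      simp [cl] at this
    by_cases h0 : z = fun _ => false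
    · subst h0
      simp only [if_true, Bool.false_eq_true, if_false, Finset.prod_const_one, mul_one]
      cases hy : y p with
      | none =>
        rw [Finset.sum_eq_zero]
        · simp
        · intro i _
          simp only [ne_eq, not_true_eq_false, false_and, if_false]
          rw [if_neg (hne i)]
      | some i0 =>
        rw [Finset.sum_eq_single i0]
        · simp only [ne_eq, reduceCtorEq, not_false_eq_true, true_and, if_true]
          rw [hty i0 hy.symm]
          norm_num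
        · intro i _ hi
          have : ¬ (some i = some i0) := fun h => hi (Option.some.inj h)
          simp only [ne_eq, reduceCtorEq, not_false_eq_true, true_and, this, if_false]
          rw [if_neg (hne i)]
        · intro h; exact absurd (Finset.mem_univ _) h
    · have h0' : ¬ ((fun _ => false : Fin k → Bool) = z) := fun h => h0 h.symm
      rw [if_neg h0', zero_add]
      have hc : (1:ℝ) ≤ (if y p ≠ none then 2 else 1) := by split_ifs <;> norm_num
      by_cases h2 : ∃ i : Fin k, (fun j => cl j (some i)) = z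
      · obtain ⟨i, hi⟩ := h2
        subst hi
        have h3 : ∀ j : Fin k, ((fun l => cl l (some j)) = (fun l => cl l (some i))) ↔ j = i := by
          intro j
          constructor
          · intro h
            have := congrFun h i
            simpa [cl, eq_comm] using this
          · rintro rfl; rfl
        have hpr : ∏ l, (if cl l (some i) then aup (p:ℕ) else 1) = aup p := by
          rw [Finset.prod_eq_single i]
          · simp [cl]
          · intro j _ hj
            have : cl j (some i) = false := by simp [cl, Ne.symm hj]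
            simp [this]
          · intro h; exact absurd (Finset.mem_univ _) h
        rw [hpr]
        have h4 : ∑ j : Fin k, (if (if y p ≠ none ∧ some j = y p then (fun _ => false) else
            (fun l => cl l (some j))) = (fun l => cl l (some i)) then t p (some j) else 0) ≤
            1 / ((p:ℝ) - 1) := by
          rw [Finset.sum_eq_single i]
          · by_cases h5 : y p ≠ none ∧ some i = y p
            · rw [if_pos h5, if_neg (fun h6 => hne i h6.symm)]
              positivity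
            · rw [if_neg h5, if_pos rfl, hti i]
              intro h7
              exact h5 ⟨by rw [← h7]; simp, h7⟩
          · intro j _ hj
            by_cases h5 : y p ≠ none ∧ some j = y p
            · rw [if_pos h5, if_neg (fun h6 => hne i h6.symm)]
            · rw [if_neg h5, if_neg]
              rw [h3]; exact hj
          · intro h; exact absurd (Finset.mem_univ _) h
        refine h4.trans (hinv.trans ?_)
        exact le_mul_of_one_le_left (aup_nonneg _) hc
      · push Not at h2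
        rw [Finset.sum_eq_zero]
        · positivity
        · intro i _
          rw [if_neg]
          split_ifs with h5
          · exact h0'
          · exact h2 i

end Pool.Agent.HLM26
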