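import Pool.Agent.HLM26.ClassLower
import Pool.Agent.HL26.SieveD

/-!
# Upper bound sieve in a residue class modulo a primorial
-/

open Filter

namespace Pool.Agent.HLM26

open Pool.Agent.Maynard
open Pool.Agent.HL26 (PPy PPy_prime nu SP SP_eq loc)

lemma inv_cW_Pr (y : ℕ) : ∏ p ∈ PPy y, (1 - 1 / (p : ℝ))⁻¹ = 1 / cW (Pr y) := by
  unfold cW Pr
  rw [HL26.totient_prod (PPy y) (PPy_prime y), one_div_div]
  push_cast
  rw [← Finset.prod_div_distrib]
  refine Finset.prod_congr rfl fun p hp => ?_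
  have h2 : (1:ℝ) < p := by exact_mod_cast (PPy_prime y p hp).one_lt
  have h3 : (p:ℝ) - 1 ≠ 0 := by linarith
  have h0 : (p:ℝ) ≠ 0 := by linarith
  have h4 : (1 - 1 / (p:ℝ)) = ((p:ℝ) - 1) / p := by field_simp
  rw [h4, inv_div]

/-- primes in `(y, w]` -/
def TT (y w : ℕ) : Finset ℕ := (PPy w).filter (fun p => y < p)

lemma mem_TT {y w p : ℕ} : p ∈ TT y w ↔ (p ≤ w ∧ p.Prime) ∧ y < p := by
  unfold TT
  rw [Finset.mem_filter, mem_PPy]

lemma prod_TT_ge {y w : ℕ} (hyw : y ≤ w) (hw : 1 ≤ w) :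
    cW (Pr y) * Real.log w ≤ ∏ p ∈ TT y w, (1 - 1 / (p : ℝ))⁻¹ := by
  have h1 : (PPy w).filter (fun p => ¬ y < p) = PPy y := by
    ext p
    rw [Finset.mem_filter, mem_PPy, mem_PPy]
    constructor
    · rintro ⟨⟨_, h2⟩, h3⟩; exact ⟨by omega, h2⟩
    · rintro ⟨h2, h3⟩; exact ⟨⟨by omega, h3⟩, by omega⟩
  have h2 : (∏ p ∈ TT y w, (1 - 1 / (p : ℝ))⁻¹) * ∏ p ∈ PPy y, (1 - 1 / (p : ℝ))⁻¹ =
      ∏ p ∈ PPy w, (1 - 1 / (p : ℝ))⁻¹ := by
    rw [← h1]
    exact Finset.prod_filter_mul_prod_filter_not (PPy w) (fun p => y < p) _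
  rw [inv_cW_Pr] at h2
  have h3 := HL26.log_le_prod w
  have hc := cW_pos (Pr_pos y)
  have hw0 : (0:ℝ) < w := by exact_mod_cast hw
  have h4 : Real.log w ≤ Real.log ((w:ℝ) + 1) := Real.log_le_log hw0 (by linarith)
  rw [← h2] at h3
  have h5 : Real.log w ≤ (∏ p ∈ TT y w, (1 - 1 / (p : ℝ))⁻¹) * (1 / cW (Pr y)) := h4.trans h3
  have h6 := mul_le_mul_of_nonneg_left h5 hc.le
  refine h6.trans (le_of_eq ?_)
  field_simp

open Classical in
lemma card_Omega {P a p : ℕ} (hp : p.Prime) (hpP : ¬ p ∣ P) (E : Finset ℕ) :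
    ((Finset.range p).filter (fun b => ∃ e ∈ E, p ∣ P * b + a + e)).card = nu E p := by
  have : Fact p.Prime := ⟨hp⟩
  have : NeZero p := ⟨hp.ne_zero⟩
  have hPu : (P : ZMod p) ≠ 0 := by
    rwa [Ne, ZMod.natCast_eq_zero_iff]
  unfold nu
  symm
  apply Finset.card_bij (fun (z : ZMod p) _ => ((-z - a) * (P : ZMod p)⁻¹).val)
  · intro z hz
    rw [Finset.mem_image] at hz
    obtain ⟨e, he, rfl⟩ := hz
    rw [Finset.mem_filter, Finset.mem_range]
    refine ⟨ZMod.val_lt _, e, he, ?_⟩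
    rw [← ZMod.natCast_eq_zero_iff]
    push_cast
    rw [ZMod.natCast_zmod_val]
    field_simp
    ring
  · intro x _ z _ hxz
    have h1 := ZMod.val_injective p hxz
    have h2 := mul_right_cancel₀ (inv_ne_zero hPu) h1
    have h3 : -x = -z := sub_left_injective h2
    exact neg_injective h3
  · intro b hb
    rw [Finset.mem_filter, Finset.mem_range] at hb
    obtain ⟨hlt, e, he, hdvd⟩ := hb
    refine ⟨(e : ZMod p), Finset.mem_image.2 ⟨e, he, rfl⟩, ?_⟩
    rw [← ZMod.natCast_eq_zero_iff] at hdvd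
    push_cast at hdvd
    have h1 : (-(e : ZMod p) - a) * (P : ZMod p)⁻¹ = (b : ZMod p) := by
      have h2 : -(e : ZMod p) - a = P * b := by linear_combination -hdvd
      rw [h2]
      field_simp
    rw [h1, ZMod.val_natCast, Nat.mod_eq_of_lt hlt]

open Classical in
/-- the sieve bound with explicit parameters -/
theorem sieve_class (r : ℕ) (hr : 1 ≤ r) (w y : ℕ) (hw : 4 ≤ w) (hyr : r < y) (hyw : y ≤ w)
    (N H a : ℕ) (E : Finset ℕ) (hE : E.card = r) (hH : 1 ≤ H) (hEH : ∀ e ∈ E, e ≤ H) :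
    (((Finset.Ioc N (2 * N)).filter (fun n => n ≡ a [MOD Pr y] ∧
      ∀ e ∈ E, ∀ p : ℕ, p.Prime → p ∣ n + e → w < p)).card : ℝ) ≤
      2 * Real.exp ((r:ℝ) ^ 3 * Real.log H / (y * Real.log y)) * ((N:ℝ) / Pr y + 2) *
        (1 / (cW (Pr y) * Real.log w)) ^ r + ((w : ℝ) ^ (8 * r + 2)) ^ (2 * r + 1) := by
  have hw4 : (4:ℝ) ≤ w := by exact_mod_cast hw
  have hlogw : 0 < Real.log w := Real.log_pos (by linarith)
  have hEne : E.Nonempty := by rw [← Finset.card_pos]; omega
  set P := Pr y with hP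
  have hP0 : 0 < P := Pr_pos y
  have hPr : (0:ℝ) < P := by exact_mod_cast hP0
  set T := TT y w with hT
  have hTp : ∀ p ∈ T, p.Prime := fun p hp => (mem_TT.1 hp).1.2
  have hTy : ∀ p ∈ T, y < p := fun p hp => (mem_TT.1 hp).2
  have hTw : ∀ p ∈ T, p ≤ w := fun p hp => (mem_TT.1 hp).1.1
  have hTPP : T ⊆ PPy w := Finset.filter_subset _ _
  set S := ∏ p ∈ T, p with hS
  have hSpos : 0 < S := Finset.prod_pos (fun p hp => (hTp p hp).pos)
  have hsq : Squarefree S := Finset.squarefree_prod_of_pairwise_isCoprime (fun p hp q hq hpq => by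
      have := (Nat.coprime_primes (hTp p hp) (hTp q hq)).mpr hpq
      simpa [Nat.isCoprime_iff_coprime, Nat.coprime_iff_isRelPrime] using this)
    (fun p hp => (hTp p hp).squarefree)
  have hpf : S.primeFactors = T := Nat.primeFactors_prod hTp
  set a0 := a % P with ha0
  set Ω : ℕ → Finset ℕ := fun p => (Finset.range p).filter (fun b => ∃ e ∈ E, p ∣ P * b + a0 + e) with hΩ
  have hΩcard : ∀ p ∈ T, (Ω p).card = nu E p := by
    intro p hp
    refine card_Omega (hTp p hp) (fun hd => ?_) E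
    have := le_of_dvd_Pr (hTp p hp) hd
    have := hTy p hp
    omega
  have hΩsub : ∀ p ∈ S.primeFactors, Ω p ⊆ Finset.range p := fun p _ => Finset.filter_subset _ _
  have hΩ0 : ∀ p ∈ S.primeFactors, 0 < (Ω p).card := by
    intro p hp
    rw [hpf] at hp
    rw [hΩcard p hp]
    exact HL26.nu_pos E hEne p
  have hnlt : ∀ p ∈ T, nu E p < p := by
    intro p hp
    have h1 := HL26.nu_le_card E p
    have h2 := hTy p hp
    omega
  have hΩ1 : ∀ p ∈ S.primeFactors, (Ω p).card < p := by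
    intro p hp
    rw [hpf] at hp
    rw [hΩcard p hp]
    exact hnlt p hp
  set s := 8 * r + 2 with hs
  set y0 : ℝ := (w:ℝ) ^ s with hy0
  have hy1 : 1 ≤ y0 := one_le_pow₀ (by linarith)
  set X : ℕ := 2 * N / P + 1 - N / P with hX
  have hsel := Pool.Agent.Lib.Sieve.selberg_residue S hsq Ω hΩsub hΩ0 hΩ1 (N / P) X y0 hy1
  -- the G-sum
  set nf : ℕ → ℝ := fun p => if y < p then (nu E p : ℝ) else 0 with hnf
  have hnfT : ∀ p ∈ T, nf p = ((Ω p).card : ℝ) := by
    intro p hp
    rw [hΩcard p hp]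
    simp only [hnf, if_pos (hTy p hp)]
  have hG := HL26.rankin w hw r s (le_refl _) nf (fun p _ => by
      simp only [hnf]; split_ifs <;> positivity)
    (fun p hp => by
      simp only [hnf]
      split_ifs with h
      · exact_mod_cast hnlt p (by rw [hT, mem_TT]; exact ⟨mem_PPy.1 hp, h⟩)
      · exact_mod_cast (PPy_prime w p hp).pos)
    (fun p hp => by
      simp only [hnf]
      split_ifs with h
      · exact_mod_cast (HL26.nu_le_card E p).trans hE.le
      · positivity)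
  set G := ∑ l ∈ S.divisors, if (l : ℝ) ^ 2 ≤ y0 then ∏ p ∈ l.primeFactors, ((Ω p).card : ℝ) / (p - (Ω p).card) else 0 with hGdef
  have hSdvd : S ∣ ∏ p ∈ PPy w, p := Finset.prod_dvd_prod_of_subset _ _ _ hTPP
  have hPw0 : ∏ p ∈ PPy w, p ≠ 0 := (Finset.prod_pos fun p hp => (PPy_prime w p hp).pos).ne'
  have hsqw : Squarefree (∏ p ∈ PPy w, p) := Finset.squarefree_prod_of_pairwise_isCoprime (fun p hp q hq hpq => by
      have := (Nat.coprime_primes (PPy_prime w p hp) (PPy_prime w q hq)).mpr hpq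
      simpa [Nat.isCoprime_iff_coprime, Nat.coprime_iff_isRelPrime] using this)
    (fun p hp => (PPy_prime w p hp).squarefree)
  have hGeq : (∑ l ∈ (∏ p ∈ PPy w, p).divisors,
        if (l : ℝ) ^ 2 ≤ (w : ℝ) ^ s then ∏ p ∈ l.primeFactors, nf p / (p - nf p) else 0) = G := by
    have h1 : G = ∑ l ∈ S.divisors,
        if (l : ℝ) ^ 2 ≤ (w : ℝ) ^ s then ∏ p ∈ l.primeFactors, nf p / (p - nf p) else 0 := by
      rw [hGdef]
      refine Finset.sum_congr rfl fun l hl => ?_
      have h2 : ∏ p ∈ l.primeFactors, ((Ω p).card : ℝ) / (p - (Ω p).card) =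
          ∏ p ∈ l.primeFactors, nf p / (p - nf p) := by
        refine Finset.prod_congr rfl fun p hp => ?_
        rw [hnfT p]
        rw [← hpf]
        exact Nat.primeFactors_mono (Nat.dvd_of_mem_divisors hl) hSpos.ne' hp
      rw [h2]
    rw [h1]
    symm
    refine Finset.sum_subset (Nat.divisors_subset_of_dvd hPw0 hSdvd) fun l hl hl2 => ?_
    have hl' := Nat.dvd_of_mem_divisors hl
    have h3 : ∃ p ∈ l.primeFactors, ¬ y < p := by
      by_contra hcon
      push Not at hcon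
      apply hl2
      rw [Nat.mem_divisors]
      refine ⟨?_, hSpos.ne'⟩
      have hlsq : Squarefree l := hsqw.squarefree_of_dvd hl'
      rw [← Nat.prod_primeFactors_of_squarefree hlsq]
      refine Finset.prod_dvd_prod_of_subset _ _ _ fun p hp => ?_
      have h4 : p ∈ (∏ p ∈ PPy w, p).primeFactors := Nat.primeFactors_mono hl' hPw0 hp
      rw [Nat.primeFactors_prod (PPy_prime w)] at h4
      rw [hT, mem_TT]
      exact ⟨mem_PPy.1 h4, hcon p hp⟩
    obtain ⟨p, hp, hpy⟩ := h3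
    have h4 : ∏ p ∈ l.primeFactors, nf p / (p - nf p) = 0 := by
      refine Finset.prod_eq_zero hp ?_
      simp only [hnf, if_neg hpy, zero_div]
    rw [h4]
    simp
  rw [hGeq] at hG
  have hprodeq : ∏ p ∈ PPy w, (1 + nf p / (p - nf p)) = ∏ p ∈ T, (1 + (nu E p : ℝ) / (p - nu E p)) := by
    rw [hT]
    unfold TT
    rw [Finset.prod_filter]
    refine Finset.prod_congr rfl fun p hp => ?_
    simp only [hnf]
    split_ifs
    · rfl
    · simp
  rw [hprodeq] at hG
  set e0 := Real.exp ((r:ℝ) ^ 3 * Real.log H / (y * Real.log y)) with he0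
  have he0pos : 0 < e0 := Real.exp_pos _
  have hlocle : ∏ p ∈ T, loc E p ≤ e0 := by
    have h1 := HL26.prod_tail_le E hEne y H (by omega) hH hEH T hTy hTp
    rw [hE] at h1
    exact h1
  have hZloc : (∏ p ∈ T, (1 + (nu E p : ℝ) / (p - nu E p))) * ∏ p ∈ T, loc E p =
      (∏ p ∈ T, (1 - 1 / (p : ℝ))⁻¹) ^ r := by
    rw [← Finset.prod_mul_distrib, ← Finset.prod_pow]
    refine Finset.prod_congr rfl fun p hp => ?_
    unfold loc
    have hp0 : (0:ℝ) < p := by exact_mod_cast (hTp p hp).pos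
    have h2 : (nu E p : ℝ) < p := by exact_mod_cast hnlt p hp
    have h3 : (p : ℝ) - nu E p ≠ 0 := by linarith
    rw [hE]
    have h4 : (1 + (nu E p : ℝ) / (p - nu E p)) * (1 - (nu E p : ℝ) / p) = 1 := by
      field_simp
      ring
    calc (1 + (nu E p : ℝ) / (p - nu E p)) * ((1 - 1 / (p:ℝ))⁻¹ ^ r * (1 - (nu E p : ℝ) / p))
        = (1 - 1 / (p:ℝ))⁻¹ ^ r * ((1 + (nu E p : ℝ) / (p - nu E p)) * (1 - (nu E p : ℝ) / p)) := by ring
      _ = _ := by rw [h4, mul_one]
  have hcP := cW_pos hP0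
  have hL := prod_TT_ge hyw (by omega : 1 ≤ w)
  have hLr : (cW P * Real.log w) ^ r ≤ (∏ p ∈ T, (1 - 1 / (p : ℝ))⁻¹) ^ r :=
    pow_le_pow_left₀ (by positivity) hL r
  have hZ0 : 0 ≤ ∏ p ∈ T, (1 + (nu E p : ℝ) / (p - nu E p)) := by
    refine Finset.prod_nonneg fun p hp => ?_
    have h2 : (nu E p : ℝ) < p := by exact_mod_cast hnlt p hp
    have h3 : 0 < (p : ℝ) - nu E p := by linarith
    positivity
  have hGlow : (cW P * Real.log w) ^ r / (2 * e0) ≤ G := by
    refine le_trans ?_ hG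
    rw [div_le_iff₀ (by positivity)]
    rw [← hZloc] at hLr
    have h1 := mul_le_mul_of_nonneg_left hlocle hZ0
    linarith
  have hGpos : 0 < G := lt_of_lt_of_le (by positivity) hGlow
  have hXle : (X : ℝ) ≤ (N:ℝ) / P + 2 := by
    have h1 : ((2 * N / P : ℕ) : ℝ) ≤ ((2 * N : ℕ) : ℝ) / P := Nat.cast_div_le
    have h2 : (N:ℝ) / P ≤ ((N / P : ℕ) : ℝ) + 1 := by
      have := Nat.lt_floor_add_one ((N:ℝ) / P)
      rw [Nat.floor_div_natCast, Nat.floor_natCast] at this
      exact this.le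
    have h3 : X + N / P ≤ 2 * N / P + 1 := by
      have : N / P ≤ 2 * N / P := Nat.div_le_div_right (by omega)
      omega
    have h4 : (X:ℝ) + ((N / P : ℕ) : ℝ) ≤ ((2 * N / P : ℕ) : ℝ) + 1 := by exact_mod_cast h3
    push_cast at h1
    have h5 : 2 * (N:ℝ) / P = (N:ℝ) / P + (N:ℝ) / P := by ring
    linarith
  have hmain : (X : ℝ) / G ≤ 2 * e0 * ((N:ℝ) / P + 2) * (1 / (cW P * Real.log w)) ^ r := by
    calc (X : ℝ) / G ≤ ((N:ℝ) / P + 2) / G := div_le_div_of_nonneg_right hXle hGpos.le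
      _ ≤ ((N:ℝ) / P + 2) / ((cW P * Real.log w) ^ r / (2 * e0)) := by
          apply div_le_div_of_nonneg_left (by positivity) (by positivity) hGlow
      _ = _ := by
        rw [div_pow, one_pow]
        field_simp
  -- the error term
  have herr : ∑ d ∈ S.divisors, (if (d : ℝ) ≤ y0 then
      (3 : ℝ) ^ (ArithmeticFunction.cardDistinctFactors d) * ∏ p ∈ d.primeFactors, ((Ω p).card : ℝ) else 0) ≤
      y0 ^ (2 * r + 1) := by
    have hterm : ∀ d ∈ S.divisors, (if (d : ℝ) ≤ y0 then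
      (3 : ℝ) ^ (ArithmeticFunction.cardDistinctFactors d) * ∏ p ∈ d.primeFactors, ((Ω p).card : ℝ) else 0) ≤
      if (d : ℝ) ≤ y0 then y0 ^ (2 * r) else 0 := by
      intro d hd
      split_ifs with hc
      · have hd0 : d ≠ 0 := (Nat.pos_of_mem_divisors hd).ne'
        have h1 : ArithmeticFunction.cardDistinctFactors d = d.primeFactors.card := by
          rw [ArithmeticFunction.cardDistinctFactors_apply]; rfl
        rw [h1]
        have h2 : ∏ p ∈ d.primeFactors, ((Ω p).card : ℝ) ≤ (r:ℝ) ^ d.primeFactors.card := by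
          rw [← Finset.prod_const]
          apply Finset.prod_le_prod (fun p _ => by positivity)
          intro p hp
          have hp' : p ∈ T := by
            rw [← hpf]
            exact Nat.primeFactors_mono (Nat.dvd_of_mem_divisors hd) hSpos.ne' hp
          rw [hΩcard p hp']
          exact_mod_cast (HL26.nu_le_card E p).trans hE.le
        calc (3 : ℝ) ^ d.primeFactors.card * ∏ p ∈ d.primeFactors, ((Ω p).card : ℝ)
            ≤ (3 : ℝ) ^ d.primeFactors.card * (r:ℝ) ^ d.primeFactors.card :=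
              mul_le_mul_of_nonneg_left h2 (by positivity)
          _ = (3 * r : ℝ) ^ d.primeFactors.card := by rw [mul_pow]
          _ ≤ (d : ℝ) ^ (2 * r) := HL26.pow_omega_le' r d hr hd0
          _ ≤ y0 ^ (2 * r) := pow_le_pow_left₀ (by positivity) hc _
      · exact le_refl _
    refine (Finset.sum_le_sum hterm).trans ?_
    rw [← Finset.sum_filter, Finset.sum_const, nsmul_eq_mul, pow_succ' y0 (2 * r)]
    apply mul_le_mul_of_nonneg_right _ (by positivity)
    have hsub : S.divisors.filter (fun d : ℕ => (d:ℝ) ≤ y0) ⊆ Finset.Ioc 0 ⌊y0⌋₊ := by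
      intro d hd
      rw [Finset.mem_filter] at hd
      rw [Finset.mem_Ioc]
      exact ⟨Nat.pos_of_mem_divisors hd.1, Nat.le_floor hd.2⟩
    have h1 := Finset.card_le_card hsub
    rw [Nat.card_Ioc, Nat.sub_zero] at h1
    calc (((S.divisors.filter (fun d : ℕ => (d:ℝ) ≤ y0)).card : ℕ) : ℝ) ≤ ((⌊y0⌋₊ : ℕ) : ℝ) := by exact_mod_cast h1
      _ ≤ y0 := Nat.floor_le (by linarith)
  -- the counts
  have hcount : ((Finset.Ioc N (2 * N)).filter (fun n => n ≡ a [MOD P] ∧
      ∀ e ∈ E, ∀ p : ℕ, p.Prime → p ∣ n + e → w < p)).card ≤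
      ((Finset.Ico (N / P) (N / P + X)).filter
      (fun n => ∀ p ∈ S.primeFactors, n % p ∉ Ω p)).card := by
    refine Finset.card_le_card_of_injOn (fun n => n / P) (fun n hn => ?_) (fun n hn n' hn' hnn' => ?_)
    · rw [Finset.mem_coe, Finset.mem_filter, Finset.mem_Ioc] at hn
      obtain ⟨⟨hn1, hn2⟩, hn3, hn4⟩ := hn
      rw [Finset.mem_coe, Finset.mem_filter, Finset.mem_Ico]
      have hX2 : N / P + X = 2 * N / P + 1 := by
        have : N / P ≤ 2 * N / P := Nat.div_le_div_right (by omega)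
        omega
      refine ⟨⟨Nat.div_le_div_right hn1.le, ?_⟩, fun p hp hcon => ?_⟩
      · rw [hX2]
        exact Nat.lt_succ_of_le (Nat.div_le_div_right hn2)
      · rw [hpf] at hp
        rw [hΩ, Finset.mem_filter] at hcon
        obtain ⟨_, e, he, hdvd⟩ := hcon
        have hna : n = P * (n / P) + a0 := by
          have h1 := Nat.div_add_mod n P
          have h2 : n % P = a0 := hn3
          omega
        have hdvd2 : p ∣ n + e := by
          have h1 : n + e = (P * (n / P % p) + a0 + e) + p * (P * (n / P / p)) := by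
            have h2 := Nat.mod_add_div (n / P) p
            calc n + e = P * (n / P) + a0 + e := by rw [← hna]
              _ = P * (n / P % p + p * (n / P / p)) + a0 + e := by rw [h2]
              _ = _ := by ring
          rw [h1]
          exact dvd_add hdvd (dvd_mul_right _ _)
        have h3 := hn4 e he p (hTp p hp) hdvd2
        have h4 := hTw p hp
        omega
    · rw [Finset.mem_coe, Finset.mem_filter] at hn hn'
      have h1 : n % P = n' % P := (hn.2.1).trans (hn'.2.1).symm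
      have h2 := Nat.div_add_mod n P
      have h3 := Nat.div_add_mod n' P
      simp only at hnn'
      rw [hnn', h1] at h2
      omega
  have hcount' : ((((Finset.Ioc N (2 * N)).filter (fun n => n ≡ a [MOD P] ∧
      ∀ e ∈ E, ∀ p : ℕ, p.Prime → p ∣ n + e → w < p)).card : ℕ) : ℝ) ≤
      (((Finset.Ico (N / P) (N / P + X)).filter
      (fun n => ∀ p ∈ S.primeFactors, n % p ∉ Ω p)).card : ℝ) := by exact_mod_cast hcount
  exact hcount'.trans (hsel.trans (add_le_add hmain herr))

end Pool.Agent.HLM26
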