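import Pool.Agent.HLM26.ClassMoment

/-!
# Adding up the residue classes
-/

open Filter

namespace Pool.Agent.HLM26

open Pool.Agent.Maynard
open Pool.Agent.HL26 (PPy PPy_prime nu SP SP_eq)

/-- classes of small mass can be dropped -/
lemma drop_small {ι : Type*} [Fintype ι] [DecidableEq ι] (μ : ι → ℝ) (hμ : ∀ i, 0 ≤ μ i) {β : ℝ} (hβ : 0 ≤ β)
    (hsum : ∑ i, μ i = Fintype.card ι * β) (hι : 0 < Fintype.card ι) (k : ℕ)
    [DecidablePred fun i => β / 2 ≤ μ i] :
    (1 / 2) * ∑ i, μ i ^ (k + 1) ≤ ∑ i ∈ Finset.univ.filter (fun i => β / 2 ≤ μ i), μ i ^ (k + 1) := by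
  have hc : (0:ℝ) < Fintype.card ι := by exact_mod_cast hι
  have h1 : (Fintype.card ι : ℝ) * β ^ (k + 1) ≤ ∑ i, μ i ^ (k + 1) := by
    have h3 := pow_sum_div_card_le_sum_pow (s := (Finset.univ : Finset ι)) (f := μ) (fun i _ => hμ i) k
    rw [hsum, Finset.card_univ] at h3
    refine le_trans (le_of_eq ?_) h3
    rw [mul_pow, pow_succ (Fintype.card ι : ℝ) k]
    field_simp
  have h2 : ∑ i ∈ Finset.univ.filter (fun i => ¬ β / 2 ≤ μ i), μ i ^ (k + 1) ≤
      (1 / 2) * ((Fintype.card ι : ℝ) * β ^ (k + 1)) := by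
    have h3 : ∑ i ∈ Finset.univ.filter (fun i => ¬ β / 2 ≤ μ i), μ i ^ (k + 1) ≤
        ∑ i : ι, (β / 2) ^ (k + 1) := by
      refine (Finset.sum_le_sum (g := fun _ => (β / 2) ^ (k + 1)) fun i hi => ?_).trans
        (Finset.sum_le_sum_of_subset_of_nonneg (Finset.subset_univ _) fun _ _ _ => by positivity)
      exact pow_le_pow_left₀ (hμ i) (not_le.1 (Finset.mem_filter.1 hi).2).le _
    refine h3.trans ?_
    rw [Finset.sum_const, Finset.card_univ, nsmul_eq_mul, div_pow, pow_succ (2:ℝ) k]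
    have h4 : (1:ℝ) ≤ 2 ^ k := one_le_pow₀ (by norm_num)
    have h5 : β ^ (k + 1) / (2 ^ k * 2) ≤ β ^ (k + 1) / 2 := by
      refine div_le_div_of_nonneg_left (by positivity) (by norm_num) ?_
      linarith
    calc (Fintype.card ι : ℝ) * (β ^ (k + 1) / (2 ^ k * 2)) ≤ (Fintype.card ι : ℝ) * (β ^ (k + 1) / 2) :=
          mul_le_mul_of_nonneg_left h5 hc.le
      _ = _ := by ring
  have h3 := Finset.sum_filter_add_sum_filter_not Finset.univ (fun i => β / 2 ≤ μ i) (fun i => μ i ^ (k + 1))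
  linarith

open Classical in
theorem total_lower (k : ℕ) : ∃ (K D y0 : ℕ) (c : ℝ), k + 1 ≤ K ∧ 0 < c ∧ ∀ A : ℕ, ∀ᶠ N : ℕ in atTop,
    ∀ y H : ℕ, y0 ≤ y → (y:ℝ) ≤ Real.log N →
    (Pr y : ℝ) ≤ (Real.log N) ^ A → 1 ≤ H → (H : ℝ) ≤ (Real.log N) ^ A →
    (2 * (K:ℝ)) ^ 3 * Real.log H / (y * Real.log y) ≤ 1 →
    ∀ B : Finset ℕ, 4 * (K:ℝ) ≤ B.card * cW (Pr y) → (∀ b ∈ B, b ≤ H) →
      c * (min (B.card / Real.log N) 1) ^ D * ((N:ℝ) / (Real.log N) ^ (k + 1)) *
        ∑ E ∈ B.powersetCard (k + 1), SP (PPy y) E ≤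
      ∑ E ∈ B.powersetCard (k + 1),
        (((Finset.Ioc N (2 * N)).filter (fun n => ∀ e ∈ E, Nat.Prime (n + e))).card : ℝ) := by
  obtain ⟨K, y0, c, hmK, hc, hmom⟩ := class_moment (k + 1) (by omega)
  refine ⟨K, K - (k + 1), y0, c / 2 ^ (K - (k + 1) + 1), hmK, by positivity, fun A => ?_⟩
  filter_upwards [hmom A, ev_log_ge 1, eventually_ge_atTop 3]
    with N hN hlog1 hN3 y H hy hyN hP hH1 hH htail B hBK hBH
  set D := K - (k + 1) with hD
  set P := Pr y with hPdef
  have hP0 : 0 < P := Pr_pos y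
  have hPr : (0:ℝ) < P := by exact_mod_cast hP0
  have : NeZero P := ⟨hP0.ne'⟩
  have : NeZero (∏ p ∈ PPy y, p) := ⟨hP0.ne'⟩
  have hcP := cW_pos hP0
  have hN0 : (0:ℝ) < N := by exact_mod_cast (show 0 < N by omega)
  set x := Real.log N with hx
  have hx0 : 0 < x := by linarith
  set U : ℝ := 1 / (cW P * x) with hU
  have hU0 : 0 < U := by positivity
  have hKr : (1:ℝ) ≤ K := by exact_mod_cast (by omega : 1 ≤ K)
  have hB0 : (0:ℝ) < B.card := by
    by_contra hcon
    push Not at hcon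
    have h1 : (B.card : ℝ) * cW P ≤ 0 := mul_nonpos_of_nonpos_of_nonneg hcon hcP.le
    linarith
  set β : ℝ := B.card / x with hβ
  have hβ0 : 0 < β := by positivity
  set Vc : ZMod P → Finset ℕ := fun c => B.filter (fun b : ℕ => IsUnit (c + (b : ZMod P))) with hVc
  set μ : ZMod P → ℝ := fun c => ((Vc c).card : ℝ) * U with hμ
  have hμ0 : ∀ c, 0 ≤ μ c := fun c => by positivity
  have hφ : (P.totient : ℝ) = cW P * P := by
    unfold cW; field_simp
  have hsum : ∑ c, μ c = Fintype.card (ZMod P) * β := by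
    have h1 := HL26.W_one P B
    unfold HL26.W at h1
    simp only [pow_one] at h1
    have h2 : ∑ c, μ c = (∑ c : ZMod P, (HL26.V P B c : ℝ)) * U := by
      rw [Finset.sum_mul]
      refine Finset.sum_congr rfl fun c _ => ?_
      rw [HL26.V_eq P B c]
    rw [h2, h1, ZMod.card, hφ, hU, hβ]
    field_simp
  have hdrop := drop_small μ hμ0 hβ0.le hsum (by rw [ZMod.card]; exact hP0) k
  -- the sum over classes
  have hfib : ∑ n ∈ Finset.Ioc N (2 * N), ((B.filter (fun b => Nat.Prime (n + b))).card.choose (k + 1) : ℝ) =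
      ∑ c : ZMod P, ∑ n ∈ (Finset.Ioc N (2 * N)).filter (fun n : ℕ => (n : ZMod P) = c),
        ((B.filter (fun b => Nat.Prime (n + b))).card.choose (k + 1) : ℝ) :=
    (Finset.sum_fiberwise _ _ _).symm
  have hclass : ∀ c0 : ZMod P, β / 2 ≤ μ c0 →
      c * ((N:ℝ) / P) * μ c0 ^ (k + 1) * (min β 1 / 2) ^ D ≤
      ∑ n ∈ (Finset.Ioc N (2 * N)).filter (fun n : ℕ => (n : ZMod P) = c0),
        ((B.filter (fun b => Nat.Prime (n + b))).card.choose (k + 1) : ℝ) := by
    intro c0 hc0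
    have hcard : 2 * K ≤ (Vc c0).card := by
      have h1 : β / 2 ≤ ((Vc c0).card : ℝ) * U := hc0
      have h2 : β / 2 * (cW P * x) ≤ ((Vc c0).card : ℝ) := by
        have h3 := mul_le_mul_of_nonneg_right h1 (show 0 ≤ cW P * x by positivity)
        refine h3.trans (le_of_eq ?_)
        rw [hU]
        field_simp
      have h3 : β / 2 * (cW P * x) = (B.card * cW P) / 2 := by
        rw [hβ]; field_simp
      rw [h3] at h2
      have h4 : ((2 * K : ℕ) : ℝ) ≤ ((Vc c0).card : ℝ) := by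
        push_cast
        linarith
      exact_mod_cast h4
    have h1 := hN y H hy hyN hP hH1 hH htail (Vc c0) hcard
      (fun b hb => hBH b (Finset.mem_filter.1 hb).1) c0.val (fun b hb => by
        rw [← ZMod.isUnit_iff_coprime]
        have h2 := (Finset.mem_filter.1 hb).2
        push_cast
        rw [ZMod.natCast_zmod_val]
        exact h2)
    have h2 : (min β 1 / 2) ^ D ≤ (min (μ c0) 1) ^ D := by
      have h3 : 0 ≤ min β 1 := le_min hβ0.le zero_le_one
      refine pow_le_pow_left₀ (by positivity) ?_ D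
      refine le_min ?_ ?_
      · have := min_le_left β 1
        linarith
      · have := min_le_right β 1
        linarith
    have h3 : c * ((N:ℝ) / P) * μ c0 ^ (k + 1) * (min β 1 / 2) ^ D ≤
        c * ((N:ℝ) / P) * μ c0 ^ (k + 1) * (min (μ c0) 1) ^ D :=
      mul_le_mul_of_nonneg_left h2 (by have := hμ0 c0; positivity)
    refine h3.trans (h1.trans ?_)
    have h4 : (Finset.Ioc N (2 * N)).filter (fun n => n ≡ c0.val [MOD P]) =
        (Finset.Ioc N (2 * N)).filter (fun n : ℕ => (n : ZMod P) = c0) := by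
      refine Finset.filter_congr fun n _ => ?_
      rw [← ZMod.natCast_eq_natCast_iff, ZMod.natCast_zmod_val]
    rw [h4]
    refine Finset.sum_le_sum fun n _ => ?_
    have h5 : ((Vc c0).filter (fun b => (n + b).Prime)).card ≤ (B.filter (fun b => Nat.Prime (n + b))).card := by
      refine Finset.card_le_card fun b hb => ?_
      rw [Finset.mem_filter] at hb ⊢
      exact ⟨(Finset.mem_filter.1 hb.1).1, hb.2⟩
    exact_mod_cast Nat.choose_le_choose (k + 1) h5
  have htot : c * ((N:ℝ) / P) * (min β 1 / 2) ^ D * ((1 / 2) * ∑ c, μ c ^ (k + 1)) ≤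
      ∑ n ∈ Finset.Ioc N (2 * N), ((B.filter (fun b => Nat.Prime (n + b))).card.choose (k + 1) : ℝ) := by
    have hmin0 : 0 ≤ min β 1 := le_min hβ0.le zero_le_one
    rw [hfib]
    refine (mul_le_mul_of_nonneg_left hdrop (by positivity)).trans ?_
    rw [Finset.mul_sum]
    refine le_trans (Finset.sum_le_sum (g := fun c0 => ∑ n ∈ (Finset.Ioc N (2 * N)).filter
        (fun n : ℕ => (n : ZMod P) = c0),
        ((B.filter (fun b => Nat.Prime (n + b))).card.choose (k + 1) : ℝ)) fun c0 hc0 => ?_) ?_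
    · refine le_trans (le_of_eq ?_) (hclass c0 (Finset.mem_filter.1 hc0).2)
      ring
    · exact Finset.sum_le_sum_of_subset_of_nonneg (Finset.subset_univ _) fun _ _ _ =>
        Finset.sum_nonneg fun _ _ => Nat.cast_nonneg _
  -- combinatorial identities
  have hcomb1 : ∑ n ∈ Finset.Ioc N (2 * N), ((B.filter (fun b => Nat.Prime (n + b))).card.choose (k + 1) : ℝ)
      = ∑ E ∈ B.powersetCard (k + 1),
        (((Finset.Ioc N (2 * N)).filter (fun n => ∀ e ∈ E, Nat.Prime (n + e))).card : ℝ) := by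
    have h1 := HL26.sum_choose_eq (Finset.Ioc N (2 * N)) B (fun n b => Nat.Prime (n + b)) (k + 1)
    have h2 : ∑ n ∈ Finset.Ioc N (2 * N), (B.filter (fun b => Nat.Prime (n + b))).card.choose (k + 1)
      = ∑ E ∈ B.powersetCard (k + 1),
        ((Finset.Ioc N (2 * N)).filter (fun n => ∀ e ∈ E, Nat.Prime (n + e))).card := by
      refine Eq.trans ?_ (h1.trans ?_)
      · refine Finset.sum_congr rfl fun n _ => ?_
        congr!
      · refine Finset.sum_congr rfl fun E _ => ?_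
        congr!
    exact_mod_cast h2
  have hcomb2 : ∑ E ∈ B.powersetCard (k + 1), ((∏ p ∈ PPy y, (p - nu E p) : ℕ) : ℝ)
      ≤ ∑ c : ZMod P, ((Vc c).card : ℝ) ^ (k + 1) := by
    have h1 := HL26.sum_choose_eq (Finset.univ : Finset (ZMod P)) B (fun c b => IsUnit (c + (b : ZMod P))) (k + 1)
    have h4 : ∑ E ∈ B.powersetCard (k + 1), (∏ p ∈ PPy y, (p - nu E p))
        = ∑ c : ZMod P, (Vc c).card.choose (k + 1) := by
      rw [hVc, h1]
      apply Finset.sum_congr rfl
      intro E _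
      exact (HL26.card_units_eq (PPy y) (PPy_prime y) E).symm
    have h5 : ∑ E ∈ B.powersetCard (k + 1), ((∏ p ∈ PPy y, (p - nu E p) : ℕ) : ℝ) =
        ∑ c : ZMod P, ((Vc c).card.choose (k + 1) : ℝ) := by exact_mod_cast h4
    rw [h5]
    refine Finset.sum_le_sum fun c _ => ?_
    exact_mod_cast Nat.choose_le_pow _ _
  have hμsum : P / x ^ (k + 1) * ∑ E ∈ B.powersetCard (k + 1), SP (PPy y) E ≤ ∑ c, μ c ^ (k + 1) := by
    have h1 : ∑ c, μ c ^ (k + 1) = U ^ (k + 1) * ∑ c : ZMod P, ((Vc c).card : ℝ) ^ (k + 1) := by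
      rw [Finset.mul_sum]
      refine Finset.sum_congr rfl fun c _ => ?_
      simp only [hμ]
      rw [mul_pow]
      ring
    have h2 : ∑ E ∈ B.powersetCard (k + 1), SP (PPy y) E = (1 / cW P) ^ (k + 1) * (1 / P) *
        ∑ E ∈ B.powersetCard (k + 1), ((∏ p ∈ PPy y, (p - nu E p) : ℕ) : ℝ) := by
      rw [Finset.mul_sum]
      refine Finset.sum_congr rfl fun E hE => ?_
      rw [SP_eq (PPy y) (PPy_prime y) E, (Finset.mem_powersetCard.mp hE).2]
      have h3 : ((∏ p ∈ PPy y, p : ℕ) : ℝ) / ((∏ p ∈ PPy y, p).totient : ℝ) = 1 / cW P := by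
        unfold cW
        rw [one_div_div]
        rfl
      rw [h3]
      change (1 / cW P) ^ (k + 1) * (((∏ p ∈ PPy y, (p - nu E p) : ℕ) : ℝ) / (P : ℝ)) = _
      ring
    rw [h1, h2]
    refine le_trans (le_of_eq ?_) (mul_le_mul_of_nonneg_left hcomb2 (show 0 ≤ U ^ (k + 1) by positivity))
    rw [hU, div_pow, div_pow, mul_pow, one_pow]
    field_simp
  rw [hcomb1] at htot
  refine le_trans ?_ htot
  have hmin0 : 0 ≤ min β 1 := le_min hβ0.le zero_le_one
  have e1 : c / 2 ^ (D + 1) * min β 1 ^ D * ((N:ℝ) / x ^ (k + 1)) * ∑ E ∈ B.powersetCard (k + 1), SP (PPy y) E =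
      c * ((N:ℝ) / P) * (min β 1 / 2) ^ D * ((1 / 2) *
        (P / x ^ (k + 1) * ∑ E ∈ B.powersetCard (k + 1), SP (PPy y) E)) := by
    rw [div_pow, pow_succ (2:ℝ) D]
    field_simp
  rw [e1]
  refine mul_le_mul_of_nonneg_left ?_ (by positivity)
  exact mul_le_mul_of_nonneg_left hμsum (by norm_num)

end Pool.Agent.HLM26
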