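import Pool.Agent.HLM26.Err

/-!
# A uniform Maynard–Tao theorem with almost prime tuples
-/

open Filter

namespace Pool.Agent.HLM26

open Pool.Agent.Maynard

/-- number of coloured primes for a rough tuple -/
lemma card_col_le {P : Finset ℕ} {k : ℕ} {W K0 R : ℕ} (hS : Setting P W K0 R) {h : Fin k → ℕ}
    (hsep : Sep P h) {n N z : ℕ} (hz : 2 ≤ z) (hn : ∀ i, n + h i ≤ 3 * N) (hn0 : 0 < n)
    (hr : ∀ p ∈ P, ∀ i, p ∣ n + h i → z < p) {w : ℝ}
    (hw : Real.log (3 * N : ℕ) ≤ w * Real.log z) :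
    ((Finset.univ.filter (fun p : P => JJ h n p ≠ none)).card : ℝ) ≤ k * w := by
  classical
  have hlogz : 0 < Real.log z := Real.log_pos (by exact_mod_cast (show 1 < z by omega))
  have h1 : (Finset.univ.filter (fun p : P => JJ h n p ≠ none)) ⊆
      Finset.univ.biUnion (fun i : Fin k => Finset.univ.filter (fun p : P => (p:ℕ) ∣ n + h i)) := by
    intro p hp
    simp only [Finset.mem_filter, Finset.mem_univ, true_and] at hp
    obtain ⟨i, hi⟩ := Option.ne_none_iff_exists.1 hp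
    simp only [Finset.mem_biUnion, Finset.mem_filter, Finset.mem_univ, true_and]
    exact ⟨i, (JJ_eq_some hsep n p i).1 hi⟩
  have h2 := (Finset.card_le_card h1).trans Finset.card_biUnion_le
  have h3 : ∀ i : Fin k, ((Finset.univ.filter (fun p : P => (p:ℕ) ∣ n + h i)).card : ℝ) ≤ w := by
    intro i
    set Q := Finset.univ.filter (fun p : P => (p:ℕ) ∣ n + h i) with hQ
    have h4 : ∏ p ∈ Q.map ⟨fun p : P => (p:ℕ), Subtype.val_injective⟩, p ∣ n + h i := by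
      refine Finset.prod_primes_dvd _ (fun p hp => ?_) (fun p hp => ?_)
      · rw [Finset.mem_map] at hp
        obtain ⟨q, _, rfl⟩ := hp
        exact (hS.prime q q.2).prime
      · rw [Finset.mem_map] at hp
        obtain ⟨q, hq, rfl⟩ := hp
        exact (Finset.mem_filter.1 hq).2
    have h5 : z ^ Q.card ≤ ∏ p ∈ Q.map ⟨fun p : P => (p:ℕ), Subtype.val_injective⟩, p := by
      rw [← Finset.card_map ⟨fun p : P => (p:ℕ), Subtype.val_injective⟩, ← Finset.prod_const]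
      refine Finset.prod_le_prod' fun p hp => ?_
      rw [Finset.mem_map] at hp
      obtain ⟨q, hq, rfl⟩ := hp
      exact (hr q q.2 i (Finset.mem_filter.1 hq).2).le
    have h6 : z ^ Q.card ≤ 3 * N :=
      h5.trans ((Nat.le_of_dvd (by omega) h4).trans (hn i))
    have h7 : (Q.card : ℝ) * Real.log z ≤ Real.log (3 * N : ℕ) := by
      rw [← Real.log_pow]
      refine Real.log_le_log ?_ (by exact_mod_cast h6)
      have : (0:ℝ) < z := by exact_mod_cast (show 0 < z by omega)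
      positivity
    exact le_of_mul_le_mul_right (h7.trans hw) hlogz
  have h4 : ((Finset.univ.filter (fun p : P => JJ h n p ≠ none)).card : ℝ) ≤
      ∑ i : Fin k, ((Finset.univ.filter (fun p : P => (p:ℕ) ∣ n + h i)).card : ℝ) := by
    exact_mod_cast h2
  refine h4.trans ((Finset.sum_le_sum fun i _ => h3 i).trans (le_of_eq ?_))
  rw [Finset.sum_const, Finset.card_univ, Fintype.card_fin, nsmul_eq_mul]

/-- The good integers. -/
def GoodN {k : ℕ} (m : ℕ) (z : ℝ) (h : Fin k → ℕ) (n : ℕ) : Prop :=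
  m ≤ npr h n ∧ ∀ i, ∀ p : ℕ, p.Prime → p ∣ n + h i → z < p

lemma kv_bounds {W : ℕ} {x : ℝ} {A : ℕ} (hW : 0 < W) (hx1 : 1 ≤ x) (hWA : (W:ℝ) ≤ x ^ A)
    (hll9 : 9 + 2 * A * Real.log x ≤ x ^ (1/4 : ℝ)) (hll1 : 1 + 2 * A * Real.log x ≤ x ^ (1/4 : ℝ)) :
    KV W / (cW W * x) * (x ^ (1/4 : ℝ)) ^ 2 ≤ 1 := by
  have hx0 : 0 < x := by linarith
  have hWpos : (0:ℝ) < W := by exact_mod_cast hW
  have hcWpos := cW_pos hW
  have hKVpos := KV_pos hW
  have hlogW : Real.log W ≤ A * Real.log x := by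
    have := Real.log_le_log hWpos hWA
    rwa [Real.log_pow] at this
  set y4 : ℝ := x ^ (1/4 : ℝ) with hy4
  have hy40 : 0 < y4 := by positivity
  have hKVle : KV W ≤ y4 := by
    refine le_trans ?_ hll9
    unfold KV KW
    linarith
  have hcWinv : (cW W)⁻¹ ≤ y4 := by
    refine (inv_cW_le hW).trans (le_trans ?_ hll1)
    linarith
  have hKVcW : KV W / cW W ≤ y4 ^ 2 := by
    rw [div_eq_mul_inv, sq]
    exact mul_le_mul hKVle hcWinv (by positivity) hy40.le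
  have hy4pow : y4 ^ 4 = x := by
    rw [hy4, ← Real.rpow_natCast, ← Real.rpow_mul hx0.le]
    norm_num
  rw [← div_div, ← hy4pow, div_mul_eq_mul_div, div_le_one (by positivity)]
  calc KV W / cW W * y4 ^ 2 ≤ y4 ^ 2 * y4 ^ 2 := mul_le_mul_of_nonneg_right hKVcW (by positivity)
    _ = y4 ^ 4 := by ring

lemma root_le {C x : ℝ} (hx0 : 0 < x) (hCx : C ^ 4 + 1 ≤ x) : C ≤ x ^ (1/4 : ℝ) := by
  have hy40 : 0 < x ^ (1/4 : ℝ) := by positivity
  have hy4pow : (x ^ (1/4 : ℝ)) ^ 4 = x := by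
    rw [← Real.rpow_natCast, ← Real.rpow_mul hx0.le]
    norm_num
  by_contra hcon
  push Not at hcon
  have := pow_lt_pow_left₀ hcon hy40.le (show 4 ≠ 0 by norm_num)
  rw [hy4pow] at this
  linarith

lemma ratio_le' {W Z : ℕ} {x c : ℝ} (hW : 0 < W) (hZ : 2 ≤ Z) (hx0 : 0 < x)
    (hZx : x ≤ c * Real.log Z) : KV W / (cW W * Real.log Z) ≤ c * (KV W / (cW W * x)) := by
  have hcWpos := cW_pos hW
  have hKVpos := KV_pos hW
  have hlogZpos : 0 < Real.log Z := Real.log_pos (by exact_mod_cast (show 1 < Z by omega))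
  rw [div_le_iff₀ (by positivity)]
  have e : c * (KV W / (cW W * x)) * (cW W * Real.log Z) =
      KV W * ((c * Real.log Z) / x) := by
    field_simp
  rw [e]
  have : 1 ≤ (c * Real.log Z) / x := by
    rw [le_div_iff₀ hx0]; linarith
  exact le_mul_of_one_le_right hKVpos.le this

/-- algebraic part of the lower bound -/
lemma mass_lower {k : ℕ} (hk : 0 < k) {m : ℕ} {A0 : Finset ℕ} {g : ℕ → ℝ} (hg0 : ∀ n, 0 ≤ g n)
    {h : Fin k → ℕ} {ℓ x X Sk lZ δ H : ℝ} (hℓ0 : 0 < ℓ) (hℓ2 : ℓ ≤ 2 * x) (hx0 : 0 < x)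
    (hX0 : 0 < X) (hSk0 : 0 < Sk) (hH : 1 ≤ H) (hδ0 : 0 < δ)
    (hone : ∑ n ∈ A0, g n ≤ 3 * X * Sk)
    (hS2' : ∀ i : Fin k, X * (1 / 8) * lZ * H ^ 2 * Sk ≤ ∑ n ∈ A0, tht (n + h i) * g n)
    (hlZ : δ * x / (18 * k * H) ≤ lZ) (hTge : 864 * ((m:ℝ) + 1) ≤ H * δ)
    (hth : ∀ n ∈ A0, ∀ i, n + h i ≠ 0 → Real.log (n + h i : ℕ) ≤ ℓ) :
    3 * X * Sk ≤ k * ∑ n ∈ A0, (if m ≤ npr h n then g n else 0) := by
  have hkpos : (0:ℝ) < k := by exact_mod_cast hk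
  have hH0 : 0 < H := by linarith
  have hcomb : ∑ i : Fin k, ∑ n ∈ A0, tht (n + h i) * g n ≤ ℓ * ∑ n ∈ A0, (npr h n : ℝ) * g n := by
    rw [Finset.sum_comm, Finset.mul_sum]
    refine Finset.sum_le_sum fun n hn => ?_
    rw [← Finset.sum_mul]
    have h1 : ∑ i : Fin k, tht (n + h i) ≤ ℓ * (npr h n : ℝ) := by
      unfold npr
      rw [mul_comm, ← nsmul_eq_mul, ← Finset.sum_const, Finset.sum_filter]
      refine Finset.sum_le_sum fun i _ => ?_
      unfold tht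
      split_ifs with hp
      · exact hth n hn i hp.ne_zero
      · exact le_rfl
    calc (∑ i : Fin k, tht (n + h i)) * g n ≤ (ℓ * (npr h n : ℝ)) * g n :=
          mul_le_mul_of_nonneg_right h1 (hg0 n)
      _ = _ := by ring
  have hmain : 3 * ((m:ℝ) + 1) * (X * Sk) ≤ ∑ n ∈ A0, (npr h n : ℝ) * g n := by
    have h1 : (k:ℝ) * (X * (1 / 8) * lZ * H ^ 2 * Sk) ≤
        ∑ i : Fin k, ∑ n ∈ A0, tht (n + h i) * g n := by
      calc (k:ℝ) * (X * (1 / 8) * lZ * H ^ 2 * Sk) =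
            ∑ _i : Fin k, (X * (1 / 8) * lZ * H ^ 2 * Sk) := by
            rw [Finset.sum_const, Finset.card_univ, Fintype.card_fin, nsmul_eq_mul]
        _ ≤ _ := Finset.sum_le_sum fun i _ => hS2' i
    have h2 := h1.trans hcomb
    have h4 : 3 * ((m:ℝ) + 1) * (X * Sk) * ℓ ≤
        (k:ℝ) * (X * (1 / 8) * lZ * H ^ 2 * Sk) := by
      have e2 : (k:ℝ) * (X * (1 / 8) * (δ * x / (18 * k * H)) * H ^ 2 * Sk) =
          X * Sk * x * (H * δ) / 144 := by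
        field_simp
        ring
      have e3 : (k:ℝ) * (X * (1 / 8) * (δ * x / (18 * k * H)) * H ^ 2 * Sk) ≤
          (k:ℝ) * (X * (1 / 8) * lZ * H ^ 2 * Sk) := by gcongr
      have e4 : 3 * ((m:ℝ) + 1) * (X * Sk) * ℓ ≤ 3 * ((m:ℝ) + 1) * (X * Sk) * (2 * x) := by gcongr
      have e5 : X * Sk * x * (864 * ((m:ℝ) + 1)) ≤ X * Sk * x * (H * δ) := by gcongr
      rw [e2] at e3
      linarith
    have h5 : ℓ * (3 * ((m:ℝ) + 1) * (X * Sk)) ≤ ℓ * ∑ n ∈ A0, (npr h n : ℝ) * g n := by linarith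
    exact le_of_mul_le_mul_left h5 hℓ0
  set U := ∑ n ∈ A0, (if m ≤ npr h n then g n else 0) with hU
  have h1 : ∑ n ∈ A0, (npr h n : ℝ) * g n ≤ k * U + m * ∑ n ∈ A0, g n := by
    rw [hU, Finset.mul_sum, Finset.mul_sum, ← Finset.sum_add_distrib]
    refine Finset.sum_le_sum fun n _ => ?_
    have hgn := hg0 n
    split_ifs with hc
    · have : (npr h n : ℝ) ≤ k := by exact_mod_cast npr_le h n
      have h2 : (npr h n : ℝ) * g n ≤ k * g n := mul_le_mul_of_nonneg_right this hgn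
      have h3 : 0 ≤ (m:ℝ) * g n := by positivity
      linarith
    · have : (npr h n : ℝ) ≤ m := by exact_mod_cast (by omega : npr h n ≤ m)
      have h2 : (npr h n : ℝ) * g n ≤ m * g n := mul_le_mul_of_nonneg_right this hgn
      linarith
  have h2 : (m:ℝ) * ∑ n ∈ A0, g n ≤ m * (3 * X * Sk) :=
    mul_le_mul_of_nonneg_left hone (Nat.cast_nonneg m)
  linarith

/-- prime-weighted sum, lower bound -/
lemma theta_lower {P : Finset ℕ} {k W K0 Z T M A : ℕ} (hS : Setting P W K0 (Z ^ M)) (hW : 0 < W)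
    (hk : 2 ≤ k) (hT1 : 1 ≤ T) (hTk : T ≤ k) (hM : 8 * (k:ℝ) * hT T ≤ M)
    (hK0 : 2 ^ (k + 10) * k ≤ K0) (hZ : 2 ≤ Z) (hR : Z ^ T ≤ Z ^ M)
    (hZK : 64 * (k:ℝ) * KV W ≤ cW W * Real.log Z) (hlogZ1 : 1 ≤ Real.log Z)
    {h : Fin k → ℕ} (hsep : Sep P h) {N a : ℕ} (hN0 : 0 < N) (hRN : Z ^ M ≤ N) (i : Fin k)
    (ha : (a + h i).Coprime W) {x : ℝ} (hx8 : 8 ≤ x) (hWA : (W:ℝ) ≤ x ^ A)
    (herr : L0 P k ^ 2 * ∑ B : P → Bool, FB P N (h i) W (Z ^ M * Z ^ M) B *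
        pm (fun _ => (2 * (k:ℝ) + 1) ^ 2) B ≤ N / x ^ (A + 1)) :
    (N:ℝ) / W * (1 / 8) * Real.log Z * hT T ^ 2 * SS k W Z T ≤
      ∑ n ∈ (Finset.Ioc N (2 * N)).filter (fun n => n ≡ a [MOD W]),
        tht (n + h i) * GG (cc Z T M) (JJ (P := P) h n) ^ 2 := by
  obtain ⟨_, hmod2⟩ := model_bounds (P := P) (M := M) (T := T) (k := k) hS hW hk hT1
    hTk hM hK0 hZ hR hZK
  have hNr : (0:ℝ) < N := by exact_mod_cast hN0
  have hWpos : (0:ℝ) < W := by exact_mod_cast hW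
  have hk' : (2:ℝ) ≤ k := by exact_mod_cast hk
  have hx0 : 0 < x := by linarith
  have hh1 := hT_ge_one (T := T) (by omega)
  have hcWpos := cW_pos hW
  set D := cW W * Real.log Z with hD
  have hG1 := gT2_ge_one (T := T) (by omega)
  have hG2 := gT2_le_two T
  have hKV1 : 1 ≤ KV W := by
    unfold KV
    have := KW_pos hW
    linarith
  have hD1 : 1 ≤ D := by
    refine le_trans ?_ hZK
    have h1 := mul_le_mul (show (1:ℝ) ≤ 64 * k by linarith) hKV1 zero_le_one (by positivity)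
    rwa [one_mul] at h1
  set Sk := SS k W Z T with hSk
  have hSk1 : 1 ≤ Sk := by
    rw [hSk]; unfold SS
    rw [← hD]
    refine one_le_pow₀ ?_
    exact one_le_mul_of_one_le_of_one_le hD1 hG1
  have hSksplit : Sk = SS (k - 1) W Z T * (D * gT2 T) := by
    rw [hSk]; unfold SS
    rw [← hD, ← pow_succ]
    congr 1
    omega
  set X : ℝ := (N:ℝ) / W with hX
  have hX0 : 0 < X := by positivity
  have h1 := sum_theta_ge (T := T) hS hZ hsep hRN i ha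
  have h3 := hmod2 i
  have htot : (0:ℝ) < Nat.totient W := by exact_mod_cast Nat.totient_pos.2 hW
  have h4 : (N:ℝ) / Nat.totient W * (1 / 2 * D ^ 2 * hT T ^ 2 * SS (k - 1) W Z T) ≤
      (N:ℝ) / Nat.totient W * EG (fun p : P => w2 i (p:ℕ)) (cc Z T M) :=
    mul_le_mul_of_nonneg_left h3 (by positivity)
  have hSk10 : 0 ≤ SS (k - 1) W Z T := by unfold SS; rw [← hD]; positivity
  have h5 : X * (1 / 4) * Real.log Z * hT T ^ 2 * Sk ≤
      (N:ℝ) / Nat.totient W * (1 / 2 * D ^ 2 * hT T ^ 2 * SS (k - 1) W Z T) := by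
    have e1 : (N:ℝ) / Nat.totient W * D = X * Real.log Z := by
      rw [hD, hX]; unfold cW
      field_simp
    have e2 : (N:ℝ) / Nat.totient W * (1 / 2 * D ^ 2 * hT T ^ 2 * SS (k - 1) W Z T) =
        (X * Real.log Z) * (1 / 2) * hT T ^ 2 * (SS (k - 1) W Z T * D) := by
      rw [← e1]; ring
    rw [e2, hSksplit]
    have e3 : SS (k - 1) W Z T * (D * gT2 T) ≤ 2 * (SS (k - 1) W Z T * D) := by
      have : 0 ≤ SS (k - 1) W Z T * D := by positivity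
      have h6 := mul_le_mul_of_nonneg_left hG2 this
      linarith only [h6]
    have e4 : 0 ≤ X * (1 / 4) * Real.log Z * hT T ^ 2 := by positivity
    calc X * (1 / 4) * Real.log Z * hT T ^ 2 * (SS (k - 1) W Z T * (D * gT2 T))
        ≤ X * (1 / 4) * Real.log Z * hT T ^ 2 * (2 * (SS (k - 1) W Z T * D)) :=
          mul_le_mul_of_nonneg_left e3 e4
      _ = _ := by ring
  have h6 : (N:ℝ) / x ^ (A + 1) ≤ X * (1 / 8) * Real.log Z * hT T ^ 2 * Sk := by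
    have e1 : (N:ℝ) / x ^ (A + 1) ≤ X * (1 / 8) := by
      rw [hX, div_mul_eq_mul_div, div_le_div_iff₀ (by positivity) hWpos, pow_succ]
      have e5 : 8 * (W:ℝ) ≤ x ^ A * x := by
        calc 8 * (W:ℝ) ≤ x * x ^ A := mul_le_mul hx8 hWA hWpos.le hx0.le
          _ = _ := by ring
      have e6 := mul_le_mul_of_nonneg_left e5 (Nat.cast_nonneg (α := ℝ) N)
      linarith only [e6]
    have e2 : 1 ≤ Real.log Z * hT T ^ 2 * Sk := by
      have : 1 ≤ hT T ^ 2 := one_le_pow₀ hh1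
      have : 1 ≤ Real.log Z * hT T ^ 2 := one_le_mul_of_one_le_of_one_le hlogZ1 this
      exact one_le_mul_of_one_le_of_one_le this hSk1
    calc (N:ℝ) / x ^ (A + 1) ≤ X * (1 / 8) := e1
      _ = X * (1 / 8) * 1 := by ring
      _ ≤ X * (1 / 8) * (Real.log Z * hT T ^ 2 * Sk) := by gcongr
      _ = _ := by ring
  have h7 : X * (1 / 4) * Real.log Z * hT T ^ 2 * Sk =
      2 * (X * (1 / 8) * Real.log Z * hT T ^ 2 * Sk) := by ring
  linarith

lemma A2h_pow_le {P : Finset ℕ} {k W K0 R Z T : ℕ} (hS : Setting P W K0 R) (hW : 0 < W) (hk : 2 ≤ k)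
    (hT1 : 1 ≤ T) (hK0 : 2 ^ (k + 10) * k ≤ K0) (hZ : 2 ≤ Z)
    (hZK : 64 * (k:ℝ) * KV W ≤ cW W * Real.log Z) :
    A2h P Z T ^ k ≤ 2 * (cW W * Real.log Z * hT T) ^ k := by
  have hk' : (2:ℝ) ≤ k := by exact_mod_cast hk
  have hkpos : (0:ℝ) < k := by linarith
  set D := cW W * Real.log Z with hD
  have hKVpos := KV_pos hW
  have hDpos : 0 < D := lt_of_lt_of_le (by positivity) hZK
  have hh1 := hT_ge_one hT1
  have hh0 : 0 < hT T := by linarith
  set η : ℝ := 1 / (16 * k) with hη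
  have hηpos : 0 < η := by positivity
  have h2k : k + 1 ≤ 2 ^ k := Nat.lt_two_pow_self
  have h2kr : (k:ℝ) + 1 ≤ 2 ^ k := by exact_mod_cast h2k
  have hK1 : 1024 * (2 ^ k * k) ≤ K0 := by
    have : 2 ^ (k + 10) * k = 1024 * (2 ^ k * k) := by rw [pow_add]; ring
    omega
  have hK0r : (1024:ℝ) * (2 ^ k * k) ≤ K0 := by exact_mod_cast hK1
  have hK0pos : (0:ℝ) < K0 := lt_of_lt_of_le (by positivity) hK0r
  have hK16 : 16 ≤ K0 := by nlinarith
  have hKV1' : KV W ≤ D * (1 / (64 * k)) := by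
    rw [mul_one_div, le_div_iff₀ (by positivity)]
    linarith
  have hcU : cellU W K0 Z ≤ (1 + η) * D := by
    unfold cellU
    rw [← hD]
    have e1 : 32 / (K0:ℝ) ≤ 1 / (64 * k) := by
      rw [div_le_div_iff₀ hK0pos (by positivity)]
      nlinarith
    have e0 : (1:ℝ) / (64 * k) ≤ 1 / 128 :=
      one_div_le_one_div_of_le (by norm_num) (by linarith)
    have e3 : D * (1 / (64 * k)) * 4 = η * D := by
      rw [hη]; field_simp; norm_num
    have e4 : 0 < (1:ℝ) / (64 * k) := by positivity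
    calc (D + KV W) * (1 + 32 / K0) ≤ (D + D * (1 / (64 * k))) * (1 + 1 / (64 * k)) := by
          gcongr
      _ ≤ D + D * (1 / (64 * k)) * 4 := by nlinarith [mul_pos hDpos e4]
      _ = (1 + η) * D := by rw [e3]; ring
  have h1 : A2h P Z T ≤ (1 + η) * (D * hT T) := by
    refine (A2h_le hS hW hK16 hZ).trans ?_
    calc hT T * cellU W K0 Z ≤ hT T * ((1 + η) * D) := by gcongr
      _ = _ := by ring
  have hA2h0 : 0 ≤ A2h P Z T := (A2_nonneg P Z T).trans (A2_le_A2h P Z T)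
  refine (pow_le_pow_left₀ hA2h0 h1 k).trans ?_
  rw [mul_pow]
  have e2 := pow_eta (k := k) (n := k) hηpos (by rw [hη]; field_simp) le_rfl
  have : 0 ≤ (D * hT T) ^ k := by positivity
  nlinarith

/-- The bad part is small. -/
lemma bad_small {P : Finset ℕ} {k W K0 Z T M : ℕ} (hS : Setting P W K0 (Z ^ M)) (hW : 0 < W)
    (hk : 2 ≤ k) (hT1 : 1 ≤ T) (hK0 : K0 = 2 ^ (k + 10) * k * k) (hZ : 2 ≤ Z)
    (hZK : 64 * (k:ℝ) * KV W ≤ cW W * Real.log Z)
    {h : Fin k → ℕ} (hsep : Sep P h) {N a z : ℕ} (hz : 1 ≤ z) (hzZ : z ≤ Z) (hM0 : 0 < M)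
    (hRN : Z ^ M ≤ N) {x : ℝ} (hx : x = Real.log N) (hx1 : 8 ≤ x)
    (hS2 : (5 + 4 * Real.log 3) + 4 * Real.log x ≤ x ^ (1/4 : ℝ))
    (hz1 : 128 * (k:ℝ) ^ 2 * (k + 1) * Real.log z ≤ Real.log Z)
    (hz2 : 128 * (k:ℝ) ^ 2 * (k + 1) * Real.log 4 ≤ Real.log Z)
    (hKx : 64 * (k:ℝ) ^ 2 * (k + 1) * (KV W / (cW W * Real.log Z) * x ^ (1/4 : ℝ)) ≤ 1)
    (hE : (k:ℝ) * z * ((Z:ℝ) ^ M * LL (Z ^ M) ^ (4 * k)) ^ 2 * (4 * k) ≤ (N:ℝ) / W)
    (hSk1 : 1 ≤ SS k W Z T) :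
    ∑ n ∈ (Finset.Ioc N (2 * N)).filter (fun n => n ≡ a [MOD W]),
        (if ∃ p ∈ P, p ≤ z ∧ ∃ i, p ∣ n + h i then GG (cc Z T M) (JJ (P := P) h n) ^ 2 else 0) ≤
      (N:ℝ) / W * SS k W Z T / k := by
  have hk' : (2:ℝ) ≤ k := by exact_mod_cast hk
  have hkpos : (0:ℝ) < k := by linarith
  have hK0le : 2 ^ (k + 10) * k ≤ K0 := by
    rw [hK0]; exact Nat.le_mul_of_pos_right _ (by omega)
  have hx0 : 0 < x := by linarith
  have hcWpos := cW_pos hW
  have hKVpos := KV_pos hW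
  have hlogZpos : 0 < Real.log Z := Real.log_pos (by exact_mod_cast (show 1 < Z by omega))
  have hZR : Z ≤ Z ^ M := Nat.le_self_pow (by omega) Z
  have hzR : z ≤ Z ^ M := hzZ.trans hZR
  have hS1b : ∑ p ∈ P.filter (· ≤ z), Real.log p / p ≤ Real.log z + Real.log 4 := by
    refine le_trans ?_ (HL26.sum_log_div_le z hz)
    refine Finset.sum_le_sum_of_subset_of_nonneg ?_ fun p _ _ =>
      div_nonneg (Real.log_natCast_nonneg p) (Nat.cast_nonneg p)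
    intro p hp
    obtain ⟨hp1, hp2⟩ := Finset.mem_filter.1 hp
    unfold HL26.PPy
    exact Finset.mem_filter.2 ⟨Finset.mem_range.2 (by omega), hS.prime p hp1⟩
  have hS2b : ∑ p ∈ P.filter (· ≤ z), 1 / (p:ℝ) ≤ x ^ (1/4 : ℝ) := by
    have h1 : ∑ p ∈ P.filter (· ≤ z), 1 / (p:ℝ) ≤ ∑ p ∈ P, 1 / (p:ℝ) :=
      Finset.sum_le_sum_of_subset_of_nonneg (Finset.filter_subset _ _) fun _ _ _ => by positivity
    refine h1.trans ((sum_inv_primes_le hS.prime hS.le).trans (le_trans ?_ hS2))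
    have h2 : (Nat.log 2 (Z ^ M) : ℝ) ≤ 2 * x := by
      have h4 : ((2 ^ Nat.log 2 (Z ^ M) : ℕ) : ℝ) ≤ N := by
        have : Z ^ M ≠ 0 := pow_ne_zero _ (by omega)
        exact_mod_cast (Nat.pow_log_le_self 2 this).trans hRN
      push_cast at h4
      have h5 := Real.log_le_log (by positivity) h4
      rw [Real.log_pow, ← hx] at h5
      have h6 := Real.log_two_gt_d9
      have h7 : (0:ℝ) ≤ (Nat.log 2 (Z ^ M) : ℝ) := Nat.cast_nonneg _
      have h8 := mul_le_mul_of_nonneg_left h6.le h7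
      linarith only [h5, h7, h8]
    have h3 : Real.log ((Nat.log 2 (Z ^ M) : ℝ) + 1) ≤ Real.log 3 + Real.log x := by
      rw [← Real.log_mul (by norm_num) hx0.ne']
      refine Real.log_le_log (by positivity) ?_
      linarith
    linarith
  have hbad := sum_GG_bad (T := T) (M := M) hS hW hk hT1 hK0le hZ hZK hsep N a z hzZ hS1b hS2b
  refine hbad.trans ?_
  set Sk := SS k W Z T with hSk
  set X : ℝ := (N:ℝ) / W with hX
  have hX0 : 0 ≤ X := by positivity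
  set D := cW W * Real.log Z with hD
  have f1 : 16 * (k:ℝ) ^ 2 * (k + 1) * ((Real.log z + Real.log 4) / Real.log Z) ≤ 1 / 4 := by
    rw [← mul_div_assoc, div_le_iff₀ hlogZpos]
    linarith
  have f2 : 16 * (k:ℝ) ^ 2 * (k + 1) * (KV W / D * x ^ (1/4 : ℝ)) ≤ 1 / 4 := by linarith
  have f3 : 16 * (k:ℝ) ^ 2 * (k + 1) * (8 * (k:ℝ) ^ 2 / (K0:ℝ) ^ 2) ≤ 1 / 4 := by
    have h2k : k + 1 ≤ 2 ^ k := Nat.lt_two_pow_self
    have h2kr : (k:ℝ) + 1 ≤ 2 ^ k := by exact_mod_cast h2k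
    have e1 : (K0:ℝ) = 1024 * 2 ^ k * k ^ 2 := by
      rw [hK0]; push_cast; rw [pow_add]; ring
    rw [e1]
    have e2 : 16 * (k:ℝ) ^ 2 * (k + 1) * (8 * (k:ℝ) ^ 2 / (1024 * 2 ^ k * k ^ 2) ^ 2) =
        (k + 1) / (8192 * (2 ^ k * 2 ^ k)) := by
      field_simp
      norm_num
    rw [e2, div_le_div_iff₀ (by positivity) (by norm_num)]
    have e3 : (1:ℝ) ≤ 2 ^ k := one_le_pow₀ (by norm_num)
    have e4 := mul_le_mul_of_nonneg_right e3 (show (0:ℝ) ≤ 2 ^ k by positivity)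
    linarith only [e3, e4, h2kr]
  have f4 : (k:ℝ) * z * ((Z:ℝ) ^ M * LL (Z ^ M) ^ (4 * k)) ^ 2 ≤ X * Sk / k * (1 / 4) := by
    have f6 : X * Sk / k * (1 / 4) = X * Sk / (4 * k) := by field_simp
    rw [f6, le_div_iff₀ (by positivity)]
    exact hE.trans (le_mul_of_one_le_right hX0 hSk1)
  have f5 : X * (16 * (k:ℝ) * (k + 1) * Sk) *
      ((Real.log z + Real.log 4) / Real.log Z + KV W / D * x ^ (1/4 : ℝ) +
        8 * (k:ℝ) ^ 2 / (K0:ℝ) ^ 2) ≤ X * Sk / k * (3 / 4) := by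
    have e1 : X * (16 * (k:ℝ) * (k + 1) * Sk) *
      ((Real.log z + Real.log 4) / Real.log Z + KV W / D * x ^ (1/4 : ℝ) +
        8 * (k:ℝ) ^ 2 / (K0:ℝ) ^ 2) =
      X * Sk / k * (16 * (k:ℝ) ^ 2 * (k + 1) * ((Real.log z + Real.log 4) / Real.log Z) +
        16 * (k:ℝ) ^ 2 * (k + 1) * (KV W / D * x ^ (1/4 : ℝ)) +
        16 * (k:ℝ) ^ 2 * (k + 1) * (8 * (k:ℝ) ^ 2 / (K0:ℝ) ^ 2)) := by
      field_simp
    rw [e1]
    refine mul_le_mul_of_nonneg_left ?_ (by positivity)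
    linarith
  linarith

/-- The final extraction of the count. -/
lemma count_lower {k : ℕ} (hk : 2 ≤ k) {Gd : Finset ℕ} {g : ℕ → ℝ} {X Sk D H cx : ℝ} {ω0 : ℕ}
    (hX0 : 0 < X) (hD : 1 ≤ D) (hH : 1 ≤ H) (hDk : D ^ k ≤ Sk) (hDcx : D ≤ cx)
    (hgood : 2 * X * Sk / k ≤ ∑ n ∈ Gd, g n)
    (hgle : ∀ n ∈ Gd, g n ≤ 4 ^ (ω0 + 1) * (D * H) ^ (2 * k)) :
    1 / (2 * k * 4 ^ ω0 * H ^ (2 * k)) * X / cx ^ k ≤ (Gd.card : ℝ) := by
  have hkpos : (0:ℝ) < k := by exact_mod_cast (show 0 < k by omega)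
  have hD0 : 0 < D := by linarith
  have hH0 : 0 < H := by linarith
  have hfin : 2 * X * Sk / k ≤ Gd.card * (4 ^ (ω0 + 1) * (D * H) ^ (2 * k)) := by
    refine hgood.trans ((Finset.sum_le_sum hgle).trans (le_of_eq ?_))
    rw [Finset.sum_const, nsmul_eq_mul]
  have h1 : 2 * X * D ^ k / k ≤ Gd.card * (4 ^ (ω0 + 1) * (D * H) ^ (2 * k)) := by
    refine le_trans ?_ hfin
    gcongr
  have h2 : X / (2 * k * 4 ^ ω0 * H ^ (2 * k) * D ^ k) ≤ (Gd.card : ℝ) := by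
    rw [div_le_iff₀ (by positivity)]
    rw [div_le_iff₀ hkpos] at h1
    have e1 : (Gd.card : ℝ) * (4 ^ (ω0 + 1) * (D * H) ^ (2 * k)) * k =
        D ^ k * 2 * (Gd.card * (2 * k * 4 ^ ω0 * H ^ (2 * k) * D ^ k)) := by
      rw [mul_pow, pow_succ, two_mul k, pow_add]
      ring
    rw [e1] at h1
    have e2 : 2 * X * D ^ k = D ^ k * 2 * X := by ring
    rw [e2] at h1
    exact le_of_mul_le_mul_left h1 (by positivity)
  refine le_trans (le_of_eq ?_) (le_trans (?_ : X / (2 * k * 4 ^ ω0 * H ^ (2 * k) * cx ^ k) ≤ _) h2)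
  · field_simp
  · have hcx : D ^ k ≤ cx ^ k := pow_le_pow_left₀ hD0.le hDcx k
    gcongr


end Pool.Agent.HLM26
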