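import Pool.Agent.HLM26.Uniform

/-!
# A uniform Maynard–Tao theorem with almost prime tuples: assembly
-/

open Filter

namespace Pool.Agent.HLM26

open Pool.Agent.Maynard

/-- The statement for fixed numerical data. -/
lemma uniform_core {m k M L K0 A : ℕ} {θ δ ρ : ℝ} (hδθ : δ = θ / 4) (hθ : 0 < θ) (hθ2 : θ ≤ 1 / 2)
    (hk : 2 ≤ k) (hM : 8 * (k:ℝ) * hT k ≤ M) (hMle : (M:ℝ) ≤ 9 * k * hT k)
    (hL : L = 256 * k ^ 2 * (k + 1)) (hρ : ρ = δ / ((M * L : ℕ) : ℝ))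
    (hK0 : K0 = 2 ^ (k + 10) * k * k) (hTge : 864 * ((m:ℝ) + 1) ≤ hT k * δ)
    {ω0 : ℕ} (hω0 : (k:ℝ) * (4 * ((M * L : ℕ) : ℝ) / δ) ≤ ω0) {N : ℕ} (hN3 : 3 ≤ N)
    {x : ℝ} (hx : x = Real.log N)
    (hZZ : 2 ≤ ZZ δ M N ∧ δ / (2 * M) * x ≤ Real.log (ZZ δ M N))
    (hZZ2 : 2 ≤ ZZ δ (M * L) N ∧ δ / (2 * ((M * L : ℕ) : ℝ)) * x ≤ Real.log (ZZ δ (M * L) N))
    {W : ℕ} (hW : 0 < W) (hWA : (W:ℝ) ≤ x ^ A) (hWp : ∀ p, p.Prime → p < K0 → p ∣ W)
    {h : Fin k → ℕ} (hsh : ∀ i, h i ≤ N)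
    (hsep : ∀ p, p.Prime → ¬ p ∣ W → ∀ i j, i ≠ j → ¬ (h i ≡ h j [MOD p]))
    {a : ℕ} (ha : ∀ i, (a + h i).Coprime W)
    (herr : ∀ s : ℕ, s ≤ N → ∀ (P : Finset ℕ) (K0 R : ℕ), Setting P W K0 R →
      R ≤ N → W * (R * R) ≤ N → W * (R * R) ≤ ⌊((3 * N : ℕ):ℝ) ^ θ⌋₊ →
      L0 P k ^ 2 * ∑ B : P → Bool, FB P N s W (R * R) B * pm (fun _ => (2 * (k:ℝ) + 1) ^ 2) B ≤
        N / x ^ (A + 1))
    (hll9 : 9 + 2 * A * Real.log x ≤ x ^ (1/4 : ℝ)) (hll1 : 1 + 2 * A * Real.log x ≤ x ^ (1/4 : ℝ))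
    (hLLk : LL N ^ (4 * k) ≤ (N:ℝ) ^ (1 / 8 : ℝ)) (hWθ' : x ^ A ≤ (N:ℝ) ^ (θ / 2))
    (hW18 : x ^ A ≤ (N:ℝ) ^ (1 / 8 : ℝ)) (hN14 : 4 * (k:ℝ) ^ 2 ≤ (N:ℝ) ^ (1 / 4 : ℝ))
    (hlogM : 2 * M / δ ≤ x) (hlog4 : 2 * M / δ * (128 * (k:ℝ) ^ 2 * (k + 1) * Real.log 4) ≤ x)
    (hA4 : ((64 * (k:ℝ)) * (2 * M / δ)) ^ 4 + 1 ≤ x)
    (hB4 : (64 * (k:ℝ) ^ 2 * (k + 1) * (2 * M / δ)) ^ 4 + 1 ≤ x)
    (hS2 : (5 + 4 * Real.log 3) + 4 * Real.log x ≤ x ^ (1/4 : ℝ)) (hlog8 : 8 ≤ x)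
    (Gd : Finset ℕ) (hGd : ∀ n, n ∈ Gd ↔ (N < n ∧ n ≤ 2 * N) ∧ n ≡ a [MOD W] ∧
      GoodN m ((N:ℝ) ^ ρ) h n) :
    1 / (2 * k * 4 ^ ω0 * hT k ^ (2 * k)) * ((N:ℝ) / W) / (cW W * x) ^ k ≤ (Gd.card : ℝ) := by
  classical
  obtain ⟨hZ2, hlogZ⟩ := hZZ
  obtain ⟨hz2, hlogz⟩ := hZZ2
  have hδ0 : 0 < δ := by rw [hδθ]; positivity
  have hk' : (2:ℝ) ≤ k := by exact_mod_cast hk
  have hkpos : (0:ℝ) < k := by linarith
  have hh1 := hT_ge_one (T := k) (by omega)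
  have hM0 : 0 < M := by
    have : (0:ℝ) < M := lt_of_lt_of_le (by positivity) hM
    exact_mod_cast this
  have hM' : (0:ℝ) < M := by exact_mod_cast hM0
  have hTM : k ≤ M := by
    have : (k:ℝ) ≤ M := by
      refine le_trans ?_ hM
      have h1 := mul_le_mul_of_nonneg_left hh1 hkpos.le
      linarith
    exact_mod_cast this
  have hL0 : 0 < L := by rw [hL]; have : 0 < k := by omega
                         positivity
  have hL' : (0:ℝ) < L := by exact_mod_cast hL0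
  have hML0 : 0 < M * L := Nat.mul_pos hM0 hL0
  have hMLr : (0:ℝ) < ((M * L : ℕ) : ℝ) := by exact_mod_cast hML0
  have hρ0 : 0 < ρ := by rw [hρ]; positivity
  have hK0le : 2 ^ (k + 10) * k ≤ K0 := by
    rw [hK0]; exact Nat.le_mul_of_pos_right _ (by omega)
  set Z := ZZ δ M N with hZ
  set z := ZZ δ (M * L) N with hz
  set R := Z ^ M with hR
  have hx0 : 0 < x := by linarith
  have hx1 : 1 ≤ x := by linarith
  have hN0 : (0:ℝ) < N := by exact_mod_cast (show 0 < N by omega)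
  have hN1 : (1:ℝ) ≤ N := by exact_mod_cast (show 1 ≤ N by omega)
  have hWpos : (0:ℝ) < W := by exact_mod_cast hW
  set P : Finset ℕ := (Finset.range (R + 1)).filter (fun p => p.Prime ∧ ¬ p ∣ W) with hP
  have hS : Setting P W K0 R :=
    { prime := fun p hp => (Finset.mem_filter.1 hp).2.1
      ndvd := fun p hp => (Finset.mem_filter.1 hp).2.2
      ge := fun p hp => by
        by_contra hcon
        push Not at hcon
        exact (Finset.mem_filter.1 hp).2.2 (hWp p (Finset.mem_filter.1 hp).2.1 hcon)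
      le := fun p hp => by
        have := Finset.mem_range.1 (Finset.mem_filter.1 hp).1
        omega
      mem := fun p h1 h2 h3 => Finset.mem_filter.2 ⟨Finset.mem_range.2 (by omega), h1, h2⟩ }
  have hsepP : Sep P h := fun p hp i j hij => hsep p (hS.prime p hp) (hS.ndvd p hp) i j hij
  -- sizes
  have hRN : ((R : ℕ) : ℝ) ≤ (N:ℝ) ^ δ := ZZ_pow_le hM0 (by omega)
  have hδ8 : δ ≤ 1 / 8 := by rw [hδθ]; linarith
  have hWle : (W:ℝ) ≤ (N:ℝ) ^ (θ / 2) := hWA.trans hWθ'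
  have hRRN : ((R * R : ℕ) : ℝ) ≤ (N:ℝ) ^ (θ / 2) := by
    push_cast
    calc (R:ℝ) * R ≤ (N:ℝ) ^ δ * (N:ℝ) ^ δ := by gcongr
      _ = (N:ℝ) ^ (θ / 2) := by
          rw [← Real.rpow_add hN0]
          congr 1
          rw [hδθ]; ring
  have hWRR : ((W * (R * R) : ℕ) : ℝ) ≤ (N:ℝ) ^ θ := by
    push_cast at hRRN ⊢
    calc (W:ℝ) * (R * R) ≤ (N:ℝ) ^ (θ / 2) * (N:ℝ) ^ (θ / 2) := by gcongr
      _ = (N:ℝ) ^ θ := by
          rw [← Real.rpow_add hN0]
          congr 1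
          ring
  have hWRRN : W * (R * R) ≤ N := by
    have h1 : (N:ℝ) ^ θ ≤ (N:ℝ) ^ (1:ℝ) := Real.rpow_le_rpow_of_exponent_le hN1 (by linarith)
    rw [Real.rpow_one] at h1
    exact_mod_cast hWRR.trans h1
  have hWRRθ : W * (R * R) ≤ ⌊((3 * N : ℕ):ℝ) ^ θ⌋₊ := by
    refine Nat.le_floor (hWRR.trans ?_)
    push_cast
    exact Real.rpow_le_rpow hN0.le (by linarith) hθ.le
  have hR1 : 1 ≤ R := Nat.one_le_pow _ _ (by omega)
  have hRleN : R ≤ N := by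
    have h1 : R * 1 ≤ R * R := Nat.mul_le_mul_left R hR1
    have h2 : 1 * (R * R) ≤ W * (R * R) := Nat.mul_le_mul_right _ hW
    omega
  have hZR : Z ≤ R := Nat.le_self_pow (by omega) Z
  -- the small scale
  have hzZ : z ≤ Z := by
    rw [hz, hZ]
    unfold ZZ
    refine Nat.floor_mono (Real.rpow_le_rpow_of_exponent_le hN1 ?_)
    push_cast
    refine div_le_div_of_nonneg_left hδ0.le hM' ?_
    have : (1:ℝ) ≤ L := by exact_mod_cast hL0
    exact le_mul_of_one_le_right hM'.le this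
  have hzle : (z:ℝ) ≤ (N:ℝ) ^ ρ := by
    rw [hz, hρ]
    unfold ZZ
    exact Nat.floor_le (by positivity)
  have hz0 : (0:ℝ) < z := by exact_mod_cast (show 0 < z by omega)
  have hZ0 : (0:ℝ) < Z := by exact_mod_cast (show 0 < Z by omega)
  have hlogz' : Real.log z ≤ ρ * x := by
    have := Real.log_le_log hz0 hzle
    rwa [Real.log_rpow hN0, ← hx] at this
  -- the sup norm bound
  have hLLR : LL R ^ (4 * k) ≤ (N:ℝ) ^ (1 / 8 : ℝ) :=
    (pow_le_pow_left₀ (by have := LL_ge_one R; linarith) (LL_mono hRleN) _).trans hLLk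
  have hsup : ((Z:ℝ) ^ M * LL R ^ (4 * k)) ^ 2 ≤ (N:ℝ) ^ (1 / 2 : ℝ) := by
    have h1 : (Z:ℝ) ^ M ≤ (N:ℝ) ^ (1 / 8 : ℝ) := by
      have h2 : ((R : ℕ) : ℝ) = (Z:ℝ) ^ M := by rw [hR]; push_cast; rfl
      rw [← h2]
      exact hRN.trans (Real.rpow_le_rpow_of_exponent_le hN1 hδ8)
    have h3 : (Z:ℝ) ^ M * LL R ^ (4 * k) ≤ (N:ℝ) ^ (1 / 8 : ℝ) * (N:ℝ) ^ (1 / 8 : ℝ) := by
      have := LL_ge_one R
      gcongr
    have h4 : 0 ≤ (Z:ℝ) ^ M * LL R ^ (4 * k) := by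
      have := LL_ge_one R
      positivity
    refine (pow_le_pow_left₀ h4 h3 2).trans (le_of_eq ?_)
    rw [← Real.rpow_add hN0, ← Real.rpow_natCast, ← Real.rpow_mul hN0.le]
    norm_num
  -- model
  have hkv := kv_bounds (A := A) hW hx1 hWA hll9 hll1
  have hC1 := root_le hx0 hA4
  have hC2 := root_le hx0 hB4
  have hcWpos := cW_pos hW
  have hKVpos := KV_pos hW
  set y4 : ℝ := x ^ (1/4 : ℝ) with hy4
  have hy40 : 0 < y4 := by positivity
  have hZx : x ≤ 2 * M / δ * Real.log Z := by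
    have h1 : 2 * M / δ * (δ / (2 * M) * x) ≤ 2 * M / δ * Real.log Z :=
      mul_le_mul_of_nonneg_left hlogZ (by positivity)
    have h2 : 2 * M / δ * (δ / (2 * M) * x) = x := by field_simp
    linarith
  have hlogZpos : 0 < Real.log Z := Real.log_pos (by exact_mod_cast (show 1 < Z by omega))
  have hratio := ratio_le' (W := W) hW hZ2 hx0 hZx
  have hMδ : (1:ℝ) ≤ 2 * M / δ := by
    have h1 : (1:ℝ) ≤ M := by exact_mod_cast hM0
    rw [le_div_iff₀ hδ0]; linarith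
  have hy41 : 1 ≤ y4 := by
    refine le_trans ?_ hC1
    have h1 := mul_le_mul (show (1:ℝ) ≤ 64 * k by linarith) hMδ zero_le_one (by positivity)
    rwa [one_mul] at h1
  have hq0 : 0 ≤ KV W / (cW W * x) := by positivity
  have hZK : 64 * (k:ℝ) * KV W ≤ cW W * Real.log Z := by
    have h2 : KV W / (cW W * x) * y4 ≤ 1 := by
      refine le_trans ?_ hkv
      refine mul_le_mul_of_nonneg_left ?_ hq0
      exact le_self_pow₀ hy41 (by norm_num)
    have h1 : KV W / (cW W * Real.log Z) * (64 * k) ≤ 1 := by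
      calc KV W / (cW W * Real.log Z) * (64 * k)
          ≤ ((2 * M / δ) * (KV W / (cW W * x))) * (64 * k) :=
            mul_le_mul_of_nonneg_right hratio (by positivity)
        _ = KV W / (cW W * x) * ((64 * k) * (2 * M / δ)) := by ring
        _ ≤ KV W / (cW W * x) * y4 := mul_le_mul_of_nonneg_left hC1 hq0
        _ ≤ 1 := h2
    rw [div_mul_eq_mul_div, div_le_one (by positivity)] at h1
    linarith
  obtain ⟨hmod1, _⟩ := model_bounds (P := P) (M := M) (T := k) (k := k) hS hW hk (by omega)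
    le_rfl hM hK0le hZ2 (Nat.pow_le_pow_right (by omega) hTM) hZK
  have hG1 := gT2_ge_one (T := k) (by omega)
  have hKV1 : 1 ≤ KV W := by
    unfold KV
    have := KW_pos hW
    linarith
  have hD1 : 1 ≤ cW W * Real.log Z := by
    refine le_trans ?_ hZK
    have h1 := mul_le_mul (show (1:ℝ) ≤ 64 * k by linarith) hKV1 zero_le_one (by positivity)
    rwa [one_mul] at h1
  have hSk1 : 1 ≤ SS k W Z k := by
    unfold SS
    refine one_le_pow₀ ?_
    exact hD1.trans (le_mul_of_one_le_right (by positivity) hG1)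
  have hDk : (cW W * Real.log Z) ^ k ≤ SS k W Z k := by
    unfold SS
    refine pow_le_pow_left₀ (by positivity) ?_ k
    exact le_mul_of_one_le_right (by positivity) hG1
  have hX0 : 0 < (N:ℝ) / W := by positivity
  have hg0 : ∀ n, 0 ≤ GG (cc Z k M) (JJ (P := P) h n) ^ 2 := fun n => sq_nonneg _
  -- `X` is large
  have hXbig : (N:ℝ) ^ (3 / 4 : ℝ) * (N:ℝ) ^ (1/8 : ℝ) ≤ (N:ℝ) / W := by
    rw [le_div_iff₀ hWpos]
    calc (N:ℝ) ^ (3 / 4 : ℝ) * (N:ℝ) ^ (1/8 : ℝ) * W ≤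
          (N:ℝ) ^ (3 / 4 : ℝ) * (N:ℝ) ^ (1/8 : ℝ) * (N:ℝ) ^ (1/8 : ℝ) := by
            gcongr
            exact hWA.trans hW18
      _ = N := by
          rw [← Real.rpow_add hN0, ← Real.rpow_add hN0]
          norm_num
  have hXhalf : (N:ℝ) ^ (1 / 2 : ℝ) ≤ (N:ℝ) / W := by
    refine le_trans ?_ hXbig
    rw [← Real.rpow_add hN0]
    exact Real.rpow_le_rpow_of_exponent_le hN1 (by norm_num)
  set A0 := (Finset.Ioc N (2 * N)).filter (fun n => n ≡ a [MOD W]) with hA0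
  -- S1
  have hone : ∑ n ∈ A0, GG (cc Z k M) (JJ (P := P) h n) ^ 2 ≤ 3 * ((N:ℝ) / W) * SS k W Z k := by
    have h1 := sum_GG_le' (T := k) (M := M) hS hZ2 hsepP (q := 1) hW one_pos N a (hmod1 1 _)
    rw [mul_one] at h1
    refine h1.trans ?_
    have h2 : (P.filter (· ∣ 1)).card = 0 := by
      rw [Finset.card_eq_zero, Finset.filter_eq_empty_iff]
      intro p hp h3
      rw [Nat.dvd_one] at h3
      exact (hS.prime p hp).one_lt.ne' h3
    rw [h2]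
    simp only [mul_zero, pow_zero, one_mul]
    have h3 : ((Z:ℝ) ^ M * LL R ^ (4 * k)) ^ 2 ≤ (N:ℝ) / W * SS k W Z k :=
      hsup.trans (hXhalf.trans (le_mul_of_one_le_right hX0.le hSk1))
    linarith
  -- S2
  have hlogZ1 : 1 ≤ Real.log Z := by
    refine le_trans ?_ hlogZ
    have h1 : δ / (2 * M) * (2 * M / δ) ≤ δ / (2 * M) * x :=
      mul_le_mul_of_nonneg_left hlogM (by positivity)
    have h2 : δ / (2 * M) * (2 * M / δ) = 1 := by field_simp
    linarith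
  have hS2' : ∀ i : Fin k, (N:ℝ) / W * (1 / 8) * Real.log Z * hT k ^ 2 * SS k W Z k ≤
      ∑ n ∈ A0, tht (n + h i) * GG (cc Z k M) (JJ (P := P) h n) ^ 2 := fun i =>
    theta_lower hS hW hk (by omega) le_rfl hM hK0le hZ2 (Nat.pow_le_pow_right (by omega) hTM) hZK
      hlogZ1 hsepP (by omega) hRleN i (ha i) hlog8 hWA (herr (h i) (hsh i) P K0 R hS hRleN hWRRN hWRRθ)
  -- combination
  have hℓ2 : Real.log (3 * N : ℕ) ≤ 2 * x := by
    push_cast
    rw [Real.log_mul (by norm_num) hN0.ne', ← hx]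
    have : Real.log 3 ≤ x := by
      rw [hx]
      exact Real.log_le_log (by norm_num) (by exact_mod_cast hN3)
    linarith
  have hℓ0 : 0 < Real.log (3 * N : ℕ) := Real.log_pos (by exact_mod_cast (show 1 < 3 * N by omega))
  have hlZ18 : δ * x / (18 * k * hT k) ≤ Real.log Z := by
    refine le_trans ?_ hlogZ
    have hdm : δ / (2 * M) * x = δ * x / (2 * M) := div_mul_eq_mul_div _ _ _
    rw [hdm]
    have hM2 : 2 * (M:ℝ) ≤ 18 * k * hT k := by linarith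
    have hM3 : (0:ℝ) < 2 * (M:ℝ) := by positivity
    have hδx : 0 ≤ δ * x := by positivity
    exact div_le_div_of_nonneg_left hδx hM3 hM2
  have hUk := mass_lower (k := k) (by omega) (m := m) hg0 hℓ0 hℓ2 hx0 hX0
    (lt_of_lt_of_le one_pos hSk1) hh1 hδ0 hone hS2' hlZ18 hTge (fun n hn i hne => by
      have hn' := Finset.mem_Ioc.1 (Finset.mem_filter.1 hn).1
      have := hsh i
      refine Real.log_le_log (by exact_mod_cast Nat.pos_of_ne_zero hne) ?_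
      exact_mod_cast (show n + h i ≤ 3 * N by omega))
  -- the bad part
  have hbad := bad_small (T := k) hS hW hk (by omega) hK0 hZ2 hZK hsepP (a := a) (z := z) (by omega) hzZ hM0
    hRleN hx hlog8 hS2 (by
      have e2 : ρ * x * L = 2 * (δ / (2 * M) * x) := by
        rw [hρ]
        push_cast
        field_simp
      have e3 : 128 * (k:ℝ) ^ 2 * (k + 1) = L / 2 := by
        rw [hL]; push_cast; ring
      rw [e3]
      have h4 := mul_le_mul_of_nonneg_left hlogz' (by positivity : (0:ℝ) ≤ (L:ℝ) / 2)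
      linarith only [h4, e2, hlogZ]) (by
      have h1 : δ / (2 * M) * (2 * M / δ * (128 * (k:ℝ) ^ 2 * (k + 1) * Real.log 4)) ≤
          δ / (2 * M) * x := mul_le_mul_of_nonneg_left hlog4 (by positivity)
      have h2 : δ / (2 * M) * (2 * M / δ * (128 * (k:ℝ) ^ 2 * (k + 1) * Real.log 4)) =
          128 * (k:ℝ) ^ 2 * (k + 1) * Real.log 4 := by
        field_simp
      linarith) (by
      calc 64 * (k:ℝ) ^ 2 * (k + 1) * (KV W / (cW W * Real.log Z) * y4)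
          ≤ 64 * (k:ℝ) ^ 2 * (k + 1) * (((2 * M / δ) * (KV W / (cW W * x))) * y4) := by gcongr
        _ = KV W / (cW W * x) * ((64 * (k:ℝ) ^ 2 * (k + 1) * (2 * M / δ)) * y4) := by ring
        _ ≤ KV W / (cW W * x) * (y4 * y4) := by gcongr
        _ = KV W / (cW W * x) * y4 ^ 2 := by ring
        _ ≤ 1 := hkv) (by
      have e1 : (z:ℝ) ≤ (N:ℝ) ^ (1/8 : ℝ) := by
        refine hzle.trans (Real.rpow_le_rpow_of_exponent_le hN1 ?_)
        rw [hρ]
        refine le_trans ?_ hδ8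
        refine div_le_self hδ0.le ?_
        exact_mod_cast hML0
      calc (k:ℝ) * z * ((Z:ℝ) ^ M * LL R ^ (4 * k)) ^ 2 * (4 * k)
          = 4 * (k:ℝ) ^ 2 * (((Z:ℝ) ^ M * LL R ^ (4 * k)) ^ 2 * z) := by ring
        _ ≤ (N:ℝ) ^ (1/4 : ℝ) * ((N:ℝ) ^ (1/2 : ℝ) * (N:ℝ) ^ (1/8 : ℝ)) := by gcongr
        _ = (N:ℝ) ^ (3/4 : ℝ) * (N:ℝ) ^ (1/8 : ℝ) := by
            rw [← Real.rpow_add hN0, ← Real.rpow_add hN0, ← Real.rpow_add hN0]
            norm_num
        _ ≤ _ := hXbig) hSk1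
  -- the good part
  have hUsplit : ∑ n ∈ A0, (if m ≤ npr h n then GG (cc Z k M) (JJ (P := P) h n) ^ 2 else 0) ≤
      ∑ n ∈ Gd, GG (cc Z k M) (JJ (P := P) h n) ^ 2 +
      ∑ n ∈ A0, (if ∃ p ∈ P, p ≤ z ∧ ∃ i, p ∣ n + h i then
        GG (cc Z k M) (JJ (P := P) h n) ^ 2 else 0) := by
    have h0 : Gd = A0.filter (fun n => GoodN m ((N:ℝ) ^ ρ) h n) := by
      ext n
      rw [hGd, hA0, Finset.mem_filter, Finset.mem_filter, Finset.mem_Ioc]
      tauto
    have h1 : ∑ n ∈ Gd, GG (cc Z k M) (JJ (P := P) h n) ^ 2 = ∑ n ∈ A0,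
        (if GoodN m ((N:ℝ) ^ ρ) h n then GG (cc Z k M) (JJ (P := P) h n) ^ 2 else 0) := by
      rw [h0]
      exact Finset.sum_filter _ _
    rw [h1, ← Finset.sum_add_distrib]
    refine Finset.sum_le_sum fun n hn => ?_
    have hgn := hg0 n
    by_cases hm : m ≤ npr h n
    · rw [if_pos hm]
      by_cases hb : ∃ p ∈ P, p ≤ z ∧ ∃ i, p ∣ n + h i
      · rw [if_pos hb]
        split_ifs <;> linarith
      · rw [if_neg hb, if_pos, add_zero]
        refine ⟨hm, fun i p hp hpn => ?_⟩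
        have hn' := (Finset.mem_filter.1 hn).2
        have hpW : ¬ p ∣ W := by
          intro hpW
          have h2 : (n + h i).Coprime W := by
            rw [Nat.coprime_iff_gcd_eq_one, Nat.ModEq.gcd_eq (hn'.add_right (h i))]
            exact ha i
          exact Nat.not_coprime_of_dvd_of_dvd hp.one_lt hpn hpW h2
        have hzp : z < p := by
          by_contra hcon
          push Not at hcon
          exact hb ⟨p, hS.mem p hp hpW (hcon.trans (hzZ.trans hZR)), hcon, i, hpn⟩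
        have h2 : (N:ℝ) ^ ρ < (z:ℝ) + 1 := by
          have := Nat.lt_floor_add_one ((N:ℝ) ^ ρ)
          rw [hz, hρ]
          rw [hρ] at this
          unfold ZZ
          exact this
        have h3 : (z:ℝ) + 1 ≤ p := by exact_mod_cast hzp
        linarith
    · rw [if_neg hm]
      split_ifs <;> linarith
  have hgood : 2 * ((N:ℝ) / W) * SS k W Z k / k ≤ ∑ n ∈ Gd, GG (cc Z k M) (JJ (P := P) h n) ^ 2 := by
    have h1 : 3 * ((N:ℝ) / W) * SS k W Z k / k ≤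
        ∑ n ∈ A0, (if m ≤ npr h n then GG (cc Z k M) (JJ (P := P) h n) ^ 2 else 0) := by
      rw [div_le_iff₀ hkpos, mul_comm (∑ n ∈ A0, _)]
      exact hUk
    have h2 : 3 * ((N:ℝ) / W) * SS k W Z k / k - (N:ℝ) / W * SS k W Z k / k =
        2 * ((N:ℝ) / W) * SS k W Z k / k := by ring
    linarith
  -- sup bound on the good part
  have hA2h := A2h_pow_le (T := k) hS hW hk (by omega) hK0le hZ2 hZK
  have hgle : ∀ n ∈ Gd, GG (cc Z k M) (JJ (P := P) h n) ^ 2 ≤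
      4 ^ (ω0 + 1) * (cW W * Real.log Z * hT k) ^ (2 * k) := by
    intro n hn
    rw [hGd] at hn
    obtain ⟨⟨hn1, hn2⟩, hn3, hn4, hn5⟩ := hn
    have h1 := abs_GG_le_two (Z := Z) (T := k) (M := M) hS.prime (JJ (P := P) h n)
    have h2 : (Finset.univ.filter (fun p : P => JJ h n p ≠ none)).card ≤ ω0 := by
      have h3 := card_col_le hS hsepP (n := n) (N := N) (z := z) hz2 (fun i => by
        have := hsh i
        omega) (by omega) (fun p hp i hpn => by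
          have h4 := hn5 i p (hS.prime p hp) hpn
          have h5 := hzle.trans_lt h4
          exact_mod_cast h5) (w := 4 * ((M * L : ℕ) : ℝ) / δ) (by
            have h6 : 4 * ((M * L : ℕ) : ℝ) / δ * (δ / (2 * ((M * L : ℕ) : ℝ)) * x) = 2 * x := by
              field_simp
              norm_num
            have h7 := mul_le_mul_of_nonneg_left hlogz
              (show 0 ≤ 4 * ((M * L : ℕ) : ℝ) / δ by positivity)
            rw [h6] at h7
            exact hℓ2.trans h7)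
      have h4 : ((Finset.univ.filter (fun p : P => JJ h n p ≠ none)).card : ℝ) ≤ ω0 :=
        h3.trans hω0
      exact_mod_cast h4
    have h3 : |GG (cc Z k M) (JJ (P := P) h n)| ≤ 2 ^ ω0 * (2 * (cW W * Real.log Z * hT k) ^ k) := by
      refine h1.trans (mul_le_mul ?_ hA2h ?_ (by positivity))
      · exact pow_le_pow_right₀ (by norm_num) h2
      · exact pow_nonneg ((A2_nonneg P Z k).trans (A2_le_A2h P Z k)) k
    rw [← sq_abs]
    refine (pow_le_pow_left₀ (abs_nonneg _) h3 2).trans (le_of_eq ?_)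
    have e1 : (4:ℝ) ^ (ω0 + 1) = (2 ^ ω0) ^ 2 * 4 := by
      rw [← pow_mul, mul_comm ω0 2, pow_mul, pow_succ]
      norm_num
    rw [e1, pow_mul']
    ring
  have hDx : cW W * Real.log Z ≤ cW W * x := by
    refine mul_le_mul_of_nonneg_left ?_ hcWpos.le
    rw [hx]
    exact Real.log_le_log hZ0 (by exact_mod_cast hZR.trans hRleN)
  exact count_lower hk hX0 hD1 hh1 hDk hDx hgood hgle

open Classical in
/-- Uniform Maynard–Tao theorem. -/
theorem maynard_uniform (m : ℕ) :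
    ∃ (k K0 : ℕ) (c ρ : ℝ), m ≤ k ∧ 2 ≤ k ∧ 0 < c ∧ 0 < ρ ∧ ρ ≤ 1 / 8 ∧ ∀ A : ℕ, ∀ᶠ N : ℕ in atTop,
      ∀ W : ℕ, 0 < W → (W:ℝ) ≤ (Real.log N) ^ A → (∀ p, p.Prime → p < K0 → p ∣ W) →
      ∀ h : Fin k → ℕ, (∀ i, h i ≤ N) →
      (∀ p, p.Prime → ¬ p ∣ W → ∀ i j, i ≠ j → ¬ (h i ≡ h j [MOD p])) →
      ∀ a : ℕ, (∀ i, (a + h i).Coprime W) →
        c * ((N:ℝ) / W) / (cW W * Real.log N) ^ k ≤
          (((Finset.Ioc N (2 * N)).filter
            (fun n => n ≡ a [MOD W] ∧ GoodN m ((N:ℝ) ^ ρ) h n)).card : ℝ) := by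
  set θ : ℝ := 1 / 4 with hθdef
  have hθ : 0 < θ := by norm_num
  have hθ2 : θ ≤ 1 / 2 := by norm_num
  have hBV : BVHyp θ := bvHyp (by norm_num)
  set δ : ℝ := θ / 4 with hδ
  have hδ0 : 0 < δ := by positivity
  obtain ⟨k, hk2, hTge⟩ := exists_hT_ge (864 * (m + 1) / δ)
  have hh1 := hT_ge_one (T := k) (by omega)
  have hk' : (2:ℝ) ≤ k := by exact_mod_cast hk2
  have hkpos : (0:ℝ) < k := by linarith
  have hTge' : (864:ℝ) * (m + 1) ≤ hT k * δ := by rwa [div_le_iff₀ hδ0] at hTge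
  have hmk : m ≤ k := by
    have h2 := hT_le k
    have h3 : δ ≤ 1 := by rw [hδ, hθdef]; norm_num
    have h4 : (m:ℝ) ≤ k := by
      have h5 : hT k * δ ≤ hT k * 1 := mul_le_mul_of_nonneg_left h3 (by linarith)
      have h6 : (0:ℝ) ≤ m := Nat.cast_nonneg m
      linarith
    exact_mod_cast h4
  set M : ℕ := ⌈8 * (k:ℝ) * hT k⌉₊ with hM
  have hMge : 8 * (k:ℝ) * hT k ≤ M := Nat.le_ceil _
  have hMle : (M:ℝ) ≤ 9 * k * hT k := by
    have h1 := Nat.ceil_lt_add_one (a := 8 * (k:ℝ) * hT k) (by positivity)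
    have h2 : 1 ≤ (k:ℝ) * hT k := by nlinarith
    have h3 : (M:ℝ) < 8 * (k:ℝ) * hT k + 1 := h1
    linarith
  have hM0 : 0 < M := by
    have : (0:ℝ) < M := lt_of_lt_of_le (by positivity) hMge
    exact_mod_cast this
  have hM' : (0:ℝ) < M := by exact_mod_cast hM0
  set L : ℕ := 256 * k ^ 2 * (k + 1) with hL
  have hL0 : 0 < L := by rw [hL]; have : 0 < k := by omega
                         positivity
  have hML0 : 0 < M * L := Nat.mul_pos hM0 hL0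
  have hMLr : (1:ℝ) ≤ ((M * L : ℕ) : ℝ) := by exact_mod_cast hML0
  set ρ : ℝ := δ / ((M * L : ℕ) : ℝ) with hρ
  have hρ0 : 0 < ρ := by positivity
  have hρ8 : ρ ≤ 1 / 8 := by
    refine (div_le_self hδ0.le hMLr).trans ?_
    rw [hδ, hθdef]; norm_num
  set ω0 : ℕ := ⌈(k:ℝ) * (4 * ((M * L : ℕ) : ℝ) / δ)⌉₊ with hω0
  have hh0 : 0 < hT k := by linarith
  refine ⟨k, 2 ^ (k + 10) * k * k, 1 / (2 * k * 4 ^ ω0 * hT k ^ (2 * k)), ρ, hmk, hk2,
    by positivity, hρ0, hρ8, fun A => ?_⟩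
  filter_upwards [ev_ZZ hδ0 hM0, ev_ZZ hδ0 hML0, ev_err' hBV k (A + 1),
    ev_loglog_le (9:ℝ) (2 * A), ev_loglog_le (1:ℝ) (2 * A),
    (ev_LL_pow_le (s := 1 / 8) (by norm_num) (4 * k)),
    ev_log_pow_le (s := θ / 2) (by positivity) A, ev_log_pow_le (s := 1 / 8) (by norm_num) A,
    ev_rpow_ge (s := 1 / 4) (by norm_num) (4 * (k:ℝ) ^ 2),
    ev_log_ge (2 * M / δ), ev_log_ge (2 * M / δ * (128 * (k:ℝ) ^ 2 * (k + 1) * Real.log 4)),
    ev_log_ge (((64 * (k:ℝ)) * (2 * M / δ)) ^ 4 + 1),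
    ev_log_ge ((64 * (k:ℝ) ^ 2 * (k + 1) * (2 * M / δ)) ^ 4 + 1),
    (ev_loglog_le (5 + 4 * Real.log 3) 4), ev_log_ge 8, eventually_ge_atTop 3]
    with N hZZ hZZ2 herr hll9 hll1 hLLk hWθ' hW18 hN14 hlogM hlog4 hA4 hB4 hS2 hlog8 hN3
    W hW hWA hWp h hsh hsep a ha
  exact uniform_core (A := A) hδ hθ hθ2 hk2 hMge hMle hL hρ rfl hTge' (Nat.le_ceil _) hN3 rfl hZZ hZZ2 hW
    hWA hWp hsh hsep ha (fun s hs => herr W s hW hs) hll9 hll1 hLLk hWθ' hW18 hN14 hlogM hlog4 hA4 hB4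
    hS2 hlog8 _ (fun n => by rw [Finset.mem_filter, Finset.mem_Ioc])

end Pool.Agent.HLM26
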